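import Pool.Agent.Lib.MP_9a7843_ag.Defs

/-!
# Places of fields over `k`
-/

noncomputable section

namespace Pool.Agent.MP9a7843

universe u

variable {k : Type u} [Field k] {F : Type u} [Field F] [Algebra k F]

namespace ProjVar

/-- `F / k` is finitely generated of transcendence degree `1`. -/
structure IsCurveField (k : Type u) [Field k] (F : Type u) [Field F] [Algebra k F] : Prop where
  fg : Algebra.EssFiniteType k F
  trdeg : Algebra.trdeg k F = 1

namespace Place

variable (v : Place k F)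

theorem ord_one : v.ord 1 = 0 := by
  simpa using v.ord_const 1 one_ne_zero

theorem ord_neg (a : F) : v.ord (-a) = v.ord a := by
  by_cases ha : a = 0
  · rw [ha, neg_zero]
  · have h1 := v.ord_mul (-1) a (neg_ne_zero.2 one_ne_zero) ha
    have h2 := v.ord_const (-1) (neg_ne_zero.2 one_ne_zero)
    rw [map_neg, map_one] at h2
    rw [h2, zero_add, neg_one_mul] at h1
    exact h1

theorem ord_inv (a : F) : v.ord a⁻¹ = -v.ord a := by
  by_cases ha : a = 0
  · rw [ha, inv_zero, v.ord_zero, neg_zero]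
  · have h1 := v.ord_mul a a⁻¹ ha (inv_ne_zero ha)
    rw [mul_inv_cancel₀ ha, v.ord_one] at h1
    linarith

theorem ord_div {a b : F} (ha : a ≠ 0) (hb : b ≠ 0) : v.ord (a / b) = v.ord a - v.ord b := by
  rw [div_eq_mul_inv, v.ord_mul a b⁻¹ ha (inv_ne_zero hb), v.ord_inv]
  ring

theorem ord_pow (a : F) (n : ℕ) : v.ord (a ^ n) = n * v.ord a := by
  induction n with
  | zero => simp [v.ord_one]
  | succ n ih =>
    by_cases ha : a = 0
    · rw [ha, zero_pow (Nat.succ_ne_zero n), v.ord_zero, mul_zero]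
    · rw [pow_succ, v.ord_mul _ _ (pow_ne_zero n ha) ha, ih]
      push_cast
      ring

theorem ord_zpow (a : F) (n : ℤ) : v.ord (a ^ n) = n * v.ord a := by
  obtain ⟨m, rfl | rfl⟩ := n.eq_nat_or_neg
  · rw [zpow_natCast, v.ord_pow]
  · rw [zpow_neg, zpow_natCast, v.ord_inv, v.ord_pow]
    ring

theorem ord_prod {ι : Type*} (s : Finset ι) (f : ι → F) (h : ∀ i ∈ s, f i ≠ 0) :
    v.ord (∏ i ∈ s, f i) = ∑ i ∈ s, v.ord (f i) := by
  classical
  induction s using Finset.induction_on with
  | empty => simp [v.ord_one]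
  | insert i s hi ih =>
    rw [Finset.prod_insert hi, Finset.sum_insert hi,
      v.ord_mul _ _ (h i (Finset.mem_insert_self i s))
        (Finset.prod_ne_zero_iff.2 fun j hj => h j (Finset.mem_insert_of_mem hj)),
      ih fun j hj => h j (Finset.mem_insert_of_mem hj)]

theorem ord_add_eq {a b : F} (ha : a ≠ 0) (hb : b ≠ 0) (h : v.ord a < v.ord b) :
    a + b ≠ 0 ∧ v.ord (a + b) = v.ord a := by
  have h0 : a + b ≠ 0 := by
    intro h0
    rw [eq_neg_of_add_eq_zero_left h0, v.ord_neg] at h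
    exact lt_irrefl _ h
  refine ⟨h0, le_antisymm ?_ ?_⟩
  · have h1 := v.ord_add (a + b) (-b) h0 (neg_ne_zero.2 hb) (by
      rw [add_neg_cancel_right]
      exact ha)
    rw [add_neg_cancel_right, v.ord_neg] at h1
    rcases min_le_iff.1 h1 with h2 | h2
    · exact h2
    · exact absurd h (not_lt.2 h2)
  · have h1 := v.ord_add a b ha hb h0
    rwa [min_eq_left h.le] at h1

/-- The valuation ring of the place. -/
def valSubring : ValuationSubring F where
  carrier := {a | a = 0 ∨ 0 ≤ v.ord a}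
  mul_mem' := by
    intro a b ha hb
    by_cases ha0 : a = 0
    · exact Or.inl (by rw [ha0, zero_mul])
    by_cases hb0 : b = 0
    · exact Or.inl (by rw [hb0, mul_zero])
    refine Or.inr ?_
    rw [v.ord_mul a b ha0 hb0]
    exact add_nonneg (ha.resolve_left ha0) (hb.resolve_left hb0)
  one_mem' := by
    refine Or.inr ?_
    rw [v.ord_one]
  add_mem' := by
    intro a b ha hb
    by_cases ha0 : a = 0
    · rw [ha0, zero_add]
      exact hb
    by_cases hb0 : b = 0
    · rw [hb0, add_zero]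
      exact ha
    by_cases hab : a + b = 0
    · exact Or.inl hab
    exact Or.inr ((le_min (ha.resolve_left ha0) (hb.resolve_left hb0)).trans
      (v.ord_add a b ha0 hb0 hab))
  zero_mem' := Or.inl rfl
  neg_mem' := by
    intro a ha
    rcases ha with ha | ha
    · exact Or.inl (by rw [ha, neg_zero])
    · exact Or.inr (by rwa [v.ord_neg])
  mem_or_inv_mem' := by
    intro a
    rcases le_total 0 (v.ord a) with h | h
    · exact Or.inl (Or.inr h)
    · refine Or.inr (Or.inr ?_)
      rw [v.ord_inv]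
      linarith

theorem mem_valSubring {a : F} : a ∈ v.valSubring ↔ a = 0 ∨ 0 ≤ v.ord a := Iff.rfl

theorem algebraMap_mem (r : k) : algebraMap k F r ∈ v.valSubring := by
  by_cases hr : r = 0
  · exact Or.inl (by rw [hr, map_zero])
  · exact Or.inr (by rw [v.ord_const r hr])

/-- `a` lies in the maximal ideal of the place. -/
def Small (a : F) : Prop := a = 0 ∨ 0 < v.ord a

theorem small_iff {a : F} : v.Small a ↔ a ∈ v.valSubring ∧ (a = 0 ∨ a⁻¹ ∉ v.valSubring) := by
  constructor
  · rintro (rfl | h)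
    · exact ⟨Or.inl rfl, Or.inl rfl⟩
    · refine ⟨Or.inr h.le, ?_⟩
      by_cases ha : a = 0
      · exact Or.inl ha
      · refine Or.inr ?_
        rintro (h1 | h1)
        · exact ha (inv_eq_zero.1 h1)
        · rw [v.ord_inv] at h1
          linarith
  · rintro ⟨h, h1 | h1⟩
    · exact Or.inl h1
    · rcases h with h | h
      · exact Or.inl h
      · refine Or.inr (lt_of_le_of_ne h fun h2 => h1 (Or.inr ?_))
        rw [v.ord_inv, ← h2, neg_zero]

theorem Small.add {a b : F} (ha : v.Small a) (hb : v.Small b) : v.Small (a + b) := by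
  by_cases ha0 : a = 0
  · rw [ha0, zero_add]
    exact hb
  by_cases hb0 : b = 0
  · rw [hb0, add_zero]
    exact ha
  by_cases hab : a + b = 0
  · exact Or.inl hab
  exact Or.inr ((lt_min (ha.resolve_left ha0) (hb.resolve_left hb0)).trans_le
    (v.ord_add a b ha0 hb0 hab))

theorem Small.neg {a : F} (ha : v.Small a) : v.Small (-a) := by
  rcases ha with ha | ha
  · exact Or.inl (by rw [ha, neg_zero])
  · exact Or.inr (by rwa [v.ord_neg])

theorem Small.sub {a b : F} (ha : v.Small a) (hb : v.Small b) : v.Small (a - b) := by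
  rw [sub_eq_add_neg]
  exact ha.add v (hb.neg v)

theorem Small.mul {a b : F} (ha : v.Small a) (hb : b ∈ v.valSubring) : v.Small (a * b) := by
  by_cases ha0 : a = 0
  · exact Or.inl (by rw [ha0, zero_mul])
  by_cases hb0 : b = 0
  · exact Or.inl (by rw [hb0, mul_zero])
  refine Or.inr ?_
  rw [v.ord_mul a b ha0 hb0]
  exact add_pos_of_pos_of_nonneg (ha.resolve_left ha0) (hb.resolve_left hb0)

theorem small_algebraMap {r : k} : v.Small (algebraMap k F r) ↔ r = 0 := by
  constructor
  · intro h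
    by_contra hr
    rcases h with h | h
    · exact hr ((map_eq_zero _).1 h)
    · rw [v.ord_const r hr] at h
      exact lt_irrefl _ h
  · intro h
    exact Or.inl (by rw [h, map_zero])

/-- The order is determined by the valuation ring (units have order `0`, and `ord` is the
exponent with respect to a uniformiser). -/
theorem ext_valSubring {v w : Place k F} (h : v.valSubring ≤ w.valSubring) : v = w := by
  have h0 : ∀ a : F, a ≠ 0 → v.ord a = 0 → w.ord a = 0 := by
    intro a ha h1
    have h2 : a ∈ w.valSubring := h (Or.inr h1.ge)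
    have h3 : a⁻¹ ∈ w.valSubring := h (Or.inr (by rw [v.ord_inv, h1, neg_zero]))
    rcases h2 with h2 | h2
    · exact absurd h2 ha
    rcases h3 with h3 | h3
    · exact absurd h3 (inv_ne_zero ha)
    rw [w.ord_inv] at h3
    linarith
  obtain ⟨t, ht0, ht⟩ := v.ord_surj
  have key : ∀ a : F, a ≠ 0 → w.ord a = v.ord a * w.ord t := by
    intro a ha
    have htn : t ^ v.ord a ≠ 0 := zpow_ne_zero _ ht0
    have h1 : v.ord (a / t ^ v.ord a) = 0 := by
      rw [v.ord_div ha htn, v.ord_zpow, ht]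
      ring
    have h2 := h0 _ (div_ne_zero ha htn) h1
    rw [w.ord_div ha htn, w.ord_zpow] at h2
    linarith
  have htw : w.ord t = 1 := by
    obtain ⟨a, ha, ha1⟩ := w.ord_surj
    have h1 := key a ha
    rw [ha1] at h1
    have h2 : t ∈ w.valSubring := h (Or.inr (by rw [ht]; exact zero_le_one))
    rcases h2 with h2 | h2
    · exact absurd h2 ht0
    · rcases Int.isUnit_iff.1 (IsUnit.of_mul_eq_one (v.ord a) (by rw [mul_comm]; exact h1.symm) :
        IsUnit (w.ord t)) with h3 | h3
      · exact h3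
      · rw [h3] at h2
        omega
  have h3 : v.ord = w.ord := by
    funext a
    by_cases ha : a = 0
    · rw [ha, v.ord_zero, w.ord_zero]
    · rw [key a ha, htw, mul_one]
  cases v
  cases w
  simp only at h3
  subst h3
  rfl

private theorem dvr_ex (A : ValuationSubring F) [IsDiscreteValuationRing A] {π : A}
    (hπ : Irreducible π) (a : F) (ha : a ≠ 0) :
    ∃ n : ℤ, ∃ u : Aˣ, a = ((u : A) : F) * (π : F) ^ n := by
  have h1 : ∀ b : F, b ≠ 0 → b ∈ A → ∃ n : ℕ, ∃ u : Aˣ, b = ((u : A) : F) * (π : F) ^ n := by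
    intro b hb hbA
    have hb' : (⟨b, hbA⟩ : A) ≠ 0 := fun h => hb (congrArg Subtype.val h)
    obtain ⟨n, u, h⟩ := IsDiscreteValuationRing.eq_unit_mul_pow_irreducible hb' hπ
    refine ⟨n, u, ?_⟩
    have h2 := congrArg (Subtype.val : A → F) h
    simpa using h2
  rcases A.mem_or_inv_mem a with h | h
  · obtain ⟨n, u, h2⟩ := h1 a ha h
    exact ⟨n, u, by rw [zpow_natCast]; exact h2⟩
  · obtain ⟨n, u, h2⟩ := h1 a⁻¹ (inv_ne_zero ha) h
    refine ⟨-n, u⁻¹, ?_⟩
    have hu : ((u⁻¹ : Aˣ) : A) * (u : A) = 1 := u.inv_mul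
    have hu' : (((u⁻¹ : Aˣ) : A) : F) * ((u : A) : F) = 1 := by
      exact_mod_cast congrArg (Subtype.val : A → F) hu
    have hu0 : ((u : A) : F) ≠ 0 := right_ne_zero_of_mul_eq_one hu'
    have h3 : (((u⁻¹ : Aˣ) : A) : F) = ((u : A) : F)⁻¹ := eq_inv_of_mul_eq_one_left hu'
    rw [h3, zpow_neg, zpow_natCast, ← mul_inv, ← h2, inv_inv]

private theorem dvr_unit (A : ValuationSubring F) (u : Aˣ) :
    ((u : A) : F) ≠ 0 ∧ (((u⁻¹ : Aˣ) : A) : F) = ((u : A) : F)⁻¹ := by
  have hu : ((u⁻¹ : Aˣ) : A) * (u : A) = 1 := u.inv_mul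
  have hu' : (((u⁻¹ : Aˣ) : A) : F) * ((u : A) : F) = 1 := by
    exact_mod_cast congrArg (Subtype.val : A → F) hu
  exact ⟨right_ne_zero_of_mul_eq_one hu', eq_inv_of_mul_eq_one_left hu'⟩

private theorem dvr_le (A : ValuationSubring F) {π : A} (hπ : Irreducible π) {n m : ℤ}
    {u u' : Aˣ} (h : ((u : A) : F) * (π : F) ^ n = ((u' : A) : F) * (π : F) ^ m) : n ≤ m := by
  by_contra hc
  rw [not_le] at hc
  have hπ0 : (π : F) ≠ 0 := fun h => hπ.ne_zero (Subtype.ext h)
  obtain ⟨l, hl⟩ : ∃ l : ℕ, n - m = (l : ℤ) := Int.eq_ofNat_of_zero_le (sub_nonneg.2 hc.le)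
  have hl0 : l ≠ 0 := by
    rintro rfl
    simp at hl
    omega
  have h1 : (π : F) ^ l = (((u⁻¹ : Aˣ) : A) : F) * ((u' : A) : F) := by
    rw [(dvr_unit A u).2, ← zpow_natCast, ← hl, zpow_sub₀ hπ0,
      div_eq_iff (zpow_ne_zero _ hπ0), mul_assoc, ← h, inv_mul_cancel_left₀ (dvr_unit A u).1]
  have h2 : π ^ l = ((u⁻¹ * u' : Aˣ) : A) := by
    apply Subtype.ext
    push_cast
    exact h1
  have h3 : IsUnit (π ^ l) := by
    rw [h2]
    exact Units.isUnit _
  exact hπ.not_isUnit ((isUnit_pow_iff hl0).1 h3)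

private theorem dvr_eq (A : ValuationSubring F) {π : A} (hπ : Irreducible π) {n m : ℤ}
    {u u' : Aˣ} (h : ((u : A) : F) * (π : F) ^ n = ((u' : A) : F) * (π : F) ^ m) : n = m :=
  le_antisymm (dvr_le A hπ h) (dvr_le A hπ h.symm)

/-- A discrete valuation ring `A ⊃ k` with field of fractions `F` gives a place: write
`a = unit * π ^ n`. -/
theorem exists_place_of_dvr (A : ValuationSubring F) (hA : ∀ r : k, algebraMap k F r ∈ A)
    [IsDiscreteValuationRing A] : ∃ v : Place k F, v.valSubring = A := by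
  classical
  obtain ⟨π, hπ⟩ := IsDiscreteValuationRing.exists_irreducible A
  have hπ0 : (π : F) ≠ 0 := fun h => hπ.ne_zero (Subtype.ext h)
  have hex := dvr_ex A hπ
  let o : F → ℤ := fun a => if h : a = 0 then 0 else (hex a h).choose
  have ho : ∀ a : F, a ≠ 0 → ∃ u : Aˣ, a = ((u : A) : F) * (π : F) ^ o a := by
    intro a ha
    have h1 := (hex a ha).choose_spec
    have h2 : o a = (hex a ha).choose := dif_neg ha
    rw [h2]
    exact h1
  have hu : ∀ (u : Aˣ) (n : ℤ), o (((u : A) : F) * (π : F) ^ n) = n := by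
    intro u n
    have h0 : ((u : A) : F) * (π : F) ^ n ≠ 0 :=
      mul_ne_zero (dvr_unit A u).1 (zpow_ne_zero _ hπ0)
    obtain ⟨u', h1⟩ := ho _ h0
    exact (dvr_eq A hπ h1).symm
  have hnn : ∀ a : F, a ≠ 0 → a ∈ A → 0 ≤ o a := by
    intro a ha haA
    have ha' : (⟨a, haA⟩ : A) ≠ 0 := fun h => ha (congrArg Subtype.val h)
    obtain ⟨n, u, h⟩ := IsDiscreteValuationRing.eq_unit_mul_pow_irreducible ha' hπ
    have h2 := congrArg (Subtype.val : A → F) h
    have h3 : a = ((u : A) : F) * (π : F) ^ (n : ℤ) := by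
      rw [zpow_natCast]
      simpa using h2
    have h4 := hu u n
    rw [← h3] at h4
    rw [h4]
    exact Int.natCast_nonneg n
  have hmem : ∀ a : F, a ≠ 0 → 0 ≤ o a → a ∈ A := by
    intro a ha h
    obtain ⟨u, h1⟩ := ho a ha
    obtain ⟨l, hl⟩ : ∃ l : ℕ, o a = (l : ℤ) := Int.eq_ofNat_of_zero_le h
    rw [h1, hl, zpow_natCast]
    exact A.mul_mem _ _ (u : A).2 (pow_mem π.2 l)
  have hmul : ∀ a b : F, a ≠ 0 → b ≠ 0 → o (a * b) = o a + o b := by
    intro a b ha hb
    obtain ⟨u, h1⟩ := ho a ha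
    obtain ⟨u', h2⟩ := ho b hb
    have h3 : a * b = (((u * u' : Aˣ) : A) : F) * (π : F) ^ (o a + o b) := by
      rw [zpow_add₀ hπ0]
      conv_lhs => rw [h1, h2]
      push_cast
      ring
    rw [h3, hu]
  have hle : ∀ a b : F, a ≠ 0 → b ≠ 0 → a + b ≠ 0 → o a ≤ o b → o a ≤ o (a + b) := by
    intro a b ha hb hab h
    have h1 : a + b = a * (1 + b / a) := by
      field_simp
    have h2 : 1 + b / a ≠ 0 := fun h2 => hab (by rw [h1, h2, mul_zero])
    have h3 : o (b / a) = o b - o a := by
      have h4 := hmul (b / a) a (div_ne_zero hb ha) ha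
      rw [div_mul_cancel₀ b ha] at h4
      linarith
    have h4 : b / a ∈ A := hmem _ (div_ne_zero hb ha) (by rw [h3]; linarith)
    have h5 : 0 ≤ o (1 + b / a) := hnn _ h2 (A.add_mem _ _ A.one_mem h4)
    rw [h1, hmul a _ ha h2]
    linarith
  have hadd : ∀ a b : F, a ≠ 0 → b ≠ 0 → a + b ≠ 0 → min (o a) (o b) ≤ o (a + b) := by
    intro a b ha hb hab
    rcases le_total (o a) (o b) with h | h
    · rw [min_eq_left h]
      exact hle a b ha hb hab h
    · rw [min_eq_right h, add_comm]
      exact hle b a hb ha (by rwa [add_comm]) h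
  have hconst : ∀ r : k, r ≠ 0 → o (algebraMap k F r) = 0 := by
    intro r hr
    have h1 : algebraMap k F r ≠ 0 := fun h => hr ((map_eq_zero _).1 h)
    have h2 := hnn _ h1 (hA r)
    have h3 := hnn _ (inv_ne_zero h1) (by rw [← map_inv₀]; exact hA r⁻¹)
    have h4 := hmul _ _ h1 (inv_ne_zero h1)
    rw [mul_inv_cancel₀ h1] at h4
    have h5 := hu 1 0
    simp only [Units.val_one, OneMemClass.coe_one, zpow_zero, mul_one] at h5
    rw [h5] at h4
    linarith
  have hsurj : ∃ a : F, a ≠ 0 ∧ o a = 1 := by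
    refine ⟨π, hπ0, ?_⟩
    have h5 := hu 1 1
    simpa using h5
  refine ⟨⟨o, dif_pos rfl, hmul, hadd, hconst, hsurj⟩, ?_⟩
  ext a
  change (a = 0 ∨ 0 ≤ o a) ↔ a ∈ A
  constructor
  · rintro (rfl | h)
    · exact A.zero_mem
    · by_cases ha : a = 0
      · rw [ha]
        exact A.zero_mem
      · exact hmem a ha h
  · intro h
    by_cases ha : a = 0
    · exact Or.inl ha
    · exact Or.inr (hnn a ha h)

/-- The minimal order of a vector. -/
def minOrd {κ : Type*} [Fintype κ] (γ : κ → F) : ℤ :=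
  sInf {m : ℤ | ∃ i, γ i ≠ 0 ∧ m = v.ord (γ i)}

theorem minOrd_eq {κ : Type*} [Fintype κ] (γ : κ → F) {j : κ} (hj : γ j ≠ 0)
    (h : ∀ i, γ i / γ j ∈ v.valSubring) : v.minOrd γ = v.ord (γ j) := by
  refine IsLeast.csInf_eq ⟨⟨j, hj, rfl⟩, ?_⟩
  rintro m ⟨i, hi, rfl⟩
  rcases h i with h1 | h1
  · exact absurd h1 (div_ne_zero hi hj)
  · rw [v.ord_div hi hj] at h1
    linarith

theorem exists_minOrd {κ : Type*} [Fintype κ] (γ : κ → F) (h : ∃ i, γ i ≠ 0) :
    ∃ j, γ j ≠ 0 ∧ (∀ i, γ i / γ j ∈ v.valSubring) ∧ v.minOrd γ = v.ord (γ j) := by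
  classical
  obtain ⟨i0, hi0⟩ := h
  obtain ⟨j, hj, hj'⟩ := Finset.exists_min_image (Finset.univ.filter fun i => γ i ≠ 0)
    (fun i => v.ord (γ i)) ⟨i0, Finset.mem_filter.2 ⟨Finset.mem_univ _, hi0⟩⟩
  have hj0 : γ j ≠ 0 := (Finset.mem_filter.1 hj).2
  have h1 : ∀ i, γ i / γ j ∈ v.valSubring := by
    intro i
    by_cases hi : γ i = 0
    · exact Or.inl (by rw [hi, zero_div])
    · refine Or.inr ?_
      rw [v.ord_div hi hj0]
      exact sub_nonneg.2 (hj' i (Finset.mem_filter.2 ⟨Finset.mem_univ _, hi⟩))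
  exact ⟨j, hj0, h1, v.minOrd_eq γ hj0 h1⟩

theorem minOrd_smul {κ : Type*} [Fintype κ] (γ : κ → F) (h : ∃ i, γ i ≠ 0) {r : F} (hr : r ≠ 0) :
    v.minOrd (r • γ) = v.ord r + v.minOrd γ := by
  obtain ⟨j, hj, h1, h2⟩ := v.exists_minOrd γ h
  have hj' : (r • γ) j ≠ 0 := by
    rw [Pi.smul_apply, smul_eq_mul]
    exact mul_ne_zero hr hj
  rw [h2, v.minOrd_eq (r • γ) hj' fun i => ?_, Pi.smul_apply, smul_eq_mul, v.ord_mul r _ hr hj]
  rw [Pi.smul_apply, Pi.smul_apply, smul_eq_mul, smul_eq_mul, mul_div_mul_left _ _ hr]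
  exact h1 i

section Residue

open Polynomial

private theorem res_poly [IsAlgClosed k] {a : F}
    (h : ∀ r : k, a - algebraMap k F r ≠ 0 ∧ v.ord (a - algebraMap k F r) = 0) (n : ℕ) :
    ∀ p : k[X], p.natDegree ≤ n → p ≠ 0 → aeval a p ≠ 0 ∧ v.ord (aeval a p) = 0 := by
  induction n with
  | zero =>
    intro p hp hp0
    have h1 : p = C (p.coeff 0) := eq_C_of_natDegree_le_zero hp
    have h2 : p.coeff 0 ≠ 0 := fun h2 => hp0 (by rw [h1, h2, C_0])
    rw [h1, aeval_C]
    exact ⟨by simpa using h2, v.ord_const _ h2⟩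
  | succ n ih =>
    intro p hp hp0
    by_cases hd : p.degree = 0
    · have h1 : p.natDegree = 0 := natDegree_eq_zero_iff_degree_le_zero.2 hd.le
      exact ih p (by omega) hp0
    · obtain ⟨r, hr⟩ := IsAlgClosed.exists_root p hd
      obtain ⟨q, hq⟩ := dvd_iff_isRoot.2 hr
      have hq0 : q ≠ 0 := by
        rintro rfl
        exact hp0 (by rw [hq, mul_zero])
      have hdeg : p.natDegree = 1 + q.natDegree := by
        rw [hq, natDegree_mul (X_sub_C_ne_zero r) hq0, natDegree_X_sub_C]
      have h2 := ih q (by omega) hq0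
      have h3 := h r
      have h4 : aeval a p = (a - algebraMap k F r) * aeval a q := by
        rw [hq]
        simp
      rw [h4]
      exact ⟨mul_ne_zero h3.1 h2.1, by rw [v.ord_mul _ _ h3.1 h2.1, h3.2, h2.2, add_zero]⟩

private theorem res_trans (A : Subalgebra k F) (hA : ∀ c ∈ A, c ≠ 0 → v.ord c = 0) {x : F}
    (hx0 : x ≠ 0) (hx : v.ord x = 1) : Transcendental A x := by
  have hxs : v.Small x := Or.inr (by omega)
  have hxm : x ∈ v.valSubring := Or.inr (by omega)
  have hm : ∀ q : A[X], aeval x q ∈ v.valSubring := by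
    intro q
    rw [aeval_eq_sum_range]
    refine sum_mem fun i _ => ?_
    rw [Algebra.smul_def]
    refine mul_mem ?_ (pow_mem hxm i)
    by_cases h0 : algebraMap A F (q.coeff i) = 0
    · exact Or.inl h0
    · exact Or.inr (hA _ (q.coeff i).2 h0).ge
  have h1 : ∀ q : A[X], aeval x q = algebraMap A F (q.coeff 0) + x * aeval x q.divX := by
    intro q
    conv_lhs => rw [← divX_mul_X_add q]
    rw [map_add, map_mul, aeval_X, aeval_C]
    ring
  have hc : ∀ q : A[X], q.coeff 0 ≠ 0 → aeval x q ≠ 0 := by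
    intro q h0 h
    rw [h1 q] at h
    have h2 : algebraMap A F (q.coeff 0) ≠ 0 := fun h3 => h0 (Subtype.ext h3)
    have h3 : v.Small (algebraMap A F (q.coeff 0)) := by
      rw [eq_neg_of_add_eq_zero_left h]
      exact Small.neg v (Small.mul v hxs (hm _))
    rcases h3 with h3 | h3
    · exact h2 h3
    · have h4 : v.ord (algebraMap A F (q.coeff 0)) = 0 := hA _ (q.coeff 0).2 h2
      rw [h4] at h3
      exact lt_irrefl _ h3
  have key : ∀ (n : ℕ) (q : A[X]), q.natDegree ≤ n → q ≠ 0 → aeval x q ≠ 0 := by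
    intro n
    induction n with
    | zero =>
      intro q hq hq0
      refine hc q fun h2 => hq0 ?_
      rw [eq_C_of_natDegree_le_zero hq, h2, C_0]
    | succ n ih =>
      intro q hq hq0 h
      by_cases h2 : q.coeff 0 = 0
      · rw [h1 q, h2, map_zero, zero_add] at h
        refine ih q.divX ?_ ?_ ((mul_eq_zero.1 h).resolve_left hx0)
        · rw [natDegree_divX_eq_natDegree_tsub_one]
          omega
        · intro h3
          apply hq0
          rw [← divX_mul_X_add q, h3, h2]
          simp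
      · exact hc q h2 h
  rw [transcendental_iff]
  intro q hq
  by_contra hq0
  exact key _ q le_rfl hq0 hq

/-- The residue field of a place of a field `F` of transcendence degree `1` over an algebraically
closed field `k` is `k`.  Suppose `a` is in the valuation ring and `ord (a - r) = 0` (and
`a ≠ r`) for all `r ∈ k`.  Then `a` is not in `k`, so `a` is transcendental over `k` and `F` is
algebraic over `k(a)` (transcendence degree `1`).  All nonzero polynomials in `a` are products of
linear factors, so they have order `0`; every `x ≠ 0` in `F` satisfies a polynomial equation with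
coefficients in `k[a]`, not all zero, hence (two terms of minimal order; all nonzero coefficients
have order `0`, so the terms have orders `i * ord x`) `ord x = 0`, against `ord_surj`. -/
theorem exists_residue [IsAlgClosed k] (h1 : Algebra.trdeg k F = 1) {a : F}
    (ha : a ∈ v.valSubring) : ∃ r : k, v.Small (a - algebraMap k F r) := by
  by_contra hcon
  have h : ∀ r : k, a - algebraMap k F r ≠ 0 ∧ v.ord (a - algebraMap k F r) = 0 := by
    intro r
    have h2 : a - algebraMap k F r ∈ v.valSubring := sub_mem ha (v.algebraMap_mem r)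
    have h3 : ¬ v.Small (a - algebraMap k F r) := fun h3 => hcon ⟨r, h3⟩
    have h4 : a - algebraMap k F r ≠ 0 := fun h4 => h3 (Or.inl h4)
    have h5 : ¬ 0 < v.ord (a - algebraMap k F r) := fun h5 => h3 (Or.inr h5)
    rcases v.mem_valSubring.1 h2 with h6 | h6
    · exact absurd h6 h4
    · exact ⟨h4, by omega⟩
  have ht : Transcendental k a := by
    rw [transcendental_iff]
    intro p hp
    by_contra hp0
    exact (res_poly v h p.natDegree p le_rfl hp0).1 hp
  have hi : AlgebraicIndependent k (fun _ : PUnit.{u + 1} => a) :=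
    algebraicIndependent_unique_type_iff.2 ht
  obtain ⟨x, hx0, hx⟩ := v.ord_surj
  have hA : ∀ c ∈ Algebra.adjoin k (Set.range (fun _ : PUnit.{u + 1} => a)), c ≠ 0 →
      v.ord c = 0 := by
    intro c hc hc0
    rw [Set.range_const, Algebra.adjoin_singleton_eq_range_aeval] at hc
    obtain ⟨p, rfl⟩ := hc
    have hp0 : p ≠ 0 := by
      rintro rfl
      exact hc0 (map_zero _)
    exact (res_poly v h p.natDegree p le_rfl hp0).2
  have hind := (hi.option_iff_transcendental x).2 (res_trans v _ hA hx0 hx)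
  have hcard := hind.cardinalMk_le_trdeg
  rw [h1, Cardinal.mk_option, Cardinal.mk_punit] at hcard
  have h2 : ((1 : Cardinal.{u}) + 1) = ((2 : ℕ) : Cardinal.{u}) := by norm_num
  have h3 : (1 : Cardinal.{u}) = ((1 : ℕ) : Cardinal.{u}) := by norm_num
  rw [h2, h3] at hcard
  have h4 := Nat.cast_le.1 hcard
  omega

end Residue

end Place

end ProjVar

end Pool.Agent.MP9a7843
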