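import Pool.Agent.Lib.MP_9a7843_ag.Hom
import Pool.Agent.Lib.MP_9a7843_ag.Place

/-!
# Centres of places on curves
-/

noncomputable section

open MvPolynomial

namespace Pool.Agent.MP9a7843

namespace ProjVar

universe u

variable {k : Type u} [Field k] {Y X : ProjVar k} {F : Type u} [Field F] [Algebra k F]
  {c : Y.ι → F}

/-! ### Auxiliary facts on congruences modulo the maximal ideal of a place -/

private theorem small_mem {v : Place k F} {a : F} (h : v.Small a) : a ∈ v.valSubring :=
  ((v.small_iff).1 h).1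

private theorem mem_of_small {v : Place k F} {a : F} {r : k}
    (h : v.Small (a - algebraMap k F r)) : a ∈ v.valSubring := by
  have h1 := add_mem (small_mem h) (v.algebraMap_mem r)
  rwa [sub_add_cancel] at h1

private theorem small_mul {v : Place k F} {a b : F} {r s : k}
    (ha : v.Small (a - algebraMap k F r)) (hb : v.Small (b - algebraMap k F s)) :
    v.Small (a * b - algebraMap k F (r * s)) := by
  have e : a * b - algebraMap k F (r * s)
      = (a - algebraMap k F r) * b + (b - algebraMap k F s) * algebraMap k F r := by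
    rw [map_mul]
    ring
  rw [e]
  exact (ha.mul v (mem_of_small hb)).add v (hb.mul v (v.algebraMap_mem r))

private theorem small_uniq {v : Place k F} {a : F} {r s : k}
    (h : v.Small (a - algebraMap k F r)) (h' : v.Small (a - algebraMap k F s)) : r = s := by
  have h1 := h.sub v h'
  have e : a - algebraMap k F r - (a - algebraMap k F s) = algebraMap k F (s - r) := by
    rw [map_sub]
    ring
  rw [e, v.small_algebraMap, sub_eq_zero] at h1
  exact h1.symm

private theorem small_unit {v : Place k F} {a : F} {r : k}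
    (h : v.Small (a - algebraMap k F r)) (hr : r ≠ 0) : a ≠ 0 ∧ v.ord a = 0 := by
  have hr' : algebraMap k F r ≠ 0 := fun h0 => hr ((map_eq_zero _).1 h0)
  rcases h with h | h
  · rw [sub_eq_zero] at h
    rw [h]
    exact ⟨hr', v.ord_const r hr⟩
  · by_cases hb : a - algebraMap k F r = 0
    · rw [hb, v.ord_zero] at h
      exact absurd h (lt_irrefl _)
    · have h1 := v.ord_add_eq hr' hb (by rw [v.ord_const r hr]; exact h)
      rw [add_sub_cancel, v.ord_const r hr] at h1
      exact h1

private theorem small_poly {v : Place k F} {σ : Type} {x : σ → F} {w : σ → k}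
    (h : ∀ i, v.Small (x i - algebraMap k F (w i))) (P : MvPolynomial σ k) :
    v.Small (aeval x P - algebraMap k F (aeval w P)) := by
  induction P using MvPolynomial.induction_on with
  | C r =>
    rw [aeval_C, aeval_C, Algebra.algebraMap_self_apply, sub_self]
    exact Or.inl rfl
  | add P R hP hR =>
    have e : aeval x (P + R) - algebraMap k F (aeval w (P + R))
        = (aeval x P - algebraMap k F (aeval w P)) + (aeval x R - algebraMap k F (aeval w R)) := by
      rw [map_add, map_add, map_add]
      ring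
    rw [e]
    exact hP.add v hR
  | mul_X P i hP =>
    rw [map_mul, map_mul, aeval_X, aeval_X]
    exact small_mul hP (h i)

private theorem cen_aeval_div {F₁ : Type u} [Field F₁] [Algebra k F₁] {c : Y.ι → F₁} {j : Y.ι}
    {d : ℕ} {H : MvPolynomial Y.ι k} (hH : H.IsHomogeneous d) :
    aeval (fun i => c i / c j) H = aeval c H / c j ^ d := by
  have h := aeval_smul (Y := Y) (c := c) hH (c j)⁻¹
  have e : (fun i => c i / c j) = (c j)⁻¹ • c := by
    funext i
    rw [Pi.smul_apply, smul_eq_mul, div_eq_inv_mul]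
  rw [e, h, inv_pow, div_eq_inv_mul]

private theorem or_small {v : Place k F} {a b : F} (h : a = b ∨ 0 < v.ord (a - b)) :
    v.Small (a - b) := by
  rcases h with h | h
  · exact Or.inl (sub_eq_zero.2 h)
  · exact Or.inr h

private theorem small_or {v : Place k F} {a b : F} (h : v.Small (a - b)) :
    a = b ∨ 0 < v.ord (a - b) := by
  rcases h with h | h
  · exact Or.inl (sub_eq_zero.1 h)
  · exact Or.inr h

private theorem IsCentre.form {v : Place k F} {y : Y.ι → k} {j : Y.ι}
    (h : ∀ i, v.Small (c i / c j - algebraMap k F (y i / y j))) {d : ℕ}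
    {H : MvPolynomial Y.ι k} (hH : H.IsHomogeneous d) :
    v.Small (aeval c H / c j ^ d - algebraMap k F (aeval y H / y j ^ d)) := by
  have h1 := small_poly (x := fun i => c i / c j) (w := fun i => y i / y j) h H
  rw [cen_aeval_div hH, cen_aeval_div hH] at h1
  exact h1

/-! ### Centres -/

theorem IsCentre.isPt {v : Place k F} {y : Y.ι → k} (h : Y.IsCentre c v y) : Y.IsPt y := h.1

/-- Let `j` be the index of the definition.  For a form `H` of degree `d`, `H(c)/c_j^d` is a
polynomial in the `c_i/c_j`, so it is congruent to `H(y)/y_j^d` modulo the maximal ideal.  In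
particular `H(c) = 0` implies `H(y) = 0`. -/
theorem IsCentre.spec {v : Place k F} {y : Y.ι → k} (h : Y.IsCentre c v y) : Spec c y := by
  obtain ⟨hy, j, hcj, hyj, h⟩ := h
  intro d H hH h0
  have h1 := IsCentre.form (Y := Y) (fun i => or_small (h i)) hH
  rw [h0, zero_div, zero_sub] at h1
  have h2 := h1.neg v
  rw [neg_neg, v.small_algebraMap] at h2
  rcases div_eq_zero_iff.1 h2 with h3 | h3
  · exact h3
  · exact absurd h3 (pow_ne_zero d hyj)

/-- Values of functions regular at the centre: congruent modulo the maximal ideal of the place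
(write `a = G/H`, divide by `c_j^d` resp. `y_j^d`, `j` the index of the definition). -/
theorem IsCentre.small (hc : Y.IsPt c) {v : Place k F} {y : Y.ι → k} (h : Y.IsCentre c v y)
    {a : Y.K} (ha : a ∈ Y.loc y) : v.Small (Y.ev c a - algebraMap k F (Y.ev y a)) := by
  have hs := h.spec
  obtain ⟨hy, j, hcj, hyj, h⟩ := h
  obtain ⟨d, G, H, hG, hH, h0, ha1, h2⟩ := hasValue_ev hy ha
  have h0c : aeval c H ≠ 0 := fun h1 => h0 (hs d H hH h1)
  have e1 : Y.ev c a = aeval c G / aeval c H := by
    rw [ha1]
    exact ev_form_div hc hG hH h0c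
  have hg := IsCentre.form (Y := Y) (fun i => or_small (h i)) hG
  have hh := IsCentre.form (Y := Y) (fun i => or_small (h i)) hH
  have hcd : c j ^ d ≠ 0 := pow_ne_zero d hcj
  have hyd : y j ^ d ≠ 0 := pow_ne_zero d hyj
  have hu := small_unit hh (div_ne_zero h0 hyd)
  have hu0 : (aeval y H / y j ^ d : k) ≠ 0 := div_ne_zero h0 hyd
  -- the inverse of `H(c) / c_j ^ d` is congruent to the inverse of `H(y) / y_j ^ d`
  have hinv : v.Small ((aeval c H / c j ^ d)⁻¹ - algebraMap k F (aeval y H / y j ^ d)⁻¹) := by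
    have hA : algebraMap k F (aeval y H / y j ^ d) ≠ 0 := fun h0 => hu0 ((map_eq_zero _).1 h0)
    have e2 : (aeval c H / c j ^ d)⁻¹ - algebraMap k F (aeval y H / y j ^ d)⁻¹
        = -(aeval c H / c j ^ d - algebraMap k F (aeval y H / y j ^ d)) *
          ((aeval c H / c j ^ d)⁻¹ * algebraMap k F (aeval y H / y j ^ d)⁻¹) := by
      rw [map_inv₀]
      generalize algebraMap k F (aeval y H / y j ^ d) = A at hA ⊢
      have hB := hu.1
      generalize aeval c H / c j ^ d = B at hB ⊢
      field_simp
      ring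
    rw [e2]
    refine (hh.neg v).mul v (mul_mem ?_ (v.algebraMap_mem _))
    refine Or.inr ?_
    rw [v.ord_inv, hu.2, neg_zero]
  have h3 := small_mul hg hinv
  have e3 : aeval c G / c j ^ d * (aeval c H / c j ^ d)⁻¹ = Y.ev c a := by
    rw [e1]
    field_simp
  have e4 : aeval y G / y j ^ d * (aeval y H / y j ^ d)⁻¹ = Y.ev y a := by
    rw [h2]
    field_simp
  rw [e3, e4] at h3
  exact h3

theorem IsCentre.ev_mem (hc : Y.IsPt c) {v : Place k F} {y : Y.ι → k}
    (h : Y.IsCentre c v y) {a : Y.K} (ha : a ∈ Y.loc y) : Y.ev c a ∈ v.valSubring :=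
  mem_of_small (h.small hc ha)

/-- Units at the centre have order `0`. -/
theorem IsCentre.ord_unit (hc : Y.IsPt c) {v : Place k F} {y : Y.ι → k} (h : Y.IsCentre c v y)
    {a : Y.K} (ha : Y.UnitAt y a) : v.ord (Y.ev c a) = 0 := by
  by_cases h0 : a = 0
  · rw [h0, ev_zero hc, v.ord_zero]
  · exact (small_unit (h.small hc ha.1) (ev_ne_zero h.1 h0 ha.1 ha.2)).2

theorem IsCentre.smul {v : Place k F} {y : Y.ι → k} (h : Y.IsCentre c v y) {r : k} (hr : r ≠ 0) :
    Y.IsCentre c v (r • y) := by
  obtain ⟨hy, j, hcj, hyj, h⟩ := h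
  refine ⟨hy.smul hr, j, hcj, ?_, ?_⟩
  · rw [Pi.smul_apply, smul_eq_mul]
    exact mul_ne_zero hr hyj
  · intro i
    rw [Pi.smul_apply, Pi.smul_apply, smul_eq_mul, smul_eq_mul, mul_div_mul_left _ _ hr]
    exact h i

theorem isCentre_smul_iff {v : Place k F} {y : Y.ι → k} {r : F} (hr : r ≠ 0) :
    Y.IsCentre (r • c) v y ↔ Y.IsCentre c v y := by
  have e : ∀ i j, (r • c) i / (r • c) j = c i / c j := by
    intro i j
    rw [Pi.smul_apply, Pi.smul_apply, smul_eq_mul, smul_eq_mul, mul_div_mul_left _ _ hr]
  constructor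
  · rintro ⟨hy, j, hcj, hyj, h⟩
    refine ⟨hy, j, ?_, hyj, ?_⟩
    · intro h0
      apply hcj
      rw [Pi.smul_apply, h0, smul_zero]
    · intro i
      have h1 := h i
      rw [e] at h1
      exact h1
  · rintro ⟨hy, j, hcj, hyj, h⟩
    refine ⟨hy, j, ?_, hyj, ?_⟩
    · rw [Pi.smul_apply, smul_eq_mul]
      exact mul_ne_zero hr hcj
    · intro i
      rw [e]
      exact h i

/-- The centre is unique up to a factor. -/
theorem IsCentre.unique {v : Place k F} {y y' : Y.ι → k} (h : Y.IsCentre c v y)
    (h' : Y.IsCentre c v y') : ∃ r : k, r ≠ 0 ∧ y' = r • y := by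
  obtain ⟨hy, j, hcj, hyj, h⟩ := h
  obtain ⟨hy', j', hcj', hyj', h'⟩ := h'
  have h1 := small_mul (or_small (h j')) (or_small (h' j))
  have e1 : c j' / c j * (c j / c j') = 1 := by
    field_simp
  rw [e1] at h1
  have h2 : v.Small ((1 : F) - algebraMap k F 1) := by
    rw [map_one, sub_self]
    exact Or.inl rfl
  have h3 : y j' / y j * (y' j / y' j') = 1 := small_uniq h1 h2
  have hyjj : y j' ≠ 0 := by
    intro h0
    rw [h0, zero_div, zero_mul] at h3
    exact zero_ne_one h3
  refine ⟨y' j' / y j', div_ne_zero hyj' hyjj, ?_⟩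
  funext i
  have h4 := small_mul (or_small (h' i)) (or_small (h j'))
  have e2 : c i / c j' * (c j' / c j) = c i / c j := by
    field_simp
  rw [e2] at h4
  have h5 : y' i / y' j' * (y j' / y j) = y i / y j := small_uniq h4 (or_small (h i))
  rw [Pi.smul_apply, smul_eq_mul]
  field_simp at h5 ⊢
  linear_combination h5

/-- Existence: choose `j` with `c_i/c_j` in the valuation ring for all `i` (`exists_index`), take
the residues `y_i ∈ k` of `c_i/c_j` (`exists_residue`). -/
theorem exists_isCentre [IsAlgClosed k] (hF : IsCurveField k F) (hc : Y.IsPt c) (v : Place k F) :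
    ∃ y, Y.IsCentre c v y := by
  obtain ⟨j, hj, hjA⟩ := exists_index hc v.valSubring
  have hr : ∀ i, ∃ r : k, v.Small (c i / c j - algebraMap k F r) := fun i =>
    v.exists_residue hF.trdeg (hjA i)
  choose y hy using hr
  have hyj : y j = 1 := by
    refine small_uniq (hy j) ?_
    rw [div_self hj, map_one, sub_self]
    exact Or.inl rfl
  refine ⟨y, ⟨⟨j, ?_⟩, ?_⟩, j, hj, ?_, ?_⟩
  · rw [hyj]
    exact one_ne_zero
  · intro d G hG h0
    have h1 := small_poly (x := fun i => c i / c j) (w := y) hy G
    rw [cen_aeval_div hG, hc.2 d G hG h0, zero_div, zero_sub] at h1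
    have h2 := h1.neg v
    rw [neg_neg, v.small_algebraMap] at h2
    exact h2
  · rw [hyj]
    exact one_ne_zero
  · intro i
    rw [hyj, div_one]
    exact small_or (hy i)

theorem isCentre_centre [IsAlgClosed k] (hF : IsCurveField k F) (hc : Y.IsPt c)
    (v : Place k F) : Y.IsCentre c v (Y.centre c v) :=
  Classical.epsilon_spec (exists_isCentre hF hc v)

/-- The image of a centre under a morphism is the centre of the image. -/
theorem IsCentre.app [IsAlgClosed k] (hc : Y.IsPt c) {v : Place k F} {y : Y.ι → k}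
    (h : Y.IsCentre c v y) (f : Hom Y X) : X.IsCentre (f.app c) v (f.app y) := by
  have hy : Y.IsPt y := h.1
  obtain ⟨j, hj, hjl⟩ := f.exists_index' hy
  have hjc : ∀ i, f.coord i / f.coord j ∈ Y.loc c := fun i => h.spec.loc_le (hjl i)
  obtain ⟨r, hr, er⟩ := f.app_eq hc hj hjc
  obtain ⟨r', hr', er'⟩ := f.app_eq hy hj hjl
  have hpt : X.IsPt (fun i => Y.ev y (f.coord i / f.coord j)) := by
    have h1 := (f.isPt_app hy).smul (inv_ne_zero hr')
    rw [er', smul_smul, inv_mul_cancel₀ hr', one_smul] at h1
    exact h1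
  rw [er, er', isCentre_smul_iff hr]
  refine IsCentre.smul ⟨hpt, j, ?_, ?_, ?_⟩ hr'
  · rw [div_self hj, ev_one hc]
    exact one_ne_zero
  · rw [div_self hj, ev_one hy]
    exact one_ne_zero
  · intro i
    rw [div_self hj, ev_one hc, ev_one hy, div_one, div_one]
    exact small_or (h.small hc (hjl i))

end ProjVar

end Pool.Agent.MP9a7843
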