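import Pool.Agent.Lib.MP_9a7843_ag.Deg2

/-!
# One-cycles, nef classes of curves, effective, pseudo-effective and big classes
-/

noncomputable section

open MvPolynomial

namespace Pool.Agent.MP9a7843

namespace ProjVar

universe u

variable {k : Type u} [Field k] {Y X : ProjVar k}

theorem Curve.isCurveField (C : Y.Curve) : IsCurveField k C.F := ⟨C.fg, C.trdeg⟩

/-! ### Classes of cycles -/

theorem Cycle.cls_apply (γ : Y.Cycle) (D : Y.CaDiv) :
    γ.cls D = γ.sum fun C r => r * (Y.deg C.c D : ℝ) := rfl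

theorem Cycle.cls_addCycle (γ γ' : Y.Cycle) : (γ + γ').cls = γ.cls + γ'.cls := by
  funext D
  rw [Pi.add_apply, Cycle.cls_apply, Cycle.cls_apply, Cycle.cls_apply]
  exact Finsupp.sum_add_index' (fun C => zero_mul _) (fun C r s => add_mul _ _ _)

theorem Cycle.cls_smul (r : ℝ) (γ : Y.Cycle) : (r • γ).cls = r • γ.cls := by
  funext D
  rw [Pi.smul_apply, Cycle.cls_apply, Cycle.cls_apply,
    Finsupp.sum_smul_index' (fun C => zero_mul _), smul_eq_mul, Finsupp.mul_sum]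
  exact Finsupp.sum_congr fun C _ => by rw [smul_eq_mul, mul_assoc]

theorem add_mem_N1 {α β : Y.CaDiv → ℝ} (hα : α ∈ Y.N1) (hβ : β ∈ Y.N1) : α + β ∈ Y.N1 := by
  obtain ⟨γ, rfl⟩ := hα
  obtain ⟨γ', rfl⟩ := hβ
  exact ⟨γ + γ', (Cycle.cls_addCycle γ γ').symm⟩

theorem smul_mem_N1 {α : Y.CaDiv → ℝ} (hα : α ∈ Y.N1) (r : ℝ) : r • α ∈ Y.N1 := by
  obtain ⟨γ, rfl⟩ := hα
  exact ⟨r • γ, (Cycle.cls_smul r γ).symm⟩

theorem sub_mem_N1 {α β : Y.CaDiv → ℝ} (hα : α ∈ Y.N1) (hβ : β ∈ Y.N1) : α - β ∈ Y.N1 := by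
  have h := add_mem_N1 hα (smul_mem_N1 hβ (-1))
  rwa [neg_one_smul, ← sub_eq_add_neg] at h

/-- The class of a curve. -/
theorem curve_mem_N1 (C : Y.Curve) : (fun D => (Y.deg C.c D : ℝ)) ∈ Y.N1 := by
  refine ⟨Finsupp.single C 1, ?_⟩
  funext D
  rw [Cycle.cls_apply, Finsupp.sum_single_index (zero_mul _), one_mul]

theorem curve_mem_N1Int (C : Y.Curve) : (fun D => (Y.deg C.c D : ℝ)) ∈ Y.N1Int := by
  refine ⟨Finsupp.single C 1, ?_⟩
  funext D
  rw [Finsupp.sum_single_index (by rw [Int.cast_zero, zero_mul]), Int.cast_one, one_mul]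

theorem add_mem_N1Int {α β : Y.CaDiv → ℝ} (hα : α ∈ Y.N1Int) (hβ : β ∈ Y.N1Int) :
    α + β ∈ Y.N1Int := by
  obtain ⟨γ, rfl⟩ := hα
  obtain ⟨γ', rfl⟩ := hβ
  refine ⟨γ + γ', ?_⟩
  funext D
  rw [Pi.add_apply]
  exact (Finsupp.sum_add_index' (fun C => by rw [Int.cast_zero, zero_mul])
    (fun C r s => by rw [Int.cast_add, add_mul])).symm

theorem nsmul_mem_N1Int {α : Y.CaDiv → ℝ} (hα : α ∈ Y.N1Int) (m : ℕ) : m • α ∈ Y.N1Int := by
  induction m with
  | zero =>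
    rw [zero_nsmul]
    refine ⟨0, ?_⟩
    funext D
    rw [Finsupp.sum_zero_index]
    rfl
  | succ m ih =>
    rw [succ_nsmul]
    exact add_mem_N1Int ih hα

/-- Integral classes are real classes. -/
theorem N1Int_subset : Y.N1Int ⊆ Y.N1 := by
  rintro α ⟨γ, rfl⟩
  refine ⟨Finsupp.mapRange (fun m : ℤ => (m : ℝ)) Int.cast_zero γ, ?_⟩
  funext D
  rw [Cycle.cls_apply, Finsupp.sum_mapRange_index (fun C => zero_mul _)]

/-- Integral classes take integral values. -/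
theorem N1Int_int {α : Y.CaDiv → ℝ} (hα : α ∈ Y.N1Int) (D : Y.CaDiv) : ∃ m : ℤ, α D = m := by
  obtain ⟨γ, rfl⟩ := hα
  refine ⟨γ.sum fun C m => m * Y.deg C.c D, ?_⟩
  simp only [Finsupp.sum]
  push_cast
  rfl

section Additive

variable [IsAlgClosed k] [CharZero k] {α : Y.CaDiv → ℝ} (hα : α ∈ Y.N1)

include hα

theorem N1_add (D E : Y.CaDiv) : α (D.add E) = α D + α E := by
  obtain ⟨γ, rfl⟩ := hα
  rw [Cycle.cls_apply, Cycle.cls_apply, Cycle.cls_apply, ← Finsupp.sum_add]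
  exact Finsupp.sum_congr fun C _ => by
    rw [deg_add C.isCurveField C.isPt, Int.cast_add, mul_add]

theorem N1_neg (D : Y.CaDiv) : α D.neg = -α D := by
  obtain ⟨γ, rfl⟩ := hα
  rw [Cycle.cls_apply, Cycle.cls_apply]
  simp only [Finsupp.sum]
  rw [← Finset.sum_neg_distrib]
  exact Finset.sum_congr rfl fun C _ => by
    rw [deg_neg C.isCurveField C.isPt, Int.cast_neg, mul_neg]

theorem N1_zsmul (n : ℤ) (D : Y.CaDiv) : α (D.zsmul n) = n * α D := by
  obtain ⟨γ, rfl⟩ := hα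
  rw [Cycle.cls_apply, Cycle.cls_apply]
  simp only [Finsupp.sum]
  rw [Finset.mul_sum]
  exact Finset.sum_congr rfl fun C _ => by
    rw [deg_zsmul C.isCurveField C.isPt, Int.cast_mul]
    ring

theorem N1_prin {φ : Y.K} (hφ : φ ≠ 0) : α (CaDiv.prin φ hφ) = 0 := by
  obtain ⟨γ, rfl⟩ := hα
  rw [Cycle.cls_apply]
  simp only [Finsupp.sum]
  exact Finset.sum_eq_zero fun C _ => by
    rw [deg_prin C.isCurveField C.isPt, Int.cast_zero, mul_zero]

theorem N1_linEquiv {D E : Y.CaDiv} {φ : Y.K} (hφ : φ ≠ 0)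
    (h : ∀ y : Y.ι → k, Y.IsPt y → Y.UnitAt y (D.eq y / (E.eq y * φ))) : α D = α E := by
  obtain ⟨γ, rfl⟩ := hα
  rw [Cycle.cls_apply, Cycle.cls_apply]
  exact Finsupp.sum_congr fun C _ => by
    rw [deg_linEquiv C.isCurveField C.isPt hφ h]

end Additive

theorem Nef1_subset : Y.Nef1 ⊆ Y.N1 := fun _ h => h.1

theorem add_mem_Nef1 {α β : Y.CaDiv → ℝ} (hα : α ∈ Y.Nef1) (hβ : β ∈ Y.Nef1) :
    α + β ∈ Y.Nef1 := by
  exact ⟨add_mem_N1 hα.1 hβ.1, fun E hE => add_nonneg (hα.2 E hE) (hβ.2 E hE)⟩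

theorem smul_mem_Nef1 {α : Y.CaDiv → ℝ} (hα : α ∈ Y.Nef1) {r : ℝ} (hr : 0 ≤ r) :
    r • α ∈ Y.Nef1 := by
  exact ⟨smul_mem_N1 hα.1 r, fun E hE => mul_nonneg hr (hα.2 E hE)⟩

/-- Sandwich: `-m R ≤ D ≤ m R` and `α(R) = 0` imply `α(D) = 0`. -/
theorem Nef1_sandwich [IsAlgClosed k] [CharZero k] {α : Y.CaDiv → ℝ} (hα : α ∈ Y.Nef1)
    {R D : Y.CaDiv} (m : ℕ) (h1 : ∀ y : Y.ι → k, Y.IsPt y → R.eq y ^ m * D.eq y ∈ Y.loc y)
    (h2 : ∀ y : Y.ι → k, Y.IsPt y → R.eq y ^ m * (D.eq y)⁻¹ ∈ Y.loc y) (h : α R = 0) :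
    α D = 0 := by
  have e1 : 0 ≤ α ((R.zsmul (m : ℤ)).add D) := by
    refine hα.2 _ fun y hy => ?_
    change R.eq y ^ (m : ℤ) * D.eq y ∈ Y.loc y
    rw [zpow_natCast]
    exact h1 y hy
  have e2 : 0 ≤ α ((R.zsmul (m : ℤ)).add D.neg) := by
    refine hα.2 _ fun y hy => ?_
    change R.eq y ^ (m : ℤ) * (D.eq y)⁻¹ ∈ Y.loc y
    rw [zpow_natCast]
    exact h2 y hy
  rw [N1_add hα.1, N1_zsmul hα.1, h, mul_zero, zero_add] at e1 e2
  rw [N1_neg hα.1] at e2
  linarith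

/-- A curve class which is represented, for every nonempty open subset of `Y`, by a curve
meeting it, is nef: given an effective `E`, choose a closed point `y₀` of `Y` with
`E.eq y₀ = G/H`; a curve `c` with `G(c) ≠ 0`, `H(c) ≠ 0` is not contained in `E`.  (For `E` near
a closed point `y` in the closure of `c`: `E.eq y / E.eq y₀` is a unit at `c`, see
`CaDiv.ratio_mem_loc`; for this choose `H` also in the neighbourhood of `y₀` where `E.eq y₀` is a
local equation.) -/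
theorem mem_Nef1_of_moving [IsAlgClosed k] [CharZero k] {α : Y.CaDiv → ℝ}
    (h : ∀ (d : ℕ) (P : MvPolynomial Y.ι k), P.IsHomogeneous d → aeval Y.z P ≠ 0 →
      ∃ C : Y.Curve, aeval C.c P ≠ 0 ∧ α = fun D => (Y.deg C.c D : ℝ)) :
    α ∈ Y.Nef1 := by
  have hN : α ∈ Y.N1 := by
    obtain ⟨C, -, hC⟩ := h 0 1 (isHomogeneous_one _ _) (by rw [map_one]; exact one_ne_zero)
    rw [hC]
    exact curve_mem_N1 C
  refine ⟨hN, fun E hE => ?_⟩
  obtain ⟨y₁, hy₁, -, -⟩ := exists_spec (Y := Y) (c := Y.z) isPt_z (τ := Empty) ∅ (fun _ => 0)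
    (fun _ => 0) (fun t _ => t.elim) (fun t _ => t.elim)
  obtain ⟨d, H, hH, hH1, hn⟩ := E.exists_nhd hy₁
  obtain ⟨-, d', G', H', hG', hH', h0', ha, -⟩ := (mem_loc_iff hy₁).1 (hE y₁ hy₁)
  have hHz : aeval Y.z H ≠ 0 := aeval_z_ne_zero hy₁ hH hH1
  have hHz' : aeval Y.z H' ≠ 0 := aeval_z_ne_zero hy₁ hH' h0'
  have hE1 := E.eq_ne_zero y₁ hy₁
  have hGz : aeval Y.z G' ≠ 0 := by
    intro h1
    rw [ha, h1, zero_div] at hE1
    exact hE1 rfl
  obtain ⟨C, hC, hα⟩ := h (d + d' + d') (H * H' * G') ((hH.mul hH').mul hG') (by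
    rw [map_mul, map_mul]
    exact mul_ne_zero (mul_ne_zero hHz hHz') hGz)
  rw [map_mul, map_mul] at hC
  have hCH : aeval C.c H ≠ 0 := left_ne_zero_of_mul (left_ne_zero_of_mul hC)
  have hCH' : aeval C.c H' ≠ 0 := right_ne_zero_of_mul (left_ne_zero_of_mul hC)
  have hCG : aeval C.c G' ≠ 0 := right_ne_zero_of_mul hC
  obtain ⟨y₀, hy₀, hs, hH0⟩ := exists_spec (Y := Y) (c := C.c) C.isPt (τ := Unit) {()}
    (fun _ => d) (fun _ => H) (fun _ _ => hH) (fun _ _ => hCH)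
  have hu := (hn y₀ hy₀ (hH0 () (Finset.mem_singleton_self _))).of_spec hs
  have hE0 := E.eq_ne_zero y₀ hy₀
  have h5 : Y.ev C.c (E.eq y₀ / E.eq y₁) ≠ 0 :=
    ev_ne_zero C.isPt (div_ne_zero hE0 hE1) hu.1 hu.2
  have h6 : Y.ev C.c (E.eq y₁) ≠ 0 := by
    rw [ha, ev_form_div C.isPt hG' hH' hCH']
    exact div_ne_zero hCG hCH'
  have h7 : E.eq y₁ ∈ Y.loc C.c := by
    rw [ha]
    exact form_div_mem hG' hH' hCH'
  have h8 : Y.ev C.c (E.eq y₀) ≠ 0 := by
    have h9 := ev_mul C.isPt hu.1 h7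
    rw [div_mul_cancel₀ _ hE1] at h9
    rw [h9]
    exact mul_ne_zero h5 h6
  rw [hα]
  have h10 := deg_nonneg C.isCurveField C.isPt hE hy₀ hs h8
  change (0 : ℝ) ≤ (Y.deg C.c E : ℝ)
  exact_mod_cast h10

/-! ### Push-forward -/

/-- The image of a curve under a morphism. -/
def Curve.push [IsAlgClosed k] (f : Hom Y X) (C : Y.Curve) : X.Curve where
  F := C.F
  fg := C.fg
  trdeg := C.trdeg
  c := f.app C.c
  isPt := f.isPt_app C.isPt

theorem pushCls_eq [IsAlgClosed k] [CharZero k] {f : Hom Y X} (hf : f.Dominant) (γ : Y.Cycle)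
    (D : X.CaDiv) : f.pushCls γ D = γ.cls (hf.pull D) := by
  rw [Cycle.cls_apply]
  exact Finsupp.sum_congr fun C _ => by rw [deg_pull C.isCurveField C.isPt hf]

theorem pullCls_eq [IsAlgClosed k] [CharZero k] {f : Hom Y X} (hf : f.Dominant)
    (D : X.CaDiv) : f.pullCls D = (hf.pull D).cls := by
  funext C
  change (X.deg (f.app C.c) D : ℝ) = (Y.deg C.c (hf.pull D) : ℝ)
  rw [deg_pull C.isCurveField C.isPt hf]

theorem pushCls_mem_N1 [IsAlgClosed k] (f : Hom Y X) (γ : Y.Cycle) : f.pushCls γ ∈ X.N1 := by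
  refine ⟨Finsupp.mapDomain (Curve.push f) γ, ?_⟩
  funext D
  rw [Cycle.cls_apply, Finsupp.sum_mapDomain_index (fun C => zero_mul _)
    (fun C r s => add_mul _ _ _)]
  rfl

/-- The value of the class of a divisor on a cycle. -/
theorem cls_cls (γ : Y.Cycle) (D : Y.CaDiv) : (γ.sum fun C r => r * D.cls C) = γ.cls D := rfl

/-! ### Effective, pseudo-effective, big -/

theorem EffClass.add {δ δ' : Y.Curve → ℝ} (h : Y.EffClass δ) (h' : Y.EffClass δ') :
    Y.EffClass (δ + δ') := by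
  classical
  obtain ⟨E, h1, h2, h3⟩ := h
  obtain ⟨E', h1', h2', h3'⟩ := h'
  refine ⟨E + E', fun D => add_nonneg (h1 D) (h1' D), fun D hD => ?_, fun C => ?_⟩
  · rcases Finset.mem_union.1 (Finsupp.support_add hD) with hD | hD
    · exact h2 D hD
    · exact h2' D hD
  · rw [Pi.add_apply, h3 C, h3' C]
    exact (Finsupp.sum_add_index' (fun C => zero_mul _) (fun C r s => add_mul _ _ _)).symm

theorem EffClass.smul {δ : Y.Curve → ℝ} (h : Y.EffClass δ) {r : ℝ} (hr : 0 ≤ r) :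
    Y.EffClass (r • δ) := by
  obtain ⟨E, h1, h2, h3⟩ := h
  refine ⟨r • E, fun D => mul_nonneg hr (h1 D), fun D hD => h2 D (Finsupp.support_smul hD),
    fun C => ?_⟩
  rw [Pi.smul_apply, h3 C, Finsupp.sum_smul_index' (fun C => zero_mul _), smul_eq_mul,
    Finsupp.mul_sum]
  exact Finsupp.sum_congr fun C _ => by rw [smul_eq_mul, mul_assoc]

theorem effClass_zero : Y.EffClass 0 := by
  exact ⟨0, fun D => le_rfl, fun D hD => absurd hD (by simp), fun C => by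
    rw [Finsupp.sum_zero_index]
    rfl⟩

theorem effClass_cls {E : Y.CaDiv} (hE : E.Effective) : Y.EffClass E.cls := by
  classical
  refine ⟨Finsupp.single E 1, fun D => ?_, fun D hD => ?_, fun C => ?_⟩
  · rw [Finsupp.single_apply]
    split_ifs
    · exact zero_le_one
    · exact le_rfl
  · have h1 := Finsupp.support_single_subset hD
    rw [Finset.mem_singleton] at h1
    rw [h1]
    exact hE
  · rw [Finsupp.sum_single_index (zero_mul _), one_mul]
    rfl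

/-- The hyperplane section is effective: `z_i / z_j ∈ loc y` for `y_j ≠ 0`. -/
theorem effective_hyperplane : Y.hyperplane.Effective := by
  intro y hy
  exact coord_div_mem _ (Classical.epsilon_spec hy.1)

theorem EffClass.pseudoEff {δ : Y.Curve → ℝ} (h : Y.EffClass δ) : Y.PseudoEff δ := by
  intro ε hε
  exact h.add ((effClass_cls effective_hyperplane).smul hε.le)

/-- `a(Y, D) ≤ 1` if `D` is big and `D + K` is pseudo-effective. -/
theorem aInv_le_one {κ δ : Y.Curve → ℝ} (hb : Y.Big δ) (h : Y.PseudoEff (δ + κ)) :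
    Y.aInv κ δ ≤ 1 := by
  unfold aInv
  rw [if_pos hb]
  refine sInf_le ⟨1, EReal.coe_one.symm, ?_⟩
  have e : (fun C => 1 * δ C + κ C) = δ + κ := by
    funext C
    rw [one_mul]
    rfl
  rw [e]
  exact h

/-- `1 ≤ a(X, -K)` if there is a nef curve class on which `-K` is positive: for `s < 1` evaluate
`s (-K) + K + ε H = (1 - s) K + ε H` on the curve, for small `ε`. -/
theorem one_le_aInv {K : Y.CaDiv} (C : Y.Curve)
    (hC : (fun D => (Y.deg C.c D : ℝ)) ∈ Y.Nef1) (hpos : Y.deg C.c K < 0) :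
    1 ≤ Y.aInv K.cls (-K.cls) := by
  unfold aInv
  split_ifs with hb
  swap
  · exact le_top
  refine le_sInf ?_
  rintro t ⟨s, rfl, hs⟩
  by_contra hlt
  have hs1 : s < 1 := by
    have h1 := not_le.1 hlt
    exact_mod_cast h1
  have key : ∀ ε : ℝ, 0 < ε →
      0 ≤ (1 - s) * (Y.deg C.c K : ℝ) + ε * (Y.deg C.c Y.hyperplane : ℝ) := by
    intro ε hε
    obtain ⟨E, h1, h2, h3⟩ := hs ε hε
    have h4 := h3 C
    have h5 : 0 ≤ E.sum fun D r => r * (Y.deg C.c D : ℝ) :=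
      Finset.sum_nonneg fun D hD => mul_nonneg (h1 D) (hC.2 D (h2 D hD))
    rw [← h4] at h5
    have h6 : s * (-K.cls) C + K.cls C + ε * (Y.deg C.c Y.hyperplane : ℝ) =
        (1 - s) * (Y.deg C.c K : ℝ) + ε * (Y.deg C.c Y.hyperplane : ℝ) := by
      change s * (-(Y.deg C.c K : ℝ)) + (Y.deg C.c K : ℝ) +
        ε * (Y.deg C.c Y.hyperplane : ℝ) = _
      ring
    rw [← h6]
    exact h5
  have hK : (Y.deg C.c K : ℝ) < 0 := by exact_mod_cast hpos
  have ha : (1 - s) * (Y.deg C.c K : ℝ) < 0 := mul_neg_of_pos_of_neg (by linarith) hK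
  set a : ℝ := (1 - s) * (Y.deg C.c K : ℝ) with hadef
  set b : ℝ := (Y.deg C.c Y.hyperplane : ℝ) with hbdef
  have hb1 : 0 < 2 * (|b| + 1) := by positivity
  have h7 := key (-a / (2 * (|b| + 1))) (div_pos (by linarith) hb1)
  have h8 : -a / (2 * (|b| + 1)) * b ≤ -a / 2 := by
    rw [div_mul_eq_mul_div, div_le_div_iff₀ hb1 two_pos]
    have h9 : b ≤ |b| := le_abs_self b
    nlinarith [abs_nonneg b]
  linarith

/-- Bigness and nefness from a multiple of the hyperplane section. -/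
theorem big_of_pos [IsAlgClosed k] [CharZero k] {δ : Y.Curve → ℝ} {r : ℝ} (hr : 0 < r)
    (h : ∀ C : Y.Curve, δ C = r * (Y.deg C.c Y.hyperplane : ℝ)) : Y.Big δ := by
  refine ⟨r, hr, ?_⟩
  have e : (fun C : Y.Curve => δ C - r * (Y.deg C.c Y.hyperplane : ℝ)) = 0 := by
    funext C
    rw [h C, sub_self]
    rfl
  rw [e]
  exact effClass_zero

theorem nef_of_pos [IsAlgClosed k] [CharZero k] {δ : Y.Curve → ℝ} {r : ℝ} (hr : 0 ≤ r)
    (h : ∀ C : Y.Curve, δ C = r * (Y.deg C.c Y.hyperplane : ℝ)) : Y.Nef δ := by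
  intro C
  rw [h C]
  have h1 := deg_hyperplane_nonneg C.isCurveField C.isPt
  exact mul_nonneg hr (by exact_mod_cast h1)

theorem Big.smul {δ : Y.Curve → ℝ} (h : Y.Big δ) {r : ℝ} (hr : 0 < r) : Y.Big (r • δ) := by
  obtain ⟨ε, hε, h1⟩ := h
  refine ⟨r * ε, mul_pos hr hε, ?_⟩
  have h2 := h1.smul hr.le
  have e : (fun C : Y.Curve => (r • δ) C - r * ε * (Y.deg C.c Y.hyperplane : ℝ)) =
      r • fun C : Y.Curve => δ C - ε * (Y.deg C.c Y.hyperplane : ℝ) := by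
    funext C
    rw [Pi.smul_apply, Pi.smul_apply, smul_eq_mul, smul_eq_mul]
    ring
  rw [e]
  exact h2

end ProjVar

end Pool.Agent.MP9a7843
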