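import Mathlib

/-!
# Rational curves on smooth projective varieties: definitions

Everything is over a field `k` (in the theorem: algebraically closed, of characteristic `0`),
in the classical language: a projective variety is given by its function field `K` and the
homogeneous coordinates `z` of its generic point.
-/

noncomputable section

open MvPolynomial Classical

open scoped KaehlerDifferential

namespace Pool.Agent.MP9a7843

universe u

/-- A projective variety `Y ⊂ P^ι` over `k` (closed and irreducible): `K` is its function field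
and `z = [z_i]` its generic point; `K` is generated over `k` by the quotients `z_i / z_j`.
The homogeneous ideal of `Y` is generated by the forms `G` over `k` with `G(z) = 0`.
Every homogeneous prime ideal of `k[x_i : i ∈ ι]` other than the irrelevant one arises. -/
structure ProjVar (k : Type u) [Field k] where
  /-- the function field -/
  K : Type u
  [field : Field K]
  [algebra : Algebra k K]
  /-- the (finite) set of indices of the homogeneous coordinates -/
  ι : Type
  [fintype : Fintype ι]
  /-- homogeneous coordinates of the generic point -/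
  z : ι → K
  exists_ne_zero : ∃ i, z i ≠ 0
  adjoin_eq_top : IntermediateField.adjoin k {a : K | ∃ i j, a = z i / z j} = ⊤

attribute [instance] ProjVar.field ProjVar.algebra ProjVar.fintype

namespace ProjVar

variable {k : Type u} [Field k] (Y X : ProjVar k)

instance : Nonempty Y.ι := ⟨Y.exists_ne_zero.choose⟩

/-- The dimension of `Y`: the transcendence degree of the function field. -/
def dim : ℕ := Cardinal.toNat (Algebra.trdeg k Y.K)

section Points

variable {F : Type u} [Field F] [Algebra k F]

/-- `c` is (a vector of homogeneous coordinates of) an `F`-valued point of `Y`, for a field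
`F` over `k`: it is not zero and is a zero of all forms which vanish on `Y`.
For `F = k` these are the closed points of `Y`. -/
def IsPt (c : Y.ι → F) : Prop :=
  (∃ i, c i ≠ 0) ∧ ∀ (d : ℕ) (G : MvPolynomial Y.ι k), G.IsHomogeneous d →
    aeval Y.z G = 0 → aeval c G = 0

/-- `a ∈ K` is the quotient `G / H` of two forms of the same degree with `H(c) ≠ 0`, and `b` is
its value `G(c) / H(c)` at the point `c`. -/
def HasValue (c : Y.ι → F) (a : Y.K) (b : F) : Prop :=
  ∃ (d : ℕ) (G H : MvPolynomial Y.ι k), G.IsHomogeneous d ∧ H.IsHomogeneous d ∧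
    aeval c H ≠ 0 ∧ a = aeval Y.z G / aeval Y.z H ∧ b = aeval c G / aeval c H

/-- The local ring of `Y` at the point `c`, as a subring of the function field: the rational
functions which are defined at `c` (this set is already closed under the operations). -/
def loc (c : Y.ι → F) : Subalgebra k Y.K :=
  Algebra.adjoin k {a | ∃ b, Y.HasValue c a b}

/-- The value at the point `c` of a rational function that is defined at `c`. -/
def ev (c : Y.ι → F) (a : Y.K) : F := Classical.epsilon (Y.HasValue c a)

end Points

/-- `Y` is smooth: its local rings at all closed points are (formally) smooth over `k`.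
(`loc y` is the localisation of a finitely generated `k`-algebra at a maximal ideal, so this is
smoothness at `y`, equivalently `loc y` is a regular local ring.) -/
def Smooth : Prop := ∀ y : Y.ι → k, Y.IsPt y → Algebra.FormallySmooth k (Y.loc y)

/-! ### Cartier divisors -/

/-- A Cartier divisor on `Y`: a local equation `eq y ∈ K^*` at each closed point `y`, such that
`eq y` is also a local equation at all points of a neighbourhood of `y`. -/
structure CaDiv where
  /-- the local equations -/
  eq : (Y.ι → k) → Y.K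
  eq_ne_zero : ∀ y, Y.IsPt y → eq y ≠ 0
  locally : ∀ y, Y.IsPt y → ∃ (d : ℕ) (H : MvPolynomial Y.ι k), H.IsHomogeneous d ∧
    aeval y H ≠ 0 ∧ ∀ y', Y.IsPt y' → aeval y' H ≠ 0 →
      eq y' / eq y ∈ Y.loc y' ∧ eq y / eq y' ∈ Y.loc y'

/-- The divisor `D` is effective: the local equations are regular. -/
def CaDiv.Effective {Y : ProjVar k} (D : Y.CaDiv) : Prop := ∀ y, Y.IsPt y → D.eq y ∈ Y.loc y

/-- A hyperplane section of `Y`: the local equations `z_i / z_j` (`y_j ≠ 0`) of the divisor
`x_i = 0`, for an `i` with `z_i ≠ 0`. -/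
def hyperplane : Y.CaDiv where
  eq y := Y.z (Classical.epsilon fun i => Y.z i ≠ 0) / Y.z (Classical.epsilon fun j => y j ≠ 0)
  eq_ne_zero := by
    intro y hy
    have h1 : Y.z (Classical.epsilon fun i => Y.z i ≠ 0) ≠ 0 :=
      Classical.epsilon_spec Y.exists_ne_zero
    have h2 : y (Classical.epsilon fun j => y j ≠ 0) ≠ 0 := Classical.epsilon_spec hy.1
    refine div_ne_zero h1 fun h => h2 ?_
    have := hy.2 1 (MvPolynomial.X (Classical.epsilon fun j => y j ≠ 0)) (isHomogeneous_X _ _)
    simpa using this (by simpa using h)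
  locally := by
    intro y hy
    have h1 : Y.z (Classical.epsilon fun i => Y.z i ≠ 0) ≠ 0 :=
      Classical.epsilon_spec Y.exists_ne_zero
    have hz : ∀ (y : Y.ι → k), Y.IsPt y → ∀ j, y j ≠ 0 → Y.z j ≠ 0 := by
      intro y hy j hj h
      have := hy.2 1 (MvPolynomial.X j) (isHomogeneous_X _ _)
      exact hj (by simpa using this (by simpa using h))
    have key : ∀ (y : Y.ι → k) (i j : Y.ι), y j ≠ 0 → Y.z i / Y.z j ∈ Y.loc y := by
      intro y i j hj
      exact Algebra.subset_adjoin ⟨_, 1, MvPolynomial.X i, MvPolynomial.X j,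
        isHomogeneous_X _ _, isHomogeneous_X _ _, by simpa using hj, by simp, rfl⟩
    refine ⟨1, MvPolynomial.X (Classical.epsilon fun j => y j ≠ 0), isHomogeneous_X _ _, ?_, ?_⟩
    · simpa using Classical.epsilon_spec hy.1
    · intro y' hy' hj
      have hj' : y' (Classical.epsilon fun j => y j ≠ 0) ≠ 0 := by simpa using hj
      have h3 : y' (Classical.epsilon fun j => y' j ≠ 0) ≠ 0 := Classical.epsilon_spec hy'.1
      have h4 := hz y' hy' _ h3
      have h5 := hz y' hy' _ hj'
      constructor
      · have := key y' (Classical.epsilon fun j => y j ≠ 0) _ h3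
        convert this using 1
        field_simp
      · have := key y' (Classical.epsilon fun j => y' j ≠ 0) _ hj'
        convert this using 1
        field_simp

/-! ### Curves and intersection numbers -/

/-- A place of the field `F` over `k`: a normalised discrete valuation, trivial on `k`.
(The value `ord 0 = 0` is a convention only; no definition below depends on it.)  If `F` is
finitely generated of transcendence degree `1`, the places of `F / k` are the points of the
smooth projective curve with function field `F`. -/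
structure Place (k : Type u) [Field k] (F : Type u) [Field F] [Algebra k F] where
  /-- the order of vanishing -/
  ord : F → ℤ
  ord_zero : ord 0 = 0
  ord_mul : ∀ a b, a ≠ 0 → b ≠ 0 → ord (a * b) = ord a + ord b
  ord_add : ∀ a b, a ≠ 0 → b ≠ 0 → a + b ≠ 0 → min (ord a) (ord b) ≤ ord (a + b)
  ord_const : ∀ c : k, c ≠ 0 → ord (algebraMap k F c) = 0
  ord_surj : ∃ a, a ≠ 0 ∧ ord a = 1

/-- A (parametrised) curve in `Y`: a smooth projective curve, given by its function field `F`,
with a morphism to `Y`, given by the image `c ∈ Y(F)` of its generic point.  Every integral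
curve in `Y` gives one, by normalisation.  (`F` may be larger than the function field of the
image, then all degrees are multiplied by the degree of the map to the image; the morphism may
also be constant, then all degrees are `0`.  So the classes are the same as those of cycles.) -/
structure Curve where
  /-- the function field of the curve -/
  F : Type u
  [field : Field F]
  [algebra : Algebra k F]
  fg : Algebra.EssFiniteType k F
  trdeg : Algebra.trdeg k F = 1
  /-- the morphism to `Y` -/
  c : Y.ι → F
  isPt : Y.IsPt c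

attribute [instance] Curve.field Curve.algebra

section Degree

variable {F : Type u} [Field F] [Algebra k F]

/-- The closed point `y` is the image of the place `v` under the morphism given by `c ∈ Y(F)`:
`c_i / c_j ≡ y_i / y_j` modulo the maximal ideal of the place, for all `i` (and some `j`). -/
def IsCentre (c : Y.ι → F) (v : Place k F) (y : Y.ι → k) : Prop :=
  Y.IsPt y ∧ ∃ j, c j ≠ 0 ∧ y j ≠ 0 ∧ ∀ i, c i / c j = algebraMap k F (y i / y j) ∨
    0 < v.ord (c i / c j - algebraMap k F (y i / y j))

/-- The image of the place `v` under the morphism given by `c ∈ Y(F)`. -/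
def centre (c : Y.ι → F) (v : Place k F) : Y.ι → k := Classical.epsilon (Y.IsCentre c v)

/-- The degree of the pullback of the Cartier divisor `D` to the curve given by `c ∈ Y(F)`:
divide `D` by its local equation at some point `y₀` of the image (this changes `D` by a principal
divisor and achieves that the image is not contained in the support), pull the local equations
back to `F` and sum up their orders at all places. -/
def deg (c : Y.ι → F) (D : Y.CaDiv) : ℤ :=
  ∑ᶠ v : Place k F, v.ord (Y.ev c (D.eq (Y.centre c v) /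
    D.eq (Classical.epsilon fun y₀ => ∃ v₀ : Place k F, Y.IsCentre c v₀ y₀)))

end Degree

/-! ### `N_1`, nef classes of curves, pseudo-effective, big and nef divisors -/

/-- Real `1`-cycles. -/
abbrev Cycle := Y.Curve →₀ ℝ

/-- The numerical class of a real `1`-cycle: its intersection numbers with Cartier divisors.
`N_1(Y)` is the set of all these classes. -/
def Cycle.cls {Y : ProjVar k} (γ : Y.Cycle) : Y.CaDiv → ℝ :=
  fun D => γ.sum fun C r => r * (Y.deg C.c D : ℝ)

/-- `N_1(Y)`: real `1`-cycles modulo numerical equivalence. -/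
def N1 : Set (Y.CaDiv → ℝ) := {α | ∃ γ : Y.Cycle, α = γ.cls}

/-- `N_1(Y)_ℤ`: classes of integral `1`-cycles. -/
def N1Int : Set (Y.CaDiv → ℝ) :=
  {α | ∃ γ : Y.Curve →₀ ℤ, α = fun D => γ.sum fun C m => (m : ℝ) * (Y.deg C.c D : ℝ)}

/-- `Nef_1(Y)`: the classes in `N_1(Y)` which are non-negative on effective divisors. -/
def Nef1 : Set (Y.CaDiv → ℝ) := {α | α ∈ Y.N1 ∧ ∀ E : Y.CaDiv, E.Effective → 0 ≤ α E}

/-- The numerical class `δ` of an `ℝ`-divisor is represented here by the intersection numbers
with all curves.  `δ` is effective: it is the class of a finite sum `∑ r E`, `r ≥ 0` real,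
`E` effective Cartier. -/
def EffClass (δ : Y.Curve → ℝ) : Prop :=
  ∃ E : Y.CaDiv →₀ ℝ, (∀ D, 0 ≤ E D) ∧ (∀ D ∈ E.support, D.Effective) ∧
    ∀ C : Y.Curve, δ C = E.sum fun D r => r * (Y.deg C.c D : ℝ)

/-- `δ` is pseudo-effective: `δ + ε H` is effective for every `ε > 0` (`H` a hyperplane section);
that is, `δ` is in the closure of the cone of effective classes. -/
def PseudoEff (δ : Y.Curve → ℝ) : Prop :=
  ∀ ε : ℝ, 0 < ε → Y.EffClass fun C => δ C + ε * (Y.deg C.c Y.hyperplane : ℝ)

/-- `δ` is big: `δ` is the sum of an ample class `ε H`, `ε > 0`, and an effective class. -/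
def Big (δ : Y.Curve → ℝ) : Prop :=
  ∃ ε : ℝ, 0 < ε ∧ Y.EffClass fun C => δ C - ε * (Y.deg C.c Y.hyperplane : ℝ)

/-- `δ` is nef. -/
def Nef (δ : Y.Curve → ℝ) : Prop := ∀ C, 0 ≤ δ C

/-- The class of a Cartier divisor. -/
def CaDiv.cls {Y : ProjVar k} (D : Y.CaDiv) : Y.Curve → ℝ := fun C => (Y.deg C.c D : ℝ)

/-! ### Canonical divisors, the invariants `a` and `κ` -/

/-- The value `det (δ_i a_j)` of the rational `n`-form `d a_1 ∧ … ∧ d a_n`, `n = dim Y`, on `n`
rational vector fields (derivations `δ_1, …, δ_n` of the function field `K` over `k`). -/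
def wedge (δ : Fin Y.dim → Derivation k Y.K Y.K) (a : Fin Y.dim → Y.K) : Y.K :=
  (Matrix.of fun i j => δ i (a j)).det

/-- The values `η(δ_1, …, δ_n) ∈ K` of the `n`-forms `η` which are regular at `y`: the `O_y`-span of
the values of `d a_1 ∧ … ∧ d a_n`, `a_j ∈ O_y`.  If the `δ_i` are linearly independent over `K`,
this is the fibre at `y` of the canonical sheaf, as rational `n`-forms are then determined by
their value on `(δ_1, …, δ_n)`. -/
def regularForms (δ : Fin Y.dim → Derivation k Y.K Y.K) (y : Y.ι → k) :
    Submodule (Y.loc y) Y.K :=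
  Submodule.span (Y.loc y) {b | ∃ a, (∀ j, a j ∈ Y.loc y) ∧ b = Y.wedge δ a}

/-- `D` is a canonical divisor of `Y`: the divisor of some rational `n`-form `ω ≠ 0`, `n = dim Y`,
where `ω` is given by its value `s = ω(δ_1, …, δ_n) ≠ 0` on some vector fields
(at each point `y`, `ω = (local equation of D) · (generator of the regular n-forms)`). -/
def CaDiv.IsCanonical {Y : ProjVar k} (D : Y.CaDiv) : Prop :=
  ∃ (δ : Fin Y.dim → Derivation k Y.K Y.K) (s : Y.K), s ≠ 0 ∧ ∀ y, Y.IsPt y →
    Y.regularForms δ y = Submodule.span (Y.loc y) {s / D.eq y}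

/-- `a(Y, D) = min {t : t D + K_Y pseudo-effective}` for a nef divisor class `δ` of `D` (the
infimum is attained if it is finite, since the set of these `t` is closed);
`a(Y, D) = ∞` if `D` is not big.  Here `κ` is the class of a canonical divisor. -/
def aInv (κ δ : Y.Curve → ℝ) : EReal :=
  if Y.Big δ then sInf {t : EReal | ∃ s : ℝ, t = s ∧ Y.PseudoEff fun C => s * δ C + κ C} else ⊤

/-- The divisor with local equations `h y` has positive Iitaka dimension: for some `m ≥ 1` there
are sections `φ`, `ψ` of `m D` (rational functions with `div φ + m D ≥ 0`) with non-constant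
quotient. -/
def IitakaPos (h : (Y.ι → k) → Y.K) : Prop :=
  ∃ m : ℕ, 1 ≤ m ∧ ∃ φ ψ : Y.K, (∀ y, Y.IsPt y → φ * h y ^ m ∈ Y.loc y) ∧
    (∀ y, Y.IsPt y → ψ * h y ^ m ∈ Y.loc y) ∧ ψ ≠ 0 ∧ ∀ c : k, φ / ψ ≠ algebraMap k Y.K c

/-! ### Morphisms -/

/-- A morphism `f : Y → X` of projective varieties, given by the image `coord ∈ X(K(Y))` of the
generic point; `f` is regular at every closed point. -/
structure Hom where
  /-- homogeneous coordinates of the morphism -/
  coord : X.ι → Y.K
  isPt : X.IsPt coord
  regular : ∀ y : Y.ι → k, Y.IsPt y →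
    ∃ j, coord j ≠ 0 ∧ ∀ i, coord i / coord j ∈ Y.loc y

variable {Y X}

/-- The image of a point `c ∈ Y(F)` under `f`. -/
def Hom.app (f : Hom Y X) {F : Type u} [Field F] [Algebra k F] (c : Y.ι → F) : X.ι → F :=
  fun i => Y.ev c (f.coord i / f.coord (Classical.epsilon fun j =>
    f.coord j ≠ 0 ∧ ∀ i, f.coord i / f.coord j ∈ Y.loc c))

/-- `f` is dominant. -/
def Hom.Dominant (f : Hom Y X) : Prop :=
  ∀ (d : ℕ) (G : MvPolynomial X.ι k), G.IsHomogeneous d → aeval f.coord G = 0 → aeval X.z G = 0

/-- `f` is generically finite onto its image: `K(Y)` is algebraic over the function field of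
the image. -/
def Hom.GenFinite (f : Hom Y X) : Prop :=
  Algebra.IsAlgebraic
    (IntermediateField.adjoin k {a : Y.K | ∃ i j, a = f.coord i / f.coord j}) Y.K

/-- The class on `Y` of the pullback `f^* D` (projection formula). -/
def Hom.pullCls (f : Hom Y X) (D : X.CaDiv) : Y.Curve → ℝ :=
  fun C => (X.deg (f.app C.c) D : ℝ)

/-- The class of the pushforward `f_* γ` of a real `1`-cycle. -/
def Hom.pushCls (f : Hom Y X) (γ : Y.Cycle) : X.CaDiv → ℝ :=
  fun D => γ.sum fun C r => r * (X.deg (f.app C.c) D : ℝ)

/-- `γ` lies in the face `Nef_1(Y) ∩ δ^⊥`, for a divisor class `δ`. -/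
def InFace (δ : Y.Curve → ℝ) (γ : Y.Cycle) : Prop :=
  γ.cls ∈ Y.Nef1 ∧ (γ.sum fun C r => r * δ C) = 0

/-- `f : Y → X` is a breaking map, with respect to the canonical divisors `KX`, `KY` of `X`, `Y`.
`L = -K_X`; the class of `f^* L` is `-f^* K_X`.  The definition is meant for weak Fano `X`; then
`a(X, L) = 1`, and in cases (ii) and (iii), `a(Y, f^* L) = a(X, L) = 1`. -/
def Hom.IsBreakingFor (f : Hom Y X) (KX : X.CaDiv) (KY : Y.CaDiv) : Prop :=
  f.GenFinite ∧
  (X.aInv KX.cls (-KX.cls) < Y.aInv KY.cls (-f.pullCls KX) ∨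
    (f.Dominant ∧ Y.aInv KY.cls (-f.pullCls KX) = X.aInv KX.cls (-KX.cls) ∧
      (Y.IitakaPos (fun y => KY.eq y / X.ev f.coord (KX.eq (f.app y))) ∨
        ∃ γ γ' : Y.Cycle, InFace (-f.pullCls KX + KY.cls) γ ∧
          InFace (-f.pullCls KX + KY.cls) γ' ∧ f.pushCls γ = f.pushCls γ' ∧
          γ.cls ≠ γ'.cls)))

/-- `f` is a breaking map. -/
def Hom.IsBreaking (f : Hom Y X) : Prop :=
  ∃ (KX : X.CaDiv) (KY : Y.CaDiv), KX.IsCanonical ∧ KY.IsCanonical ∧ f.IsBreakingFor KX KY

/-- `X` is weak Fano: `-K_X` is big and nef. -/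
def WeakFano (X : ProjVar k) : Prop :=
  ∃ KX : X.CaDiv, KX.IsCanonical ∧ X.Nef (-KX.cls) ∧ X.Big (-KX.cls)

/-! ### The space of morphisms `P^1 → X` -/

/-- The Zariski topology on `k^σ`. -/
@[instance_reducible] def zariski (σ : Type) (k : Type u) [Field k] : TopologicalSpace (σ → k) :=
  TopologicalSpace.generateFrom {U | ∃ F : MvPolynomial σ k, U = {p | aeval p F ≠ 0}}

/-- The value at `(s, t)` of the tuple of binary forms `∑ a_{ij} s^j t^(d-j)`. -/
def formVal (X : ProjVar k) (d : ℕ) (a : X.ι × Fin (d + 1) → k) (s : k × k) : X.ι → k :=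
  fun i => ∑ j : Fin (d + 1), a (i, j) * s.1 ^ (j : ℕ) * s.2 ^ (d - j)

/-- Tuples of binary forms of degree `d` without common zero on `P^1`, with values in `X`. -/
def Tuple (X : ProjVar k) (d : ℕ) : Type u :=
  {a : X.ι × Fin (d + 1) → k // ∀ s : k × k, s ≠ 0 → X.IsPt (X.formVal d a s)}

instance (X : ProjVar k) (d : ℕ) : TopologicalSpace (X.Tuple d) :=
  TopologicalSpace.induced Subtype.val (zariski (X.ι × Fin (d + 1)) k)

/-- Two tuples define the same morphism if they are proportional. -/
@[instance_reducible] def tupleSetoid (X : ProjVar k) (d : ℕ) : Setoid (X.Tuple d) where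
  r a b := ∃ r : k, r ≠ 0 ∧ b.1 = r • a.1
  iseqv :=
    { refl := fun a => ⟨1, one_ne_zero, by simp⟩
      symm := by
        rintro a b ⟨r, hr, h⟩
        exact ⟨r⁻¹, inv_ne_zero hr, by rw [h, smul_smul, inv_mul_cancel₀ hr, one_smul]⟩
      trans := by
        rintro a b c ⟨r, hr, h⟩ ⟨r', hr', h'⟩
        exact ⟨r' * r, mul_ne_zero hr' hr, by rw [h', h, smul_smul]⟩ }

/-- `Mor(P^1, X)` (its `k`-points, with the Zariski topology): the disjoint union over the degree
`d` with respect to the hyperplane class. -/
def Mor (X : ProjVar k) : Type u := Σ d : ℕ, Quotient (X.tupleSetoid d)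

instance (X : ProjVar k) : TopologicalSpace (X.Mor) :=
  inferInstanceAs (TopologicalSpace (Σ d : ℕ, Quotient (X.tupleSetoid d)))

/-- The generic point of the morphism: `[∑ a_{ij} t^j] ∈ X(k(t))`. -/
def tupleGen (X : ProjVar k) (d : ℕ) (a : X.ι × Fin (d + 1) → k) : X.ι → RatFunc k :=
  fun i => ∑ j : Fin (d + 1), algebraMap k (RatFunc k) (a (i, j)) * RatFunc.X ^ (j : ℕ)

/-- The numerical class `g_* [P^1]`. -/
def Mor.cls {X : ProjVar k} (g : X.Mor) : X.CaDiv → ℝ :=
  fun D => (X.deg (X.tupleGen g.1 g.2.out.1) D : ℝ)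

/-- `M` is an irreducible component of `Mor(P^1, X, α)`: a maximal irreducible subset. -/
def IsComponent (X : ProjVar k) (α : X.CaDiv → ℝ) (M : Set X.Mor) : Prop :=
  Maximal (fun S : Set X.Mor => IsIrreducible S ∧ ∀ g ∈ S, g.cls = α) M

/-- `G = f ∘ g` for morphisms `g : P^1 → Y`, `G : P^1 → X`. -/
def Hom.IsComp (f : Hom Y X) (g : Y.Mor) (G : X.Mor) : Prop :=
  ∀ s : k × k, s ≠ 0 → ∃ r : k, r ≠ 0 ∧
    f.app (Y.formVal g.1 g.2.out.1 s) = r • X.formVal G.1 G.2.out.1 s

/-- The component `M` of `Mor(P^1, X)` is accumulating: for some breaking map `f : Y → X` and some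
component `N` of `Mor(P^1, Y)`, composition with `f` induces a generically finite dominant
rational map `N ⇢ M`: the compositions `f ∘ g ∈ M`, `g ∈ N`, are dense in `M`, and the fibres over
a nonempty open subset of `M` are finite. -/
def Accumulating (X : ProjVar k) (M : Set X.Mor) : Prop :=
  ∃ (Y : ProjVar k) (f : Hom Y X) (β : Y.CaDiv → ℝ) (N : Set Y.Mor), Y.Smooth ∧ f.IsBreaking ∧
    Y.IsComponent β N ∧ M ⊆ closure {G | G ∈ M ∧ ∃ g ∈ N, f.IsComp g G} ∧
    ∃ U : Set X.Mor, IsOpen U ∧ (U ∩ M).Nonempty ∧ ∀ G ∈ U ∩ M, {g | g ∈ N ∧ f.IsComp g G}.Finite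

/-- `X` admits `(τ, n)`, `τ` an integral nef class and `n ≥ 1` an integer, such that for every
integral nef class `α ∈ τ + Nef_1(X)`, `Mor(P^1, X, α)` has exactly `n` Manin components
(irreducible components that are not accumulating). -/
def HasUniformCount (X : ProjVar k) : Prop :=
  ∃ τ ∈ X.Nef1 ∩ X.N1Int, ∃ n : ℕ, 1 ≤ n ∧ ∀ α ∈ X.Nef1 ∩ X.N1Int, α - τ ∈ X.Nef1 →
    {M : Set X.Mor | X.IsComponent α M ∧ ¬ X.Accumulating M}.encard = n

end ProjVar

end Pool.Agent.MP9a7843
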