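import Pool.Agent.Lib.MP_9a7843_ag.Place

/-!
# The product formula
-/

noncomputable section

open IntermediateField

namespace Pool.Agent.MP9a7843

universe u

variable {k : Type u} [Field k] {F : Type u} [Field F] [Algebra k F]

namespace ProjVar

namespace Place

open IsDedekindDomain in
/-- The place of a height one prime of a Dedekind domain. -/
private def pf_place {S : Type u} [CommRing S] [IsDedekindDomain S] [Algebra k S] [Algebra S F]
    [IsFractionRing S F] [IsScalarTower k S F] (P : HeightOneSpectrum S) : Place k F where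
  ord a := -WithZero.log (P.valuation F a)
  ord_zero := by
    rw [map_zero, WithZero.log_zero, neg_zero]
  ord_mul a b ha hb := by
    rw [map_mul, WithZero.log_mul ((Valuation.ne_zero_iff _).2 ha)
      ((Valuation.ne_zero_iff _).2 hb), neg_add]
  ord_add a b ha hb hab := by
    have h1 := (P.valuation F).map_add a b
    rcases le_max_iff.1 h1 with h | h
    · refine min_le_iff.2 (Or.inl (neg_le_neg ?_))
      exact (WithZero.log_le_log ((Valuation.ne_zero_iff _).2 hab)
        ((Valuation.ne_zero_iff _).2 ha)).2 h
    · refine min_le_iff.2 (Or.inr (neg_le_neg ?_))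
      exact (WithZero.log_le_log ((Valuation.ne_zero_iff _).2 hab)
        ((Valuation.ne_zero_iff _).2 hb)).2 h
  ord_const c hc := by
    have h1 : P.valuation F (algebraMap k F c) = 1 := by
      rw [IsScalarTower.algebraMap_apply k S F, HeightOneSpectrum.valuation_eq_one_iff_notMem]
      intro h
      have hu : IsUnit (algebraMap k S c) := (isUnit_iff_ne_zero.2 hc).map _
      exact P.isPrime.ne_top (Ideal.eq_top_of_isUnit_mem _ h hu)
    rw [h1, WithZero.log_one, neg_zero]
  ord_surj := by
    obtain ⟨π, hπ⟩ := P.valuation_exists_uniformizer F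
    refine ⟨π, ?_, ?_⟩
    · rintro rfl
      rw [map_zero] at hπ
      exact WithZero.exp_ne_zero hπ.symm
    · rw [hπ, WithZero.log_exp, neg_neg]

section ded

open IsDedekindDomain

variable {S : Type u} [CommRing S] [IsDedekindDomain S] [Algebra k S] [Algebra S F]
    [IsFractionRing S F] [IsScalarTower k S F]

private theorem pf_ord (P : HeightOneSpectrum S) (a : F) :
    (pf_place (k := k) (F := F) P).ord a = -WithZero.log (P.valuation F a) := rfl

private theorem pf_small (P : HeightOneSpectrum S) (s : S) :
    (pf_place (k := k) (F := F) P).Small (algebraMap S F s) ↔ s ∈ P.asIdeal := by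
  by_cases hs : s = 0
  · subst hs
    rw [map_zero]
    exact ⟨fun _ => P.asIdeal.zero_mem, fun _ => Or.inl rfl⟩
  · have hs' : algebraMap S F s ≠ 0 := (map_ne_zero_iff _ (IsFractionRing.injective S F)).2 hs
    have hv : P.valuation F (algebraMap S F s) ≠ 0 := (Valuation.ne_zero_iff _).2 hs'
    rw [← P.valuation_lt_one_iff_mem (K := F)]
    unfold Small
    rw [pf_ord]
    have h1 := WithZero.log_lt_log hv (one_ne_zero)
    rw [WithZero.log_one] at h1
    rw [← h1]
    constructor
    · rintro (h | h)
      · exact absurd h hs'
      · linarith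
    · intro h
      right
      linarith

private theorem pf_eq (P : HeightOneSpectrum S) (v : Place k F)
    (hv : ∀ s : S, algebraMap S F s ∈ v.valSubring)
    (hP : ∀ s : S, v.Small (algebraMap S F s) → s ∈ P.asIdeal) : pf_place P = v := by
  refine ext_valSubring ?_
  intro a ha
  rw [mem_valSubring, pf_ord] at ha
  rcases ha with rfl | ha
  · exact Or.inl rfl
  · by_cases ha0 : a = 0
    · exact Or.inl ha0
    have hva : P.valuation F a ≤ 1 := by
      rw [← WithZero.log_le_log ((Valuation.ne_zero_iff _).2 ha0) one_ne_zero, WithZero.log_one]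
      linarith
    obtain ⟨n, d, hnd⟩ := P.exists_primeCompl_mul_eq_of_integer a hva
    have hd : ¬ v.Small (algebraMap S F d) := fun h => d.2 (hP _ h)
    have hd1 := hv d
    rw [mem_valSubring] at hd1
    have hd0 : algebraMap S F d ≠ 0 := fun h => hd (Or.inl h)
    have hd2 : v.ord (algebraMap S F d) = 0 := by
      have h2 := hd1.resolve_left hd0
      have h3 : ¬ 0 < v.ord (algebraMap S F d) := fun h => hd (Or.inr h)
      omega
    right
    have hn := hv n
    rw [mem_valSubring, ← hnd] at hn
    have hn2 := hn.resolve_left (mul_ne_zero ha0 hd0)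
    rw [v.ord_mul _ _ ha0 hd0, hd2, add_zero] at hn2
    exact hn2

private theorem pf_sum {R : Type u} [CommRing R] [IsDomain R] [Algebra k R] [Algebra R S]
    [IsScalarTower k R S] [Module.Finite R S] [Module.Flat R S] [FaithfulSMul R S]
    [IsAlgClosed k] (h1 : Algebra.trdeg k F = 1) (x : R) (hx : x ≠ 0)
    (hm : (Ideal.span {x}).IsMaximal) {φ : F} (hφ : algebraMap S F (algebraMap R S x) = φ)
    (hint : ∀ v : Place k F, 0 < v.ord φ → ∀ s : S, algebraMap S F s ∈ v.valSubring) :
    {v : Place k F | 0 < v.ord φ}.Finite ∧
      ∑ᶠ v ∈ {v : Place k F | 0 < v.ord φ}, v.ord φ = (Module.finrank R S : ℤ) := by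
  classical
  set p : Ideal R := Ideal.span {x} with hp
  have : Fintype (p.primesOver S) := (Algebra.QuasiFinite.finite_primesOver p).fintype
  have hy : algebraMap R S x ≠ 0 := (map_ne_zero_iff _ (FaithfulSMul.algebraMap_injective R S)).2 hx
  have hmap : p.map (algebraMap R S) = Ideal.span {algebraMap R S x} := by
    rw [hp, Ideal.map_span, Set.image_singleton]
  have hmap0 : p.map (algebraMap R S) ≠ ⊥ := by
    rw [hmap, Ne, Ideal.span_singleton_eq_bot]
    exact hy
  have hxq : ∀ q : p.primesOver S, algebraMap R S x ∈ q.1 := by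
    intro q
    have hl : q.1.LiesOver p := q.2.2
    have h2 : x ∈ q.1.under R := by
      rw [← hl.over]
      exact Ideal.mem_span_singleton_self x
    exact h2
  let Q : p.primesOver S → HeightOneSpectrum S := fun q =>
    ⟨q.1, q.2.1, fun h => hy (by
      have h2 := hxq q
      rw [h] at h2
      exact h2)⟩
  let g : p.primesOver S → Place k F := fun q => pf_place (Q q)
  have hgord : ∀ q, (g q).ord φ = (q.1.ramificationIdx R * q.1.inertiaDeg R : ℕ) := by
    intro q
    have hqp : q.1.IsPrime := q.2.1
    have hl : q.1.LiesOver p := q.2.2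
    have hqm : q.1.IsMaximal := hqp.isMaximal (Q q).ne_bot
    have hin : q.1.inertiaDeg R = 1 := by
      rw [Ideal.inertiaDeg_eq_of_isMaximal p q.1]
      have hb : Function.Bijective (Algebra.linearMap (R ⧸ p) (S ⧸ q.1)) := by
        constructor
        · let _ : Field (R ⧸ p) := Ideal.Quotient.field p
          exact (algebraMap (R ⧸ p) (S ⧸ q.1)).injective
        · intro y
          obtain ⟨s, rfl⟩ := Ideal.Quotient.mk_surjective y
          have hs : algebraMap S F s ∈ (g q).valSubring := by
            by_cases hs0 : algebraMap S F s = 0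
            · exact Or.inl hs0
            · right
              rw [pf_ord]
              have h3 := (Q q).valuation_le_one (K := F) s
              rw [← WithZero.log_le_log ((Valuation.ne_zero_iff _).2 hs0) one_ne_zero,
                WithZero.log_one] at h3
              linarith
          obtain ⟨r, hr⟩ := (g q).exists_residue h1 hs
          rw [IsScalarTower.algebraMap_apply k S F, ← map_sub, pf_small] at hr
          refine ⟨Ideal.Quotient.mk p (algebraMap k R r), ?_⟩
          rw [Algebra.linearMap_apply, Ideal.Quotient.algebraMap_mk_of_liesOver, Eq.comm,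
            Ideal.Quotient.mk_eq_mk_iff_sub_mem, ← IsScalarTower.algebraMap_apply]
          exact hr
      rw [← (LinearEquiv.ofBijective _ hb).finrank_eq, Module.finrank_self]
    rw [hin, mul_one, pf_ord, ← hφ, HeightOneSpectrum.valuation_of_algebraMap,
      HeightOneSpectrum.intValuation_eq_exp_neg_multiplicity _ hy, WithZero.log_exp, neg_neg,
      Ideal.IsDedekindDomain.ramificationIdx_eq_multiplicity p q.1 hmap0, hmap]
  have hginj : Function.Injective g := by
    intro q q' h
    refine Subtype.ext (Ideal.ext fun s => ?_)
    have h2 := pf_small (k := k) (F := F) (Q q) s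
    have h3 := pf_small (k := k) (F := F) (Q q') s
    have h4 : pf_place (k := k) (F := F) (Q q) = pf_place (Q q') := h
    rw [h4] at h2
    exact h2.symm.trans h3
  have hrange : {v : Place k F | 0 < v.ord φ} = Set.range g := by
    ext v
    constructor
    · intro hv
      have hv' : 0 < v.ord φ := hv
      have hi := hint v hv'
      let q : Ideal S :=
        { carrier := {s | v.Small (algebraMap S F s)}
          add_mem' := fun {a b} ha hb => by
            have : v.Small (algebraMap S F (a + b)) := by
              rw [map_add]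
              exact Small.add v ha hb
            exact this
          zero_mem' := Or.inl (map_zero _)
          smul_mem' := fun c {a} ha => by
            have : v.Small (algebraMap S F (c * a)) := by
              rw [map_mul, mul_comm]
              exact Small.mul v ha (hi c)
            exact this }
      have hmq : ∀ s : S, s ∈ q ↔ v.Small (algebraMap S F s) := fun s => Iff.rfl
      have hqp : q.IsPrime := by
        refine ⟨?_, ?_⟩
        · intro h
          have h2 : (1 : S) ∈ q := by
            rw [h]
            exact Submodule.mem_top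
          rw [hmq, map_one] at h2
          rcases h2 with h2 | h2
          · exact one_ne_zero h2
          · rw [v.ord_one] at h2
            exact lt_irrefl _ h2
        · intro a b hab
          rw [hmq, map_mul] at hab
          rw [hmq, hmq]
          rcases hab with hab | hab
          · rcases mul_eq_zero.1 hab with h | h
            · exact Or.inl (Or.inl h)
            · exact Or.inr (Or.inl h)
          · by_cases ha0 : algebraMap S F a = 0
            · exact Or.inl (Or.inl ha0)
            by_cases hb0 : algebraMap S F b = 0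
            · exact Or.inr (Or.inl hb0)
            rw [v.ord_mul _ _ ha0 hb0] at hab
            have ha1 := (hi a).resolve_left ha0
            have hb1 := (hi b).resolve_left hb0
            rcases lt_or_eq_of_le ha1 with h | h
            · exact Or.inl (Or.inr h)
            · right
              right
              omega
      have hxq' : algebraMap R S x ∈ q := by
        rw [hmq, hφ]
        exact Or.inr hv'
      have hl : q.LiesOver p := by
        constructor
        refine hm.eq_of_le ?_ ?_
        · exact (hqp.under R).ne_top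
        · rw [hp, Ideal.span_le, Set.singleton_subset_iff]
          exact hxq'
      refine ⟨⟨q, hqp, hl⟩, ?_⟩
      exact pf_eq _ v hi fun s hs => hs
    · rintro ⟨q, rfl⟩
      have h2 := (pf_small (k := k) (F := F) (Q q) (algebraMap R S x)).2 (hxq q)
      rw [hφ] at h2
      rcases h2 with h2 | h2
      · rw [← hφ] at h2
        exact absurd ((map_eq_zero_iff _ (IsFractionRing.injective S F)).1 h2) hy
      · exact h2
  rw [hrange]
  refine ⟨Set.finite_range g, ?_⟩
  rw [finsum_mem_range hginj, finsum_eq_sum_of_fintype, Finset.sum_congr rfl fun q _ => hgord q,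
    ← Nat.cast_sum, Ideal.sum_ramification_inertia_eq_finrank p S]

end ded

private theorem pf_fin [IsAlgClosed k] (hF : IsCurveField k F) {φ : F}
    (hφ : ∀ r : k, φ ≠ algebraMap k F r) :
    Transcendental k φ ∧ FiniteDimensional k⟮φ⟯ F := by
  have htr : Transcendental k φ := by
    intro halg
    obtain ⟨r, hr⟩ := minpoly.mem_range_of_degree_eq_one k φ
      (IsAlgClosed.degree_eq_one_of_irreducible k (minpoly.irreducible halg.isIntegral))
    exact hφ r hr.symm
  refine ⟨htr, ?_⟩
  have h1 : AlgebraicIndependent k (fun _ : PUnit.{u + 1} => φ) :=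
    (algebraicIndependent_unique_type_iff).2 htr
  have h2 : IsTranscendenceBasis k (fun _ : PUnit.{u + 1} => φ) :=
    h1.isTranscendenceBasis_of_trdeg_le_of_finite (by rw [hF.trdeg]; simp)
  have h3 := h2.isAlgebraic_field
  rw [Set.range_const] at h3
  have h4 := hF.fg
  have h5 : Algebra.EssFiniteType k⟮φ⟯ F := Algebra.EssFiniteType.of_comp k k⟮φ⟯ F
  exact Algebra.finite_of_essFiniteType_of_isAlgebraic

private theorem pf_max {φ : F} (h : Transcendental k φ) :
    IsPrincipalIdealRing (Algebra.adjoin k {φ}) ∧
      (Ideal.span {(⟨φ, Algebra.self_mem_adjoin_singleton k φ⟩ :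
        Algebra.adjoin k {φ})}).IsMaximal := by
  let e := Polynomial.algEquivOfTranscendental k φ h
  have he : e Polynomial.X = ⟨φ, Algebra.self_mem_adjoin_singleton k φ⟩ := by
    refine Subtype.ext ?_
    simp [e]
  constructor
  · exact IsPrincipalIdealRing.of_surjective e.toRingEquiv.toRingHom e.surjective
  · have h1 : RingHom.ker ((Polynomial.evalRingHom (0 : k)).comp
        e.symm.toRingEquiv.toRingHom) = Ideal.span {(⟨φ, Algebra.self_mem_adjoin_singleton k φ⟩ :
        Algebra.adjoin k {φ})} := by
      ext r
      rw [RingHom.mem_ker, Ideal.mem_span_singleton]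
      constructor
      · intro hr
        have h2 : Polynomial.X ∣ e.symm r := by
          rw [Polynomial.X_dvd_iff, Polynomial.coeff_zero_eq_eval_zero]
          exact hr
        have h3 := map_dvd e h2
        rw [he, AlgEquiv.apply_symm_apply] at h3
        exact h3
      · rintro ⟨c, rfl⟩
        rw [← he]
        change Polynomial.eval 0 (e.symm (e Polynomial.X * c)) = 0
        rw [map_mul, AlgEquiv.symm_apply_apply, Polynomial.eval_mul, Polynomial.eval_X, zero_mul]
    rw [← h1]
    refine RingHom.ker_isMaximal_of_surjective _ ?_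
    intro c
    refine ⟨e (Polynomial.C c), ?_⟩
    change Polynomial.eval 0 (e.symm (e (Polynomial.C c))) = c
    rw [AlgEquiv.symm_apply_apply, Polynomial.eval_C]

open scoped algebraAdjoinAdjoin in
private theorem pf_main [IsAlgClosed k] [CharZero k] (hF : IsCurveField k F) {φ : F}
    (hφ : ∀ r : k, φ ≠ algebraMap k F r) :
    {v : Place k F | 0 < v.ord φ}.Finite ∧
      ∑ᶠ v ∈ {v : Place k F | 0 < v.ord φ}, v.ord φ = (Module.finrank k⟮φ⟯ F : ℤ) := by
  obtain ⟨htr, hfin⟩ := pf_fin hF hφ
  obtain ⟨hpid, hm⟩ := pf_max htr
  have hsep : Algebra.IsSeparable k⟮φ⟯ F := inferInstance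
  let R := Algebra.adjoin k {φ}
  let S := integralClosure R F
  have i1 : IsDedekindDomain S := integralClosure.isDedekindDomain R k⟮φ⟯ F
  have i2 : Module.Finite R S := IsIntegralClosure.finite R k⟮φ⟯ F S
  have i3 : IsFractionRing S F := integralClosure.isFractionRing_of_finite_extension k⟮φ⟯ F
  have i4 : Module.Free R S := IsIntegralClosure.module_free R k⟮φ⟯ F S
  have hx : (⟨φ, Algebra.self_mem_adjoin_singleton k φ⟩ : R) ≠ 0 := by
    intro h
    refine hφ 0 ?_
    rw [map_zero]
    exact congrArg Subtype.val h
  have hint : ∀ v : Place k F, 0 < v.ord φ → ∀ s : S, algebraMap S F s ∈ v.valSubring := by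
    intro v hv s
    have hR : ∀ r : R, (r : F) ∈ v.valSubring := by
      intro r
      refine Algebra.adjoin_induction (p := fun a _ => a ∈ v.valSubring) ?_ ?_ ?_ ?_ r.2
      · intro a ha
        rw [Set.mem_singleton_iff.1 ha]
        exact Or.inr hv.le
      · exact fun r => v.algebraMap_mem r
      · exact fun a b _ _ ha hb => add_mem ha hb
      · exact fun a b _ _ ha hb => mul_mem ha hb
    let f : R →+* v.valSubring :=
      { toFun := fun r => ⟨r, hR r⟩
        map_one' := rfl
        map_mul' := fun _ _ => rfl
        map_zero' := rfl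
        map_add' := fun _ _ => rfl }
    obtain ⟨p, hp, hp0⟩ := s.2
    have h1 : IsIntegral v.valSubring (s : F) :=
      ⟨p.map f, hp.map f, by rw [Polynomial.eval₂_map]; exact hp0⟩
    obtain ⟨y, hy⟩ := (IsIntegrallyClosed.isIntegral_iff (R := v.valSubring) (K := F)).1 h1
    have h2 : algebraMap S F s = (y : F) := hy.symm
    rw [h2]
    exact y.2
  have h := pf_sum (S := S) (R := R) hF.trdeg ⟨φ, Algebra.self_mem_adjoin_singleton k φ⟩ hx hm
    (φ := φ) rfl hint
  rw [IsFractionRing.finrank_eq R k⟮φ⟯ S F]
  exact h

/-- An element `φ` of `F` not in `k` has finitely many zeros, and the sum of their orders is the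
degree `[F : k(φ)]`.
Proof.  `φ` is transcendental over `k` (`k` algebraically closed) and `[F : k(φ)] < ∞`
(transcendence degree `1`, finitely generated).  View `F` as an algebra over the principal ideal
domain `k[X]` by `X ↦ φ`; let `R` be the integral closure of `k[X]` in `F`: a Dedekind domain,
finite over `k[X]` (characteristic `0`), with field of fractions `F`
(`integralClosure.isDedekindDomain`, `IsIntegralClosure.finite`).  By
`Ideal.sum_ramification_inertia` for the maximal ideal `p = (X)` of `k[X]`:
`∑_{P over p} e_P f_P = [F : k(X)]`, and `f_P = 1`, since `R / P` is a finite extension of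
`k[X]/(X) = k`.  The places `v` with `ord φ > 0` correspond to the primes `P` over `p`: the
valuation ring of `v` is integrally closed and contains `k[φ]`, so it contains `R`; `P = m_v ∩ R`
is a prime over `p`; the localisation `R_P` is a discrete valuation ring contained in the valuation
ring of `v`, hence equal to it, and `v.ord φ = e_P`.  Conversely each `P` gives a place
(`exists_place_of_dvr` or the valuation of a height one prime). -/
theorem sum_zeros [IsAlgClosed k] [CharZero k] (hF : IsCurveField k F) {φ : F}
    (hφ : ∀ r : k, φ ≠ algebraMap k F r) :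
    {v : Place k F | 0 < v.ord φ}.Finite ∧
      ∑ᶠ v ∈ {v : Place k F | 0 < v.ord φ}, v.ord φ = (Module.finrank k⟮φ⟯ F : ℤ) ∧
      0 < Module.finrank k⟮φ⟯ F := by
  obtain ⟨h1, h2⟩ := pf_main hF hφ
  have h3 := (pf_fin hF hφ).2
  exact ⟨h1, h2, Module.finrank_pos⟩

private theorem pf_const (v : Place k F) (r : k) : v.ord (algebraMap k F r) = 0 := by
  by_cases hr : r = 0
  · rw [hr, map_zero, v.ord_zero]
  · exact v.ord_const r hr

private theorem pf_inv_ne {φ : F} (hφ : ∀ r : k, φ ≠ algebraMap k F r) :
    ∀ r : k, φ⁻¹ ≠ algebraMap k F r := by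
  intro r h
  refine hφ r⁻¹ ?_
  rw [map_inv₀, ← h, inv_inv]

private theorem pf_split {φ : F} :
    {v : Place k F | v.ord φ ≠ 0} = {v | 0 < v.ord φ} ∪ {v | 0 < v.ord φ⁻¹} := by
  ext v
  simp only [Set.mem_ofPred_eq, Set.mem_union, v.ord_inv]
  omega

/-- Finitely many zeros and poles (`sum_zeros` for `φ` and `φ⁻¹`; constants have order `0`). -/
theorem finite_ord_ne_zero [IsAlgClosed k] [CharZero k] (hF : IsCurveField k F) (a : F) :
    {v : Place k F | v.ord a ≠ 0}.Finite := by
  by_cases ha : ∃ r : k, a = algebraMap k F r
  · obtain ⟨r, rfl⟩ := ha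
    have h : {v : Place k F | v.ord (algebraMap k F r) ≠ 0} = ∅ := by
      ext v
      simp [pf_const]
    rw [h]
    exact Set.finite_empty
  · push Not at ha
    rw [pf_split]
    exact (sum_zeros hF ha).1.union (sum_zeros hF (pf_inv_ne ha)).1

/-- The product formula: `∑_v ord_v(a) = 0` (`k(φ) = k(φ⁻¹)`, `sum_zeros` for both). -/
theorem finsum_ord [IsAlgClosed k] [CharZero k] (hF : IsCurveField k F) (a : F) :
    ∑ᶠ v : Place k F, v.ord a = 0 := by
  by_cases ha : ∃ r : k, a = algebraMap k F r
  · obtain ⟨r, rfl⟩ := ha
    simp only [pf_const, finsum_zero]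
  · push Not at ha
    have h1 := sum_zeros hF ha
    have h2 := sum_zeros hF (pf_inv_ne ha)
    have hadj : k⟮a⁻¹⟯ = k⟮a⟯ := by
      apply le_antisymm
      · rw [IntermediateField.adjoin_simple_le_iff]
        exact inv_mem (IntermediateField.mem_adjoin_simple_self k a)
      · rw [IntermediateField.adjoin_simple_le_iff]
        have h := inv_mem (IntermediateField.mem_adjoin_simple_self k a⁻¹)
        rwa [inv_inv] at h
    have h3 : ∑ᶠ v : Place k F, v.ord a =
        ∑ᶠ v ∈ {v : Place k F | v.ord a ≠ 0}, v.ord a := by
      rw [← finsum_mem_univ, ← finsum_mem_inter_support (fun v : Place k F => v.ord a),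
        Set.univ_inter]
      rfl
    have hdis : Disjoint {v : Place k F | 0 < v.ord a} {v : Place k F | 0 < v.ord a⁻¹} := by
      rw [Set.disjoint_left]
      intro v hv hv'
      have h4 : 0 < v.ord a := hv
      have h5 : 0 < v.ord a⁻¹ := hv'
      rw [v.ord_inv] at h5
      omega
    rw [h3, pf_split, finsum_mem_union hdis h1.1 h2.1, h1.2.1]
    have h4 : ∑ᶠ v ∈ {v : Place k F | 0 < v.ord a⁻¹}, v.ord a =
        -∑ᶠ v ∈ {v : Place k F | 0 < v.ord a⁻¹}, v.ord a⁻¹ := by
      rw [← finsum_mem_neg_distrib (fun v : Place k F => v.ord a⁻¹) h2.1]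
      refine finsum_mem_congr rfl fun v _ => ?_
      rw [v.ord_inv, neg_neg]
    rw [h4, h2.2.1, hadj, add_neg_cancel]

/-- Non-constant elements have zeros (and poles, apply it to the inverse). -/
theorem exists_zero [IsAlgClosed k] [CharZero k] (hF : IsCurveField k F) {φ : F}
    (hφ : ∀ r : k, φ ≠ algebraMap k F r) : ∃ v : Place k F, 0 < v.ord φ := by
  by_contra hn
  push Not at hn
  obtain ⟨h1, h2, h3⟩ := sum_zeros hF hφ
  have h4 : {v : Place k F | 0 < v.ord φ} = ∅ := by
    ext v
    simp [hn v]
  rw [h4, finsum_mem_empty] at h2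
  omega

/-- There are places (`F ≠ k`, `exists_zero`). -/
theorem nonempty_place [IsAlgClosed k] [CharZero k] (hF : IsCurveField k F) :
    Nonempty (Place k F) := by
  by_contra hn
  have h1 : ∀ φ : F, ∃ r : k, φ = algebraMap k F r := by
    intro φ
    by_contra hc
    push Not at hc
    obtain ⟨v, -⟩ := exists_zero hF hc
    exact hn ⟨v⟩
  have h2 : Algebra.IsAlgebraic k F := ⟨fun φ => by
    obtain ⟨r, rfl⟩ := h1 φ
    exact isAlgebraic_algebraMap r⟩
  have h3 := hF.trdeg
  have h4 : Algebra.trdeg k F = 0 := trdeg_eq_zero
  exact zero_ne_one (h4.symm.trans h3)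

end Place

end ProjVar

end Pool.Agent.MP9a7843
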