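import Pool.Agent.Lib.MP_9a7843_ag.Cen
import Pool.Agent.Lib.MP_9a7843_ag.ProdForm

/-!
# Degrees of Cartier divisors on curves
-/

noncomputable section

open MvPolynomial

namespace Pool.Agent.MP9a7843

namespace ProjVar

universe u

variable {k : Type u} [Field k] {Y X : ProjVar k} {F : Type u} [Field F] [Algebra k F]
  {c : Y.ι → F}

/-! ### Degrees -/

/-- The base point used in the definition of `deg`. -/
def base (Y : ProjVar k) (c : Y.ι → F) : Y.ι → k :=
  Classical.epsilon fun y₀ => ∃ v₀ : Place k F, Y.IsCentre c v₀ y₀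

theorem deg_def (D : Y.CaDiv) : Y.deg c D =
    ∑ᶠ v : Place k F, v.ord (Y.ev c (D.eq (Y.centre c v) / D.eq (Y.base c))) := rfl

/-- `base c` is a closed point in the closure of `c` (there are places, `nonempty_place`). -/
theorem base_spec [IsAlgClosed k] [CharZero k] (hF : IsCurveField k F) (hc : Y.IsPt c) :
    Y.IsPt (Y.base c) ∧ Spec c (Y.base c) := by
  obtain ⟨v₀⟩ := Place.nonempty_place hF
  obtain ⟨y, hy⟩ := exists_isCentre hF hc v₀
  have h : ∃ v : Place k F, Y.IsCentre c v (Y.base c) :=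
    Classical.epsilon_spec (p := fun y₀ => ∃ v₀ : Place k F, Y.IsCentre c v₀ y₀) ⟨y, v₀, hy⟩
  obtain ⟨v, hv⟩ := h
  exact ⟨hv.isPt, hv.spec⟩

/-- A local equation at a closed point in the closure of `c`, divided by any other, is a unit at
`c` (`CaDiv.ratio_mem_loc`). -/
theorem CaDiv.unitAt [IsAlgClosed k] (D : Y.CaDiv) (hc : Y.IsPt c) {y y' : Y.ι → k}
    (hy : Y.IsPt y) (hy' : Y.IsPt y') (hs : Spec c y) (hs' : Spec c y') :
    Y.UnitAt c (D.eq y / D.eq y') :=
  ⟨D.ratio_mem_loc hc hy hy' hs hs', by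
    rw [inv_div]
    exact D.ratio_mem_loc hc hy' hy hs' hs⟩

private theorem UnitAt.ev_ne {a : Y.K} (hc : Y.IsPt c) (ha0 : a ≠ 0) (ha : Y.UnitAt c a) :
    Y.ev c a ≠ 0 := ev_ne_zero hc ha0 ha.1 ha.2

/-- `D.eq y / φ` is a unit at `c` for every closed point `y` in the closure of `c`. -/
private theorem unit_div [IsAlgClosed k] (hc : Y.IsPt c) (D : Y.CaDiv) {φ : Y.K}
    {y₀ y : Y.ι → k} (hy₀ : Y.IsPt y₀) (hs : Spec c y₀)
    (h : Y.UnitAt c (D.eq y₀ / φ)) (hy : Y.IsPt y) (hsy : Spec c y) :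
    Y.UnitAt c (D.eq y / φ) := by
  have h1 := (D.unitAt hc hy hy₀ hsy hs).mul h
  rwa [div_mul_div_cancel₀ (D.eq_ne_zero y₀ hy₀)] at h1

/-- Finiteness: by `CaDiv.exists_finite` there are finitely many `y_1, …, y_r` such that at the
centre of each place `v` the local equation is `D.eq y_s` up to a unit for some `s`; then
`D.eq y_s / φ` is a unit at `c` and the order at `v` is `ord_v (ev c (D.eq y_s / φ))`, which is
nonzero for finitely many `v` only (`finite_ord_ne_zero`). -/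
theorem finite_ord_eq [IsAlgClosed k] [CharZero k] (hF : IsCurveField k F) (hc : Y.IsPt c)
    (D : Y.CaDiv) {φ : Y.K} (hφ : φ ≠ 0) {y₀ : Y.ι → k} (hy₀ : Y.IsPt y₀) (hs : Spec c y₀)
    (h : Y.UnitAt c (D.eq y₀ / φ)) (y : Place k F → Y.ι → k)
    (hy : ∀ v, Y.IsCentre c v (y v)) :
    {v : Place k F | v.ord (Y.ev c (D.eq (y v) / φ)) ≠ 0}.Finite := by
  obtain ⟨s, hs1, hs2⟩ := D.exists_finite
  refine Set.Finite.subset (s.finite_toSet.biUnion
    (t := fun y' => {v : Place k F | v.ord (Y.ev c (D.eq y' / φ)) ≠ 0})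
    fun y' _ => Place.finite_ord_ne_zero hF _) ?_
  intro v hv
  obtain ⟨y', hy', h1, h2⟩ := hs2 (y v) (hy v).isPt
  have hne := D.eq_ne_zero y' (hs1 y' hy')
  have hne2 := D.eq_ne_zero (y v) (hy v).isPt
  have hu : Y.UnitAt (y v) (D.eq (y v) / D.eq y') := ⟨h1, by
    rw [inv_div]
    exact h2⟩
  have huc : Y.UnitAt c (D.eq (y v) / D.eq y') := hu.of_spec (hy v).spec
  have hv1 : Y.UnitAt c (D.eq (y v) / φ) := unit_div hc D hy₀ hs h (hy v).isPt (hy v).spec
  have hv2 : Y.UnitAt c (D.eq y' / φ) := by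
    have h3 := huc.inv.mul hv1
    rwa [inv_div, div_mul_div_cancel₀ hne2] at h3
  have e : D.eq (y v) / φ = (D.eq (y v) / D.eq y') * (D.eq y' / φ) := by
    rw [div_mul_div_cancel₀ hne]
  refine Set.mem_biUnion hy' ?_
  rw [Set.mem_ofPred_eq] at hv ⊢
  rw [e, ev_mul hc huc.1 hv2.1, v.ord_mul _ _ (huc.ev_ne hc (div_ne_zero hne2 hne))
    (hv2.ev_ne hc (div_ne_zero hne hφ)), (hy v).ord_unit hc hu, zero_add] at hv
  exact hv

/-- The degree can be computed after dividing by any `φ` such that `D.eq y₀ / φ` is a unit at `c`,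
and with any choice of the centres.  (The difference is `∑_v ord_v` of a fixed element of `F`,
which is `0` by the product formula, and orders of units at the centre.) -/
theorem deg_eq [IsAlgClosed k] [CharZero k] (hF : IsCurveField k F) (hc : Y.IsPt c)
    (D : Y.CaDiv) {φ : Y.K} (hφ : φ ≠ 0) {y₀ : Y.ι → k} (hy₀ : Y.IsPt y₀) (hs : Spec c y₀)
    (h : Y.UnitAt c (D.eq y₀ / φ)) (y : Place k F → Y.ι → k)
    (hy : ∀ v, Y.IsCentre c v (y v)) :
    Y.deg c D = ∑ᶠ v : Place k F, v.ord (Y.ev c (D.eq (y v) / φ)) := by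
  obtain ⟨hb1, hb2⟩ := base_spec hF hc
  have hbne := D.eq_ne_zero _ hb1
  have hbu : Y.UnitAt c (φ / D.eq (Y.base c)) := by
    have h1 := (unit_div hc D hy₀ hs h hb1 hb2).inv
    rwa [inv_div] at h1
  have hv : ∀ v : Place k F, v.ord (Y.ev c (D.eq (Y.centre c v) / D.eq (Y.base c))) =
      v.ord (Y.ev c (D.eq (y v) / φ)) + v.ord (Y.ev c (φ / D.eq (Y.base c))) := by
    intro v
    have hcen := isCentre_centre hF hc v
    have hne1 := D.eq_ne_zero _ hcen.isPt
    have hne2 := D.eq_ne_zero _ (hy v).isPt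
    obtain ⟨r, hr, hr'⟩ := (hy v).unique hcen
    have hu : Y.UnitAt (y v) (D.eq (Y.centre c v) / D.eq (y v)) := by
      rw [hr']
      have h1 := D.eq_smul (hy v).isPt hr
      exact ⟨h1.1, by
        rw [inv_div]
        exact h1.2⟩
    have huc : Y.UnitAt c (D.eq (Y.centre c v) / D.eq (y v)) := hu.of_spec (hy v).spec
    have hv1 : Y.UnitAt c (D.eq (y v) / φ) := unit_div hc D hy₀ hs h (hy v).isPt (hy v).spec
    have e : D.eq (Y.centre c v) / D.eq (Y.base c) =
        (D.eq (Y.centre c v) / D.eq (y v)) * ((D.eq (y v) / φ) * (φ / D.eq (Y.base c))) := by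
      rw [div_mul_div_cancel₀ hφ, div_mul_div_cancel₀ hne2]
    rw [e, ev_mul hc huc.1 (hv1.mul hbu).1, ev_mul hc hv1.1 hbu.1,
      v.ord_mul _ _ (huc.ev_ne hc (div_ne_zero hne1 hne2))
        (mul_ne_zero (hv1.ev_ne hc (div_ne_zero hne2 hφ)) (hbu.ev_ne hc (div_ne_zero hφ hbne))),
      v.ord_mul _ _ (hv1.ev_ne hc (div_ne_zero hne2 hφ)) (hbu.ev_ne hc (div_ne_zero hφ hbne)),
      (hy v).ord_unit hc hu, zero_add]
  rw [deg_def, finsum_congr hv, finsum_add_distrib (finite_ord_eq hF hc D hφ hy₀ hs h y hy)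
    (Place.finite_ord_ne_zero hF _), Place.finsum_ord hF, add_zero]

end ProjVar

end Pool.Agent.MP9a7843
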