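import Pool.Agent.Lib.MP_9a7843_ag.Deg

/-!
# Properties of the degree
-/

noncomputable section

open MvPolynomial

namespace Pool.Agent.MP9a7843

namespace ProjVar

universe u

variable {k : Type u} [Field k] {Y X : ProjVar k} {F : Type u} [Field F] [Algebra k F]
  {c : Y.ι → F}

private theorem unit_ne {a : Y.K} (hc : Y.IsPt c) (h0 : a ≠ 0) (ha : Y.UnitAt c a) :
    Y.ev c a ≠ 0 := ev_ne_zero hc h0 ha.1 ha.2

/-- The unit at `c` in the definition of the degree. -/
private theorem unit_base [IsAlgClosed k] [CharZero k] (hF : IsCurveField k F) (hc : Y.IsPt c)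
    (D : Y.CaDiv) (v : Place k F) : D.eq (Y.centre c v) / D.eq (Y.base c) ≠ 0 ∧
      Y.UnitAt c (D.eq (Y.centre c v) / D.eq (Y.base c)) := by
  obtain ⟨h1, h2⟩ := base_spec hF hc
  have h3 := isCentre_centre hF hc v
  exact ⟨div_ne_zero (D.eq_ne_zero _ h3.isPt) (D.eq_ne_zero _ h1),
    D.unitAt hc h3.isPt h1 h3.spec h2⟩

private theorem finite_base [IsAlgClosed k] [CharZero k] (hF : IsCurveField k F)
    (hc : Y.IsPt c) (D : Y.CaDiv) :
    (Function.support fun v : Place k F =>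
      v.ord (Y.ev c (D.eq (Y.centre c v) / D.eq (Y.base c)))).Finite := by
  obtain ⟨h1, h2⟩ := base_spec hF hc
  refine finite_ord_eq hF hc D (D.eq_ne_zero _ h1) h1 h2 ?_ (fun v => Y.centre c v)
    (fun v => isCentre_centre hF hc v)
  rw [div_self (D.eq_ne_zero _ h1)]
  exact unitAt_one

theorem deg_add [IsAlgClosed k] [CharZero k] (hF : IsCurveField k F) (hc : Y.IsPt c)
    (D E : Y.CaDiv) : Y.deg c (D.add E) = Y.deg c D + Y.deg c E := by
  rw [deg_def, deg_def, deg_def, ← finsum_add_distrib (finite_base hF hc D)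
    (finite_base hF hc E)]
  refine finsum_congr fun v => ?_
  obtain ⟨hD0, hD⟩ := unit_base hF hc D v
  obtain ⟨hE0, hE⟩ := unit_base hF hc E v
  change v.ord (Y.ev c ((D.eq (Y.centre c v) * E.eq (Y.centre c v)) /
    (D.eq (Y.base c) * E.eq (Y.base c)))) = _
  rw [mul_div_mul_comm, ev_mul hc hD.1 hE.1,
    v.ord_mul _ _ (unit_ne hc hD0 hD) (unit_ne hc hE0 hE)]

theorem deg_neg [IsAlgClosed k] [CharZero k] (hF : IsCurveField k F) (hc : Y.IsPt c)
    (D : Y.CaDiv) : Y.deg c D.neg = -Y.deg c D := by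
  rw [deg_def, deg_def, ← finsum_neg_distrib]
  refine finsum_congr fun v => ?_
  obtain ⟨hD0, hD⟩ := unit_base hF hc D v
  change v.ord (Y.ev c ((D.eq (Y.centre c v))⁻¹ / (D.eq (Y.base c))⁻¹)) = _
  rw [← inv_div_inv, inv_inv, inv_inv, ← inv_div, ev_inv hc hD.1 (unit_ne hc hD0 hD), v.ord_inv]

private theorem ev_zpow {a : Y.K} (hc : Y.IsPt c) (h0 : a ≠ 0) (ha : Y.UnitAt c a) (n : ℤ) :
    Y.ev c (a ^ n) = Y.ev c a ^ n := by
  obtain ⟨m, rfl | rfl⟩ := n.eq_nat_or_neg
  · rw [zpow_natCast, zpow_natCast, ev_pow hc ha.1]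
  · rw [zpow_neg, zpow_natCast, zpow_neg, zpow_natCast, ← inv_pow, ev_pow hc ha.2,
      ev_inv hc ha.1 (unit_ne hc h0 ha), inv_pow]

theorem deg_zsmul [IsAlgClosed k] [CharZero k] (hF : IsCurveField k F) (hc : Y.IsPt c)
    (n : ℤ) (D : Y.CaDiv) : Y.deg c (D.zsmul n) = n * Y.deg c D := by
  rw [deg_def, deg_def, mul_finsum]
  refine finsum_congr fun v => ?_
  obtain ⟨hD0, hD⟩ := unit_base hF hc D v
  change v.ord (Y.ev c ((D.eq (Y.centre c v)) ^ n / (D.eq (Y.base c)) ^ n)) = _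
  rw [← div_zpow, ev_zpow hc hD0 hD, v.ord_zpow]

theorem deg_prin [IsAlgClosed k] [CharZero k] (hF : IsCurveField k F) (hc : Y.IsPt c)
    {φ : Y.K} (hφ : φ ≠ 0) : Y.deg c (CaDiv.prin φ hφ) = 0 := by
  rw [deg_def, ← finsum_zero (α := Place k F)]
  refine finsum_congr fun v => ?_
  change v.ord (Y.ev c (φ / φ)) = 0
  rw [div_self hφ, ev_one hc, v.ord_one]

private theorem deg_lin [IsAlgClosed k] [CharZero k] (hF : IsCurveField k F) (hc : Y.IsPt c)
    {D E : Y.CaDiv} {φ : Y.K} (hφ : φ ≠ 0)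
    (h : ∀ y : Y.ι → k, Y.IsPt y → Y.UnitAt y (D.eq y / (E.eq y * φ))) :
    Y.deg c D = Y.deg c E := by
  obtain ⟨h1, h2⟩ := base_spec hF hc
  have hE1 := E.eq_ne_zero _ h1
  rw [deg_eq hF hc D (mul_ne_zero hE1 hφ) h1 h2 ((h _ h1).of_spec h2) (fun v => Y.centre c v)
    (fun v => isCentre_centre hF hc v), deg_def]
  refine finsum_congr fun v => ?_
  have h3 := isCentre_centre hF hc v
  obtain ⟨hE0, hE⟩ := unit_base hF hc E v
  have hE2 := E.eq_ne_zero _ h3.isPt
  have hD2 := D.eq_ne_zero _ h3.isPt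
  have hu := h _ h3.isPt
  have huc : Y.UnitAt c _ := hu.of_spec h3.spec
  have hu0 : D.eq (Y.centre c v) / (E.eq (Y.centre c v) * φ) ≠ 0 :=
    div_ne_zero hD2 (mul_ne_zero hE2 hφ)
  have e : D.eq (Y.centre c v) / (E.eq (Y.base c) * φ) =
      (D.eq (Y.centre c v) / (E.eq (Y.centre c v) * φ)) *
        (E.eq (Y.centre c v) / E.eq (Y.base c)) := by
    field_simp
  change v.ord (Y.ev c (D.eq (Y.centre c v) / (E.eq (Y.base c) * φ))) = _
  rw [e, ev_mul hc huc.1 hE.1, v.ord_mul _ _ (unit_ne hc hu0 huc) (unit_ne hc hE0 hE),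
    h3.ord_unit hc hu, zero_add]

theorem deg_equiv [IsAlgClosed k] [CharZero k] (hF : IsCurveField k F) (hc : Y.IsPt c)
    {D E : Y.CaDiv} (h : D.Equiv E) : Y.deg c D = Y.deg c E := by
  refine deg_lin hF hc (φ := 1) one_ne_zero fun y hy => ?_
  rw [mul_one]
  exact h y hy

/-- Linearly equivalent divisors have the same degree. -/
theorem deg_linEquiv [IsAlgClosed k] [CharZero k] (hF : IsCurveField k F) (hc : Y.IsPt c)
    {D E : Y.CaDiv} {φ : Y.K} (hφ : φ ≠ 0)
    (h : ∀ y : Y.ι → k, Y.IsPt y → Y.UnitAt y (D.eq y / (E.eq y * φ))) :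
    Y.deg c D = Y.deg c E := deg_lin hF hc hφ h

/-- An effective divisor which does not contain the curve has non-negative degree: take `φ = 1`
in `deg_eq` (`E.eq y₀` is a unit at `c` as it is regular at `y₀` with nonzero value at `c`). -/
theorem deg_nonneg [IsAlgClosed k] [CharZero k] (hF : IsCurveField k F) (hc : Y.IsPt c)
    {E : Y.CaDiv} (hE : E.Effective) {y₀ : Y.ι → k} (hy₀ : Y.IsPt y₀) (hs : Spec c y₀)
    (h0 : Y.ev c (E.eq y₀) ≠ 0) : 0 ≤ Y.deg c E := by
  have h1 : E.eq y₀ ∈ Y.loc c := hs.loc_le (hE y₀ hy₀)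
  have hu : Y.UnitAt c (E.eq y₀ / 1) := by
    rw [div_one]
    exact ⟨h1, inv_mem_loc hc h1 h0⟩
  rw [deg_eq hF hc E one_ne_zero hy₀ hs hu (fun v => Y.centre c v)
    (fun v => isCentre_centre hF hc v)]
  refine finsum_nonneg fun v => ?_
  have h3 := isCentre_centre hF hc v
  have h4 := h3.ev_mem hc (hE _ h3.isPt)
  change 0 ≤ v.ord (Y.ev c (E.eq (Y.centre c v) / 1))
  rw [div_one]
  rcases h4 with h4 | h4
  · rw [h4, v.ord_zero]
  · exact h4

theorem deg_smul {r : F} (hr : r ≠ 0) (D : Y.CaDiv) : Y.deg (r • c) D = Y.deg c D := by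
  have h1 : ∀ v : Place k F, Y.IsCentre (r • c) v = Y.IsCentre c v := fun v => by
    funext y
    exact propext (isCentre_smul_iff hr)
  have h2 : ∀ v : Place k F, Y.centre (r • c) v = Y.centre c v := fun v => by
    unfold centre
    rw [h1]
  have h3 : Y.base (r • c) = Y.base c := by
    unfold base
    simp only [h1]
  rw [deg_def, deg_def]
  refine finsum_congr fun v => ?_
  rw [h2, h3, ev_smul hr]

/-- Projection formula. -/
theorem deg_pull [IsAlgClosed k] [CharZero k] (hF : IsCurveField k F) (hc : Y.IsPt c)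
    {f : Hom Y X} (hf : f.Dominant) (D : X.CaDiv) :
    Y.deg c (hf.pull D) = X.deg (f.app c) D := by
  have hc' : X.IsPt (f.app c) := f.isPt_app hc
  obtain ⟨h1, h2⟩ := base_spec hF hc
  have h1' : X.IsPt (f.app (Y.base c)) := f.isPt_app h1
  have h2' : Spec (f.app c) (f.app (Y.base c)) := f.spec_app hc h1 h2
  have hne := D.eq_ne_zero _ h1'
  have hu : X.UnitAt (f.app c) (D.eq (f.app (Y.base c)) / D.eq (f.app (Y.base c))) := by
    rw [div_self hne]
    exact unitAt_one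
  rw [deg_eq hF hc' D hne h1' h2' hu (fun v => f.app (Y.centre c v))
    (fun v => (isCentre_centre hF hc v).app hc f), deg_def]
  refine finsum_congr fun v => ?_
  have h3 := isCentre_centre hF hc v
  have h3' := h3.app hc f
  have h4 := D.unitAt hc' h3'.isPt h1' h3'.spec h2'
  change v.ord (Y.ev c (X.ev f.coord (D.eq (f.app (Y.centre c v))) /
    X.ev f.coord (D.eq (f.app (Y.base c))))) =
    v.ord (X.ev (f.app c) (D.eq (f.app (Y.centre c v)) / D.eq (f.app (Y.base c))))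
  rw [← hf.emb_apply, ← hf.emb_apply, ← map_div₀, hf.emb_apply, (f.ev_coord_mem hc h4.1).2.2]

/-- Degree of a divisor which is the pull-back of a hyperplane section under a map to a projective
space given by functions `w_i`: `D = div φ - div (w)`, that is, the local equation is
`φ / w_j` up to a unit wherever all `w_i / w_j` are regular.  If `γ` are homogeneous coordinates
of the image of the generic point of the curve, the degree is `∑_v - min_i ord_v(γ_i)`. -/
theorem deg_eq_minOrd [IsAlgClosed k] [CharZero k] (hF : IsCurveField k F) (hc : Y.IsPt c)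
    (D : Y.CaDiv) {κ : Type*} [Fintype κ] (w : κ → Y.K) {φ : Y.K} (hφ : φ ≠ 0)
    (hw : ∀ y : Y.ι → k, Y.IsPt y → ∃ j, w j ≠ 0 ∧ (∀ i, w i / w j ∈ Y.loc y) ∧
      Y.UnitAt y (D.eq y * w j / φ))
    (γ : κ → F) (hγ : ∃ i, γ i ≠ 0)
    (h : ∀ j, w j ≠ 0 → (∀ i, w i / w j ∈ Y.loc c) → ∀ i, γ i = Y.ev c (w i / w j) * γ j) :
    Y.deg c D = ∑ᶠ v : Place k F, -v.minOrd γ := by
  have hγj : ∀ j, w j ≠ 0 → (∀ i, w i / w j ∈ Y.loc c) → γ j ≠ 0 := by
    intro j h1 h2 h3
    obtain ⟨i, hi⟩ := hγ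
    refine hi ?_
    rw [h j h1 h2 i, h3, mul_zero]
  obtain ⟨h1, h2⟩ := base_spec hF hc
  obtain ⟨j₀, hj₀, hl₀, hu₀⟩ := hw _ h1
  have hl₀' : ∀ i, w i / w j₀ ∈ Y.loc c := fun i => h2.loc_le (hl₀ i)
  have hg₀ := hγj j₀ hj₀ hl₀'
  have hφ' : φ / w j₀ ≠ 0 := div_ne_zero hφ hj₀
  have hu : Y.UnitAt c (D.eq (Y.base c) / (φ / w j₀)) := by
    rw [div_div_eq_mul_div]
    exact hu₀.of_spec h2
  have hfin := finite_ord_eq hF hc D hφ' h1 h2 hu (fun v => Y.centre c v)
    (fun v => isCentre_centre hF hc v)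
  have hterm : ∀ v : Place k F, -v.minOrd γ =
      v.ord (Y.ev c (D.eq (Y.centre c v) / (φ / w j₀))) - v.ord (γ j₀) := by
    intro v
    have h3 := isCentre_centre hF hc v
    obtain ⟨j, hj, hl, huy⟩ := hw _ h3.isPt
    have hl' : ∀ i, w i / w j ∈ Y.loc c := fun i => h3.spec.loc_le (hl i)
    have hg := hγj j hj hl'
    have hD := D.eq_ne_zero _ h3.isPt
    have huc : Y.UnitAt c (D.eq (Y.centre c v) * w j / φ) := huy.of_spec h3.spec
    have hu0 : D.eq (Y.centre c v) * w j / φ ≠ 0 := div_ne_zero (mul_ne_zero hD hj) hφ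
    have e : D.eq (Y.centre c v) / (φ / w j₀) =
        (D.eq (Y.centre c v) * w j / φ) * (w j₀ / w j) := by
      field_simp
    have hγ₀ := h j hj hl' j₀
    have hev : Y.ev c (w j₀ / w j) ≠ 0 := by
      intro h0
      rw [h0, zero_mul] at hγ₀
      exact hg₀ hγ₀
    have hmin : v.minOrd γ = v.ord (γ j) := by
      refine v.minOrd_eq γ hg fun i => ?_
      rw [h j hj hl' i, mul_div_cancel_right₀ _ hg]
      exact h3.ev_mem hc (hl i)
    rw [hmin, e, ev_mul hc huc.1 (hl' j₀), v.ord_mul _ _ (unit_ne hc hu0 huc) hev,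
      h3.ord_unit hc huy, hγ₀, v.ord_mul _ _ hev hg]
    ring
  rw [deg_eq hF hc D hφ' h1 h2 hu (fun v => Y.centre c v)
    (fun v => isCentre_centre hF hc v), finsum_congr hterm,
    finsum_sub_distrib hfin (Place.finite_ord_ne_zero hF _), Place.finsum_ord hF, sub_zero]

/-- The degree of the hyperplane section. -/
theorem deg_hyperplane [IsAlgClosed k] [CharZero k] (hF : IsCurveField k F) (hc : Y.IsPt c) :
    Y.deg c Y.hyperplane = ∑ᶠ v : Place k F, -v.minOrd c := by
  have hi : Y.z (Classical.epsilon fun i => Y.z i ≠ 0) ≠ 0 :=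
    Classical.epsilon_spec Y.exists_ne_zero
  refine deg_eq_minOrd hF hc Y.hyperplane Y.z hi ?_ c hc.1 ?_
  · intro y hy
    have hj : y (Classical.epsilon fun j => y j ≠ 0) ≠ 0 := Classical.epsilon_spec hy.1
    have hz := z_ne_zero hy hj
    refine ⟨_, hz, fun i => coord_div_mem i hj, ?_⟩
    change Y.UnitAt y (Y.z (Classical.epsilon fun i => Y.z i ≠ 0) /
      Y.z (Classical.epsilon fun j => y j ≠ 0) * Y.z (Classical.epsilon fun j => y j ≠ 0) /
      Y.z (Classical.epsilon fun i => Y.z i ≠ 0))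
    rw [div_mul_cancel₀ _ hz, div_self hi]
    exact unitAt_one
  · intro j hj hl i
    have hcj : c j ≠ 0 := by
      intro h0
      obtain ⟨i₀, hi₀⟩ := hc.1
      have hz₀ := z_ne_zero hc hi₀
      have h1 := ev_mul hc (hl i₀) (coord_div_mem j hi₀)
      rw [ev_coord_div hc j hi₀, h0, zero_div, mul_zero, div_mul_div_cancel₀ hj,
        div_self hz₀, ev_one hc] at h1
      exact one_ne_zero h1
    rw [ev_coord_div hc i hcj, div_mul_cancel₀ _ hcj]

/-- Hyperplane sections have non-negative degree (`0 ≤ ord_v(c_j) - min ord_v`, `c_j ≠ 0` fixed,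
and the product formula). -/
theorem deg_hyperplane_nonneg [IsAlgClosed k] [CharZero k] (hF : IsCurveField k F)
    (hc : Y.IsPt c) : 0 ≤ Y.deg c Y.hyperplane := by
  rw [deg_hyperplane hF hc]
  obtain ⟨j, hj⟩ := hc.1
  by_cases hfin : (Function.support fun v : Place k F => -v.minOrd c).Finite
  · have h1 : ∑ᶠ v : Place k F, -v.minOrd c =
        ∑ᶠ v : Place k F, (v.ord (c j) + -v.minOrd c) := by
      rw [finsum_add_distrib (Place.finite_ord_ne_zero hF _) hfin, Place.finsum_ord hF, zero_add]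
    rw [h1]
    refine finsum_nonneg fun v => ?_
    obtain ⟨j', hj', h2, h3⟩ := v.exists_minOrd c hc.1
    rw [h3]
    rcases h2 j with h4 | h4
    · exact absurd h4 (div_ne_zero hj hj')
    · rw [v.ord_div hj hj'] at h4
      linarith
  · rw [finsum_of_infinite_support hfin]

end ProjVar

end Pool.Agent.MP9a7843
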