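import Pool.Agent.Lib.MP_9a7843_ag.Null

/-!
# Operations on Cartier divisors
-/

noncomputable section

open MvPolynomial

namespace Pool.Agent.MP9a7843

namespace ProjVar

universe u

variable {k : Type u} [Field k] {Y X : ProjVar k} {F : Type u} [Field F] [Algebra k F]
  {c : Y.ι → F}

/-- `a` is a unit of the local ring at `c` (or `a = 0`, which is excluded where it matters). -/
def UnitAt (Y : ProjVar k) (c : Y.ι → F) (a : Y.K) : Prop := a ∈ Y.loc c ∧ a⁻¹ ∈ Y.loc c

theorem UnitAt.mul {a b : Y.K} (ha : Y.UnitAt c a) (hb : Y.UnitAt c b) : Y.UnitAt c (a * b) :=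
  ⟨mul_mem ha.1 hb.1, by rw [mul_inv]; exact mul_mem ha.2 hb.2⟩

theorem UnitAt.inv {a : Y.K} (ha : Y.UnitAt c a) : Y.UnitAt c a⁻¹ :=
  ⟨ha.2, by simpa using ha.1⟩

theorem unitAt_one : Y.UnitAt c 1 := ⟨one_mem _, by simp⟩

theorem UnitAt.div {a b : Y.K} (ha : Y.UnitAt c a) (hb : Y.UnitAt c b) : Y.UnitAt c (a / b) := by
  rw [div_eq_mul_inv]
  exact ha.mul hb.inv

theorem UnitAt.of_spec {F' : Type u} [Field F'] [Algebra k F'] {y : Y.ι → F'} (h : Spec c y)
    {a : Y.K} (ha : Y.UnitAt y a) : Y.UnitAt c a :=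
  ⟨h.loc_le ha.1, h.loc_le ha.2⟩

private theorem unitAt_zpow {a : Y.K} (ha : Y.UnitAt c a) (n : ℤ) : Y.UnitAt c (a ^ n) := by
  cases n with
  | ofNat m =>
    refine ⟨?_, ?_⟩
    · rw [Int.ofNat_eq_natCast, zpow_natCast]
      exact pow_mem ha.1 m
    · rw [Int.ofNat_eq_natCast, zpow_natCast, ← inv_pow]
      exact pow_mem ha.2 m
  | negSucc m =>
    refine ⟨?_, ?_⟩
    · rw [zpow_negSucc, ← inv_pow]
      exact pow_mem ha.2 (m + 1)
    · rw [zpow_negSucc, inv_inv]
      exact pow_mem ha.1 (m + 1)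

/-- Two Cartier divisors are equal (as divisors): local equations differ by units. -/
def CaDiv.Equiv (D E : Y.CaDiv) : Prop := ∀ y : Y.ι → k, Y.IsPt y → Y.UnitAt y (D.eq y / E.eq y)

namespace CaDiv

/-- The sum of two Cartier divisors: multiply the local equations (common neighbourhood:
product of the two forms). -/
def add (D E : Y.CaDiv) : Y.CaDiv where
  eq y := D.eq y * E.eq y
  eq_ne_zero := fun y hy => mul_ne_zero (D.eq_ne_zero y hy) (E.eq_ne_zero y hy)
  locally := by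
    intro y hy
    obtain ⟨d, H, hH, hy0, h⟩ := D.locally y hy
    obtain ⟨d', H', hH', hy0', h'⟩ := E.locally y hy
    refine ⟨d + d', H * H', hH.mul hH', ?_, ?_⟩
    · rw [map_mul]
      exact mul_ne_zero hy0 hy0'
    · intro y' hpt hy'
      rw [map_mul] at hy'
      obtain ⟨h1, h2⟩ := h y' hpt (left_ne_zero_of_mul hy')
      obtain ⟨h3, h4⟩ := h' y' hpt (right_ne_zero_of_mul hy')
      constructor
      · rw [mul_div_mul_comm]
        exact mul_mem h1 h3
      · rw [mul_div_mul_comm]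
        exact mul_mem h2 h4

/-- The negative: invert the local equations. -/
def neg (D : Y.CaDiv) : Y.CaDiv where
  eq y := (D.eq y)⁻¹
  eq_ne_zero := fun y hy => inv_ne_zero (D.eq_ne_zero y hy)
  locally := by
    intro y hy
    obtain ⟨d, H, hH, hy0, h⟩ := D.locally y hy
    refine ⟨d, H, hH, hy0, ?_⟩
    intro y' hpt hy'
    obtain ⟨h1, h2⟩ := h y' hpt hy'
    constructor
    · rw [inv_div_inv]
      exact h2
    · rw [inv_div_inv]
      exact h1

/-- Integral multiples. -/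
def zsmul (n : ℤ) (D : Y.CaDiv) : Y.CaDiv where
  eq y := (D.eq y) ^ n
  eq_ne_zero := fun y hy => zpow_ne_zero n (D.eq_ne_zero y hy)
  locally := by
    intro y hy
    obtain ⟨d, H, hH, hy0, h⟩ := D.locally y hy
    refine ⟨d, H, hH, hy0, ?_⟩
    intro y' hpt hy'
    obtain ⟨h1, h2⟩ := h y' hpt hy'
    have hu : Y.UnitAt y' (D.eq y' / D.eq y) := ⟨h1, by rw [inv_div]; exact h2⟩
    constructor
    · rw [← div_zpow]
      exact (unitAt_zpow hu n).1
    · rw [← div_zpow, ← inv_div, inv_zpow]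
      exact (unitAt_zpow hu n).2

/-- The principal divisor of a rational function `φ ≠ 0`. -/
def prin (φ : Y.K) (hφ : φ ≠ 0) : Y.CaDiv where
  eq _ := φ
  eq_ne_zero := fun _ _ => hφ
  locally := by
    intro y hy
    refine ⟨0, 1, isHomogeneous_one _ _, by rw [map_one]; exact one_ne_zero, ?_⟩
    intro y' _ _
    rw [div_self hφ]
    exact ⟨one_mem _, one_mem _⟩

/-- The defining property in terms of `UnitAt`. -/
theorem exists_nhd (D : Y.CaDiv) {y : Y.ι → k} (hy : Y.IsPt y) :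
    ∃ (d : ℕ) (H : MvPolynomial Y.ι k), H.IsHomogeneous d ∧ aeval y H ≠ 0 ∧
      ∀ y' : Y.ι → k, Y.IsPt y' → aeval y' H ≠ 0 → Y.UnitAt y' (D.eq y' / D.eq y) := by
  obtain ⟨d, H, hH, hy0, h⟩ := D.locally y hy
  refine ⟨d, H, hH, hy0, fun y' hpt hy' => ?_⟩
  obtain ⟨h1, h2⟩ := h y' hpt hy'
  exact ⟨h1, by rw [inv_div]; exact h2⟩

end CaDiv

end ProjVar

end Pool.Agent.MP9a7843
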