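import Pool.Agent.Lib.MP_9a7843_ag.Div

/-!
# Morphisms
-/

noncomputable section

open MvPolynomial

namespace Pool.Agent.MP9a7843

namespace ProjVar

universe u

variable {k : Type u} [Field k] {Y X : ProjVar k} {F : Type u} [Field F] [Algebra k F]
  {c : Y.ι → F}

/-! ### Morphisms -/

namespace Hom

variable (f : Hom Y X)

/-- If the closed point `y` is in the closure of `c`, the coordinates `coord i / coord j` which are
regular at `y` are regular at `c`. -/
theorem exists_index (hc : Y.IsPt c) {y : Y.ι → k} (hy : Y.IsPt y) (hs : Spec c y) :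
    ∃ j, f.coord j ≠ 0 ∧ ∀ i, f.coord i / f.coord j ∈ Y.loc c := by
  have _ := hc
  obtain ⟨j, hj, h⟩ := f.regular y hy
  exact ⟨j, hj, fun i => hs.loc_le (h i)⟩

/-- Every `F`-valued point has a closed point in its closure (`exists_spec`). -/
theorem exists_index' [IsAlgClosed k] (hc : Y.IsPt c) :
    ∃ j, f.coord j ≠ 0 ∧ ∀ i, f.coord i / f.coord j ∈ Y.loc c := by
  obtain ⟨y, hy, hs, -⟩ := exists_spec (τ := Empty) hc ∅ (fun _ => 0) (fun _ => 0)
    (fun t _ => t.elim) (fun t _ => t.elim)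
  exact f.exists_index hc hy hs

/-- The index used in the definition of `app`. -/
private def jj {F : Type u} [Field F] [Algebra k F] (c : Y.ι → F) : X.ι :=
  Classical.epsilon fun j => f.coord j ≠ 0 ∧ ∀ i, f.coord i / f.coord j ∈ Y.loc c

private theorem jj_spec [IsAlgClosed k] (hc : Y.IsPt c) :
    f.coord (f.jj c) ≠ 0 ∧ ∀ i, f.coord i / f.coord (f.jj c) ∈ Y.loc c :=
  Classical.epsilon_spec (f.exists_index' hc)

private theorem app_def (c : Y.ι → F) (i : X.ι) :
    f.app c i = Y.ev c (f.coord i / f.coord (f.jj c)) := rfl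

private theorem app_jj [IsAlgClosed k] (hc : Y.IsPt c) : f.app c (f.jj c) = 1 := by
  rw [app_def, div_self (f.jj_spec hc).1, ev_one hc]

/-- Evaluation of a form in functions defined at `c`. -/
private theorem ev_aeval (hc : Y.IsPt c) {σ : Type} {a : σ → Y.K} (ha : ∀ i, a i ∈ Y.loc c)
    (G : MvPolynomial σ k) :
    aeval a G ∈ Y.loc c ∧ Y.ev c (aeval a G) = aeval (fun i => Y.ev c (a i)) G := by
  have h1 : aeval a G = ((aeval (fun i => (⟨a i, ha i⟩ : Y.loc c)) G : Y.loc c) : Y.K) :=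
    (comp_aeval_apply (fun i => (⟨a i, ha i⟩ : Y.loc c)) (Y.loc c).val G).symm
  refine ⟨by rw [h1]; exact Subtype.property _, ?_⟩
  have h2 : aeval (fun i => Y.ev c (a i)) G =
      evHom hc (aeval (fun i => (⟨a i, ha i⟩ : Y.loc c)) G) :=
    (comp_aeval_apply (fun i => (⟨a i, ha i⟩ : Y.loc c)) (evHom hc) G).symm
  rw [h2, evHom_apply, ← h1]

private theorem coord_div (j : X.ι) : (fun i => f.coord i / f.coord j) =
    (f.coord j)⁻¹ • f.coord := by
  funext i
  rw [Pi.smul_apply, smul_eq_mul, div_eq_inv_mul]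

private theorem aeval_coord_div {d : ℕ} {G : MvPolynomial X.ι k} (hG : G.IsHomogeneous d)
    (j : X.ι) : aeval (fun i => f.coord i / f.coord j) G =
      (f.coord j)⁻¹ ^ d * aeval f.coord G := by
  rw [coord_div, aeval_smul hG]

private theorem prop_aux {σ : Type} {u v : σ → F} (h : ∀ i i', u i * v i' = u i' * v i)
    (hu : ∃ i, u i ≠ 0) (hv : ∃ i, v i ≠ 0) : ∃ t : F, t ≠ 0 ∧ u = t • v := by
  obtain ⟨i, hi⟩ := hu
  obtain ⟨j, hj⟩ := hv
  have h1 : u = (u j / v j) • v := by
    funext l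
    rw [Pi.smul_apply, smul_eq_mul, div_mul_eq_mul_div, eq_div_iff hj]
    exact h l j
  refine ⟨u j / v j, fun h0 => hi ?_, h1⟩
  rw [h1, h0, zero_smul, Pi.zero_apply]

/-- Up to a factor, `f.app c` is computed with any admissible index. -/
theorem app_eq [IsAlgClosed k] (hc : Y.IsPt c) {j : X.ι} (hj : f.coord j ≠ 0)
    (h : ∀ i, f.coord i / f.coord j ∈ Y.loc c) :
    ∃ r : F, r ≠ 0 ∧ f.app c = r • fun i => Y.ev c (f.coord i / f.coord j) := by
  obtain ⟨h1, h2⟩ := f.jj_spec hc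
  refine ⟨Y.ev c (f.coord j / f.coord (f.jj c)), ?_, ?_⟩
  · refine ev_ne_zero hc (div_ne_zero hj h1) (h2 j) ?_
    rw [inv_div]
    exact h _
  · funext i
    rw [Pi.smul_apply, smul_eq_mul, ← ev_mul hc (h2 j) (h i), app_def]
    congr 1
    field_simp

/-- The image of a point is a point: forms vanishing at `X.z` vanish at `f.coord`, hence at
`f.coord i / f.coord j` and (evaluation is a ring homomorphism) at `f.app c`; some coordinate is
`1`. -/
theorem isPt_app [IsAlgClosed k] (hc : Y.IsPt c) : X.IsPt (f.app c) := by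
  refine ⟨⟨f.jj c, by rw [f.app_jj hc]; exact one_ne_zero⟩, fun d G hG h0 => ?_⟩
  have h1 := f.isPt.2 d G hG h0
  have h2 : aeval (fun i => f.coord i / f.coord (f.jj c)) G = 0 := by
    rw [f.aeval_coord_div hG, h1, mul_zero]
  have h3 := (ev_aeval hc (f.jj_spec hc).2 G).2
  rw [h2, ev_zero hc] at h3
  exact h3.symm

/-- Local representation by forms: near the point `c`, `f` is given by forms `Q_i` of the same
degree: `f.coord i / f.coord j = Q_i(z) / Q_j(z)`, `Q(c) ≠ 0`. -/
theorem exists_forms [IsAlgClosed k] (hc : Y.IsPt c) :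
    ∃ (d : ℕ) (Q : X.ι → MvPolynomial Y.ι k), (∀ i, (Q i).IsHomogeneous d) ∧
      (∃ i, aeval c (Q i) ≠ 0) ∧
      ∀ i i', aeval Y.z (Q i) * f.coord i' = aeval Y.z (Q i') * f.coord i := by
  classical
  obtain ⟨h1, h2⟩ := f.jj_spec hc
  have h3 : ∀ i, Y.HasValue c (f.coord i / f.coord (f.jj c)) (f.app c i) :=
    fun i => hasValue_ev hc (h2 i)
  choose d G H hG hH h0 ha hb using h3
  have hz : ∀ i, aeval Y.z (H i) ≠ 0 := fun i => aeval_z_ne_zero hc (hH i) (h0 i)
  have hP : ∀ i, H i * ∏ l ∈ Finset.univ.erase i, H l = ∏ l, H l := fun i =>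
    Finset.mul_prod_erase _ _ (Finset.mem_univ i)
  have key : ∀ i, aeval Y.z (G i * ∏ l ∈ Finset.univ.erase i, H l) =
      aeval Y.z (∏ l, H l) * (f.coord i / f.coord (f.jj c)) := by
    intro i
    rw [ha i, ← hP i, map_mul, map_mul]
    have := hz i
    field_simp
  refine ⟨∑ l, d l, fun i => G i * ∏ l ∈ Finset.univ.erase i, H l, fun i => ?_,
    ⟨f.jj c, ?_⟩, fun i i' => ?_⟩
  · rw [← Finset.add_sum_erase _ _ (Finset.mem_univ i)]
    exact (hG i).mul (IsHomogeneous.prod _ H d fun l _ => hH l)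
  · have h4 := f.app_jj hc
    rw [hb, div_eq_one_iff_eq (h0 _)] at h4
    rw [map_mul, h4, ← map_mul, hP, map_prod]
    exact Finset.prod_ne_zero_iff.2 fun l _ => h0 l
  · show aeval Y.z (G i * ∏ l ∈ Finset.univ.erase i, H l) * f.coord i' =
      aeval Y.z (G i' * ∏ l ∈ Finset.univ.erase i', H l) * f.coord i
    rw [key, key]
    ring

/-- Wherever forms `Q` as in `exists_forms` do not all vanish, they compute the image; in general
the cross relations hold. -/
theorem app_forms [IsAlgClosed k] (hc : Y.IsPt c) {d : ℕ} {Q : X.ι → MvPolynomial Y.ι k}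
    (hQ : ∀ i, (Q i).IsHomogeneous d)
    (h : ∀ i i', aeval Y.z (Q i) * f.coord i' = aeval Y.z (Q i') * f.coord i) (i i' : X.ι) :
    aeval c (Q i) * f.app c i' = aeval c (Q i') * f.app c i := by
  obtain ⟨h1, h2⟩ := f.jj_spec hc
  obtain ⟨j, hj⟩ := hc.1
  have hzj : Y.z j ≠ 0 := z_ne_zero hc hj
  have hX : (MvPolynomial.X j ^ d : MvPolynomial Y.ι k).IsHomogeneous d :=
    isHomogeneous_X_pow j d
  have hXc : aeval c (MvPolynomial.X j ^ d : MvPolynomial Y.ι k) ≠ 0 := by
    rw [map_pow, aeval_X]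
    exact pow_ne_zero d hj
  have hXz : aeval Y.z (MvPolynomial.X j ^ d : MvPolynomial Y.ι k) ≠ 0 := by
    rw [map_pow, aeval_X]
    exact pow_ne_zero d hzj
  have h3 : ∀ l l', aeval c (Q l) / aeval c (MvPolynomial.X j ^ d : MvPolynomial Y.ι k) *
      f.app c l' = Y.ev c (aeval Y.z (Q l) / aeval Y.z (MvPolynomial.X j ^ d :
        MvPolynomial Y.ι k) * (f.coord l' / f.coord (f.jj c))) := by
    intro l l'
    rw [ev_mul hc (form_div_mem (hQ l) hX hXc) (h2 l'), ev_form_div hc (hQ l) hX hXc, app_def]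
  have h4 : aeval Y.z (Q i) / aeval Y.z (MvPolynomial.X j ^ d : MvPolynomial Y.ι k) *
      (f.coord i' / f.coord (f.jj c)) =
      aeval Y.z (Q i') / aeval Y.z (MvPolynomial.X j ^ d : MvPolynomial Y.ι k) *
      (f.coord i / f.coord (f.jj c)) := by
    rw [div_mul_div_comm, div_mul_div_comm, h i i']
  have h5 : aeval c (Q i) / aeval c (MvPolynomial.X j ^ d : MvPolynomial Y.ι k) * f.app c i' =
      aeval c (Q i') / aeval c (MvPolynomial.X j ^ d : MvPolynomial Y.ι k) * f.app c i := by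
    rw [h3, h3, h4]
  rw [div_mul_eq_mul_div, div_mul_eq_mul_div, div_left_inj' hXc] at h5
  exact h5

/-- Forms as in `exists_forms` which do not all vanish at `c` are proportional to `f.app c`. -/
private theorem forms_smul [IsAlgClosed k] (hc : Y.IsPt c) {d : ℕ}
    {Q : X.ι → MvPolynomial Y.ι k} (hQ : ∀ i, (Q i).IsHomogeneous d)
    (h : ∀ i i', aeval Y.z (Q i) * f.coord i' = aeval Y.z (Q i') * f.coord i)
    (h0 : ∃ i, aeval c (Q i) ≠ 0) :
    ∃ t : F, t ≠ 0 ∧ (fun i => aeval c (Q i)) = t • f.app c :=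
  prop_aux (f.app_forms hc hQ h) h0 (f.isPt_app hc).1

/-- Substitution of forms. -/
private theorem bind_hom {σ τ : Type} {d e : ℕ} {Q : σ → MvPolynomial τ k}
    (hQ : ∀ i, (Q i).IsHomogeneous d) {H : MvPolynomial σ k} (hH : H.IsHomogeneous e) :
    (bind₁ Q H).IsHomogeneous (d * e) := by
  exact hH.aeval Q hQ

/-- Proportional points have proportional images. -/
theorem app_smul [IsAlgClosed k] (hc : Y.IsPt c) {r : F} (hr : r ≠ 0) :
    ∃ s : F, s ≠ 0 ∧ f.app (r • c) = s • f.app c := by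
  have _ := hc
  refine ⟨1, one_ne_zero, ?_⟩
  funext i
  rw [one_smul]
  unfold app
  rw [loc_smul hr, ev_smul hr]

/-- Base change. -/
theorem app_map [IsAlgClosed k] (hc : Y.IsPt c) {F' : Type u} [Field F'] [Algebra k F']
    (σ : F →ₐ[k] F') : ∃ s : F', s ≠ 0 ∧
      f.app (fun i => σ (c i)) = s • fun i => σ (f.app c i) := by
  refine ⟨1, one_ne_zero, ?_⟩
  funext i
  rw [one_smul]
  have h1 : f.jj (fun i => σ (c i)) = f.jj c := by
    unfold jj
    rw [loc_map σ]
  rw [app_def, app_def, h1, ev_map hc σ ((f.jj_spec hc).2 i)]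

/-- Specialisation: if `y` is in the closure of `c` then `f y` is in the closure of `f c`
(evaluate a relation with the forms of `exists_forms` at `y`). -/
theorem spec_app [IsAlgClosed k] (hc : Y.IsPt c) {F' : Type u} [Field F'] [Algebra k F']
    {y : Y.ι → F'} (hy : Y.IsPt y) (hs : Spec c y) : Spec (f.app c) (f.app y) := by
  intro e H hH h0
  obtain ⟨d, Q, hQ, ⟨i, hi⟩, hrel⟩ := f.exists_forms hy
  obtain ⟨t, ht, hty⟩ := f.forms_smul hy hQ hrel ⟨i, hi⟩
  obtain ⟨r, hr, hrc⟩ := f.forms_smul hc hQ hrel ⟨i, fun h1 => hi (hs d _ (hQ i) h1)⟩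
  have h1 : aeval c (bind₁ Q H) = 0 := by
    rw [aeval_bind₁, hrc, aeval_smul hH, h0, mul_zero]
  have h2 := hs _ _ (bind_hom hQ hH) h1
  rw [aeval_bind₁, hty, aeval_smul hH] at h2
  exact (mul_eq_zero.1 h2).resolve_left (pow_ne_zero _ ht)

/-- The image of the generic point is `f.coord`. -/
theorem app_z [IsAlgClosed k] : ∃ r : Y.K, r ≠ 0 ∧ f.app Y.z = r • f.coord := by
  obtain ⟨h1, -⟩ := f.jj_spec (c := Y.z) isPt_z
  refine ⟨(f.coord (f.jj Y.z))⁻¹, inv_ne_zero h1, ?_⟩
  funext i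
  rw [app_def, ev_z, Pi.smul_apply, smul_eq_mul, div_eq_inv_mul]

/-- Pull-back of functions defined at `f c`: `a ↦ ev f.coord a` maps `loc (f c)` to `loc c`,
compatibly with values. -/
theorem ev_coord_mem [IsAlgClosed k] (hc : Y.IsPt c) {a : X.K} (ha : a ∈ X.loc (f.app c)) :
    a ∈ X.loc f.coord ∧ X.ev f.coord a ∈ Y.loc c ∧
      Y.ev c (X.ev f.coord a) = X.ev (f.app c) a := by
  obtain ⟨h1, h2⟩ := f.jj_spec hc
  have hapt := f.isPt_app hc
  obtain ⟨d, G, H, hG, hH, h0, ha', hb⟩ := hasValue_ev hapt ha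
  have hGe := ev_aeval hc h2 G
  have hHe := ev_aeval hc h2 H
  have hHne : Y.ev c (aeval (fun i => f.coord i / f.coord (f.jj c)) H) ≠ 0 := by
    rw [hHe.2]
    exact h0
  have hH0 : aeval (fun i => f.coord i / f.coord (f.jj c)) H ≠ 0 := by
    intro h3
    rw [h3, ev_zero hc] at hHne
    exact hHne rfl
  have hHc : aeval f.coord H ≠ 0 := by
    intro h3
    rw [f.aeval_coord_div hH, h3, mul_zero] at hH0
    exact hH0 rfl
  have hmem : a ∈ X.loc f.coord := by
    rw [ha']
    exact form_div_mem hG hH hHc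
  have hev : X.ev f.coord a = aeval (fun i => f.coord i / f.coord (f.jj c)) G *
      (aeval (fun i => f.coord i / f.coord (f.jj c)) H)⁻¹ := by
    rw [ha', ev_form_div f.isPt hG hH hHc, f.aeval_coord_div hG, f.aeval_coord_div hH]
    have := inv_ne_zero h1
    have h4 := pow_ne_zero d this
    field_simp
  have hinv := inv_mem_loc hc hHe.1 hHne
  refine ⟨hmem, ?_, ?_⟩
  · rw [hev]
    exact mul_mem hGe.1 hinv
  · rw [hev, ev_mul hc hGe.1 hinv, ev_inv hc hHe.1 hHne, hGe.2, hHe.2, hb, div_eq_mul_inv]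
    rfl

/-- For dominant `f` all rational functions on `X` are defined at `f.coord`. -/
theorem Dominant.mem_loc {f : Hom Y X} (hf : f.Dominant) (a : X.K) : a ∈ X.loc f.coord := by
  obtain ⟨d, G, H, hG, hH, h0, rfl⟩ := ProjVar.exists_forms a
  exact form_div_mem hG hH fun h1 => h0 (hf d H hH h1)

/-- The embedding of function fields of a dominant morphism. -/
def Dominant.emb {f : Hom Y X} (hf : f.Dominant) : X.K →ₐ[k] Y.K where
  toFun a := X.ev f.coord a
  map_one' := ev_one f.isPt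
  map_mul' a b := ev_mul f.isPt (hf.mem_loc a) (hf.mem_loc b)
  map_zero' := ev_zero f.isPt
  map_add' a b := ev_add f.isPt (hf.mem_loc a) (hf.mem_loc b)
  commutes' r := ev_algebraMap f.isPt r

@[simp] theorem Dominant.emb_apply {f : Hom Y X} (hf : f.Dominant) (a : X.K) :
    hf.emb a = X.ev f.coord a := rfl

/-- The pull-back of a Cartier divisor under a dominant morphism.  (`eq y` is pulled back from
the local equation at `f y`; neighbourhood of `y`: the forms `Q` of `exists_forms` for `y` with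
`Q_j(y) ≠ 0`, and `H(Q)` for a neighbourhood `H` of `f y`.) -/
def Dominant.pull [IsAlgClosed k] {f : Hom Y X} (hf : f.Dominant) (D : X.CaDiv) : Y.CaDiv where
  eq y := X.ev f.coord (D.eq (f.app y))
  eq_ne_zero := by
    intro y hy
    rw [← hf.emb_apply]
    exact (map_ne_zero hf.emb).2 (D.eq_ne_zero _ (f.isPt_app hy))
  locally := by
    intro y hy
    obtain ⟨e, H, hH, h0, hn⟩ := D.locally (f.app y) (f.isPt_app hy)
    obtain ⟨d, Q, hQ, ⟨i, hi⟩, hrel⟩ := f.exists_forms hy
    obtain ⟨t, ht, hty⟩ := f.forms_smul hy hQ hrel ⟨i, hi⟩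
    refine ⟨d + d * e, Q i * bind₁ Q H, (hQ i).mul (bind_hom hQ hH), ?_, fun y' hy' h1 => ?_⟩
    · rw [map_mul, aeval_bind₁, hty, aeval_smul hH]
      exact mul_ne_zero hi (mul_ne_zero (pow_ne_zero _ ht) h0)
    · rw [map_mul] at h1
      obtain ⟨r, hr, hrc⟩ := f.forms_smul hy' hQ hrel ⟨i, left_ne_zero_of_mul h1⟩
      have h2 := right_ne_zero_of_mul h1
      rw [aeval_bind₁, hrc, aeval_smul hH] at h2
      obtain ⟨h3, h4⟩ := hn (f.app y') (f.isPt_app hy') (right_ne_zero_of_mul h2)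
      have h5 := (f.ev_coord_mem hy' h3).2.1
      have h6 := (f.ev_coord_mem hy' h4).2.1
      rw [← hf.emb_apply, map_div₀] at h5 h6
      exact ⟨h5, h6⟩

end Hom

end ProjVar

end Pool.Agent.MP9a7843
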