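import Pool.Agent.Lib.MP_9a7843_ag.Defs

/-!
# Local rings and evaluation
-/

noncomputable section

open MvPolynomial

namespace Pool.Agent.MP9a7843

namespace ProjVar

universe u

variable {k : Type u} [Field k] {Y : ProjVar k} {F : Type u} [Field F] [Algebra k F]
  {F' : Type u} [Field F'] [Algebra k F'] {c : Y.ι → F}

/-- A form which does not vanish at a point does not vanish at the generic point. -/
theorem aeval_z_ne_zero (hc : Y.IsPt c) {d : ℕ} {H : MvPolynomial Y.ι k}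
    (hH : H.IsHomogeneous d) (h : aeval c H ≠ 0) : aeval Y.z H ≠ 0 :=
  fun h0 => h (hc.2 d H hH h0)

/-- Values are unique: `G/H = G'/H'` at the generic point implies `G H' - G' H = 0` there, hence at
the point `c`. -/
theorem HasValue.unique (hc : Y.IsPt c) {a : Y.K} {b b' : F} (h : Y.HasValue c a b)
    (h' : Y.HasValue c a b') : b = b' := by
  obtain ⟨d, G, H, hG, hH, h0, rfl, rfl⟩ := h
  obtain ⟨d', G', H', hG', hH', h0', ha, rfl⟩ := h'
  have h1 := aeval_z_ne_zero hc hH h0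
  have h2 := aeval_z_ne_zero hc hH' h0'
  rw [div_eq_div_iff h1 h2] at ha
  rw [div_eq_div_iff h0 h0']
  have h3 : (G * H' - G' * H).IsHomogeneous (d + d') := by
    refine (hG.mul hH').sub ?_
    rw [add_comm]
    exact hG'.mul hH
  have := hc.2 _ _ h3 (by simp [ha])
  simpa [sub_eq_zero] using this

theorem HasValue.ev_eq (hc : Y.IsPt c) {a : Y.K} {b : F} (h : Y.HasValue c a b) :
    Y.ev c a = b :=
  HasValue.unique hc (Classical.epsilon_spec ⟨b, h⟩) h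

theorem HasValue.add (hc : Y.IsPt c) {a a' : Y.K} {b b' : F} (h : Y.HasValue c a b)
    (h' : Y.HasValue c a' b') : Y.HasValue c (a + a') (b + b') := by
  obtain ⟨d, G, H, hG, hH, h0, rfl, rfl⟩ := h
  obtain ⟨d', G', H', hG', hH', h0', rfl, rfl⟩ := h'
  have h1 := aeval_z_ne_zero hc hH h0
  have h2 := aeval_z_ne_zero hc hH' h0'
  refine ⟨d + d', G * H' + H * G', H * H', (hG.mul hH').add (hH.mul hG'), hH.mul hH', ?_, ?_, ?_⟩
  · simp [h0, h0']
  · simp only [map_add, map_mul]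
    rw [div_add_div _ _ h1 h2]
  · simp only [map_add, map_mul]
    rw [div_add_div _ _ h0 h0']

theorem HasValue.mul {a a' : Y.K} {b b' : F} (h : Y.HasValue c a b)
    (h' : Y.HasValue c a' b') : Y.HasValue c (a * a') (b * b') := by
  obtain ⟨d, G, H, hG, hH, h0, rfl, rfl⟩ := h
  obtain ⟨d', G', H', hG', hH', h0', rfl, rfl⟩ := h'
  refine ⟨d + d', G * G', H * H', hG.mul hG', hH.mul hH', ?_, ?_, ?_⟩
  · simp [h0, h0']
  · simp only [map_mul, div_mul_div_comm]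
  · simp only [map_mul, div_mul_div_comm]

theorem hasValue_algebraMap (r : k) :
    Y.HasValue c (algebraMap k Y.K r) (algebraMap k F r) :=
  ⟨0, C r, 1, isHomogeneous_C _ _, isHomogeneous_one _ _, by simp, by simp, by simp⟩

theorem HasValue.inv (hc : Y.IsPt c) {a : Y.K} {b : F} (h : Y.HasValue c a b) (hb : b ≠ 0) :
    Y.HasValue c a⁻¹ b⁻¹ := by
  obtain ⟨d, G, H, hG, hH, h0, rfl, rfl⟩ := h
  have : aeval c G ≠ 0 := fun h => hb (by simp [h])
  exact ⟨d, H, G, hH, hG, this, by rw [inv_div], by rw [inv_div]⟩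

theorem mem_loc_iff (hc : Y.IsPt c) {a : Y.K} : a ∈ Y.loc c ↔ ∃ b, Y.HasValue c a b := by
  constructor
  · intro h
    refine Algebra.adjoin_induction (fun x hx => hx) ?_ ?_ ?_ h
    · exact fun r => ⟨_, hasValue_algebraMap r⟩
    · rintro x y - - ⟨b, hb⟩ ⟨b', hb'⟩
      exact ⟨_, hb.add hc hb'⟩
    · rintro x y - - ⟨b, hb⟩ ⟨b', hb'⟩
      exact ⟨_, hb.mul hb'⟩
  · exact fun h => Algebra.subset_adjoin h

theorem HasValue.mem_loc {a : Y.K} {b : F} (h : Y.HasValue c a b) : a ∈ Y.loc c :=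
  Algebra.subset_adjoin ⟨b, h⟩

theorem hasValue_ev (hc : Y.IsPt c) {a : Y.K} (ha : a ∈ Y.loc c) :
    Y.HasValue c a (Y.ev c a) :=
  Classical.epsilon_spec ((mem_loc_iff hc).1 ha)

theorem ev_add (hc : Y.IsPt c) {a b : Y.K} (ha : a ∈ Y.loc c) (hb : b ∈ Y.loc c) :
    Y.ev c (a + b) = Y.ev c a + Y.ev c b :=
  ((hasValue_ev hc ha).add hc (hasValue_ev hc hb)).ev_eq hc

theorem ev_mul (hc : Y.IsPt c) {a b : Y.K} (ha : a ∈ Y.loc c) (hb : b ∈ Y.loc c) :
    Y.ev c (a * b) = Y.ev c a * Y.ev c b :=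
  ((hasValue_ev hc ha).mul (hasValue_ev hc hb)).ev_eq hc

theorem ev_algebraMap (hc : Y.IsPt c) (r : k) :
    Y.ev c (algebraMap k Y.K r) = algebraMap k F r :=
  (hasValue_algebraMap r).ev_eq hc

theorem ev_one (hc : Y.IsPt c) : Y.ev c 1 = 1 := by
  simpa using ev_algebraMap hc (1 : k)

theorem ev_zero (hc : Y.IsPt c) : Y.ev c 0 = 0 := by
  simpa using ev_algebraMap hc (0 : k)

/-- Evaluation at a point as a homomorphism from the local ring. -/
def evHom (hc : Y.IsPt c) : Y.loc c →ₐ[k] F where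
  toFun a := Y.ev c a
  map_one' := ev_one hc
  map_mul' a b := ev_mul hc a.2 b.2
  map_zero' := ev_zero hc
  map_add' a b := ev_add hc a.2 b.2
  commutes' r := ev_algebraMap hc r

@[simp] theorem evHom_apply (hc : Y.IsPt c) (a : Y.loc c) : evHom hc a = Y.ev c a := rfl

theorem ev_neg (hc : Y.IsPt c) {a : Y.K} (ha : a ∈ Y.loc c) : Y.ev c (-a) = -Y.ev c a :=
  map_neg (evHom hc) ⟨a, ha⟩

theorem ev_sub (hc : Y.IsPt c) {a b : Y.K} (ha : a ∈ Y.loc c) (hb : b ∈ Y.loc c) :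
    Y.ev c (a - b) = Y.ev c a - Y.ev c b :=
  map_sub (evHom hc) ⟨a, ha⟩ ⟨b, hb⟩

theorem ev_pow (hc : Y.IsPt c) {a : Y.K} (ha : a ∈ Y.loc c) (n : ℕ) :
    Y.ev c (a ^ n) = Y.ev c a ^ n :=
  map_pow (evHom hc) ⟨a, ha⟩ n

theorem inv_mem_loc (hc : Y.IsPt c) {a : Y.K} (ha : a ∈ Y.loc c) (h : Y.ev c a ≠ 0) :
    a⁻¹ ∈ Y.loc c :=
  ((hasValue_ev hc ha).inv hc h).mem_loc

theorem ev_inv (hc : Y.IsPt c) {a : Y.K} (ha : a ∈ Y.loc c) (h : Y.ev c a ≠ 0) :
    Y.ev c a⁻¹ = (Y.ev c a)⁻¹ :=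
  ((hasValue_ev hc ha).inv hc h).ev_eq hc

/-- If `a` and `a⁻¹` are both defined at `c` (and `a ≠ 0`), the value is not zero. -/
theorem ev_ne_zero (hc : Y.IsPt c) {a : Y.K} (h0 : a ≠ 0) (ha : a ∈ Y.loc c)
    (h : a⁻¹ ∈ Y.loc c) : Y.ev c a ≠ 0 := by
  intro h1
  have := ev_mul hc ha h
  rw [mul_inv_cancel₀ h0, ev_one hc, h1, zero_mul] at this
  exact one_ne_zero this

theorem ev_ne_zero_iff (hc : Y.IsPt c) {a : Y.K} (h0 : a ≠ 0) (ha : a ∈ Y.loc c) :
    Y.ev c a ≠ 0 ↔ a⁻¹ ∈ Y.loc c :=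
  ⟨inv_mem_loc hc ha, ev_ne_zero hc h0 ha⟩

theorem isUnit_loc_iff (hc : Y.IsPt c) (a : Y.loc c) : IsUnit a ↔ Y.ev c a ≠ 0 := by
  constructor
  · intro h
    have := h.map (evHom hc)
    simpa using this.ne_zero
  · intro h
    have h0 : (a : Y.K) ≠ 0 := fun h0 => h (by rw [h0, ev_zero hc])
    refine IsUnit.of_mul_eq_one ⟨(a : Y.K)⁻¹, inv_mem_loc hc a.2 h⟩ ?_
    ext
    simp [h0]

instance isLocalRing_loc [hc : Fact (Y.IsPt c)] : IsLocalRing (Y.loc c) := by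
  refine IsLocalRing.of_nonunits_add ?_
  intro a b ha hb
  have hc := hc.out
  simp only [mem_nonunits_iff, isUnit_loc_iff hc, not_not] at *
  rw [Subalgebra.coe_add, ev_add hc a.2 b.2, ha, hb, add_zero]

theorem isLocalRing (hc : Y.IsPt c) : IsLocalRing (Y.loc c) :=
  haveI := Fact.mk hc
  isLocalRing_loc

/-- Quotients of coordinates. -/
theorem hasValue_coord (i : Y.ι) {j : Y.ι} (hj : c j ≠ 0) :
    Y.HasValue c (Y.z i / Y.z j) (c i / c j) :=
  ⟨1, X i, X j, isHomogeneous_X _ _, isHomogeneous_X _ _, by simpa using hj, by simp, by simp⟩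

theorem coord_div_mem (i : Y.ι) {j : Y.ι} (hj : c j ≠ 0) : Y.z i / Y.z j ∈ Y.loc c :=
  (hasValue_coord i hj).mem_loc

theorem ev_coord_div (hc : Y.IsPt c) (i : Y.ι) {j : Y.ι} (hj : c j ≠ 0) :
    Y.ev c (Y.z i / Y.z j) = c i / c j :=
  (hasValue_coord i hj).ev_eq hc

theorem z_ne_zero (hc : Y.IsPt c) {j : Y.ι} (hj : c j ≠ 0) : Y.z j ≠ 0 := by
  have := aeval_z_ne_zero hc (isHomogeneous_X k j) (by simpa using hj)
  simpa using this

/-- Quotients of forms. -/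
theorem form_div_mem {d : ℕ} {G H : MvPolynomial Y.ι k} (hG : G.IsHomogeneous d)
    (hH : H.IsHomogeneous d) (h : aeval c H ≠ 0) : aeval Y.z G / aeval Y.z H ∈ Y.loc c :=
  HasValue.mem_loc ⟨d, G, H, hG, hH, h, rfl, rfl⟩

theorem ev_form_div (hc : Y.IsPt c) {d : ℕ} {G H : MvPolynomial Y.ι k} (hG : G.IsHomogeneous d)
    (hH : H.IsHomogeneous d) (h : aeval c H ≠ 0) :
    Y.ev c (aeval Y.z G / aeval Y.z H) = aeval c G / aeval c H :=
  HasValue.ev_eq hc ⟨d, G, H, hG, hH, h, rfl, rfl⟩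

/-! ### Scaling, base change, specialisation -/

theorem aeval_smul {d : ℕ} {G : MvPolynomial Y.ι k} (hG : G.IsHomogeneous d) (r : F) :
    aeval (r • c) G = r ^ d * aeval c G := by
  rw [aeval_def, aeval_def, eval₂_eq, eval₂_eq, Finset.mul_sum]
  refine Finset.sum_congr rfl fun m hm => ?_
  have hd : ∑ i ∈ m.support, m i = d := by
    have := hG (mem_support_iff.1 hm)
    rwa [Finsupp.weight_apply, Finsupp.sum, Finset.sum_congr rfl
      (g := fun i => m i) (fun i _ => by simp)] at this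
  have h2 : ∏ i ∈ m.support, (r • c) i ^ m i = r ^ d * ∏ i ∈ m.support, c i ^ m i := by
    rw [← hd, ← Finset.prod_pow_eq_pow_sum, ← Finset.prod_mul_distrib]
    refine Finset.prod_congr rfl fun i _ => ?_
    rw [Pi.smul_apply, smul_eq_mul, mul_pow]
  rw [h2]
  ring

theorem IsPt.smul (hc : Y.IsPt c) {r : F} (hr : r ≠ 0) : Y.IsPt (r • c) := by
  obtain ⟨⟨i, hi⟩, h⟩ := hc
  refine ⟨⟨i, ?_⟩, fun d G hG h0 => ?_⟩
  · rw [Pi.smul_apply, smul_eq_mul]
    exact mul_ne_zero hr hi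
  · rw [aeval_smul hG, h d G hG h0, mul_zero]

theorem hasValue_smul_iff {r : F} (hr : r ≠ 0) {a : Y.K} {b : F} :
    Y.HasValue (r • c) a b ↔ Y.HasValue c a b := by
  constructor
  · rintro ⟨d, G, H, hG, hH, h0, ha, hb⟩
    rw [aeval_smul hH] at h0
    rw [aeval_smul hH, aeval_smul hG, mul_div_mul_left _ _ (pow_ne_zero d hr)] at hb
    exact ⟨d, G, H, hG, hH, fun h => h0 (by rw [h, mul_zero]), ha, hb⟩
  · rintro ⟨d, G, H, hG, hH, h0, ha, hb⟩
    refine ⟨d, G, H, hG, hH, ?_, ha, ?_⟩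
    · rw [aeval_smul hH]
      exact mul_ne_zero (pow_ne_zero d hr) h0
    · rw [aeval_smul hH, aeval_smul hG, mul_div_mul_left _ _ (pow_ne_zero d hr)]
      exact hb

theorem loc_smul {r : F} (hr : r ≠ 0) : Y.loc (r • c) = Y.loc c := by
  unfold loc
  simp only [hasValue_smul_iff hr]

theorem ev_smul {r : F} (hr : r ≠ 0) (a : Y.K) : Y.ev (r • c) a = Y.ev c a := by
  have h : Y.HasValue (r • c) a = Y.HasValue c a := by
    funext b
    exact propext (hasValue_smul_iff hr)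
  unfold ev
  rw [h]

private theorem aeval_map_pt (σ : F →ₐ[k] F') (c : Y.ι → F) (G : MvPolynomial Y.ι k) :
    aeval (fun i => σ (c i)) G = σ (aeval c G) :=
  (comp_aeval_apply c σ G).symm

/-- Base change along `σ : F → F'`. -/
theorem IsPt.map (hc : Y.IsPt c) (σ : F →ₐ[k] F') : Y.IsPt (fun i => σ (c i)) := by
  obtain ⟨⟨i, hi⟩, h⟩ := hc
  refine ⟨⟨i, ?_⟩, fun d G hG h0 => ?_⟩
  · exact (map_ne_zero σ).2 hi
  · rw [aeval_map_pt, h d G hG h0, map_zero]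

theorem HasValue.map {a : Y.K} {b : F} (h : Y.HasValue c a b) (σ : F →ₐ[k] F') :
    Y.HasValue (fun i => σ (c i)) a (σ b) := by
  obtain ⟨d, G, H, hG, hH, h0, ha, rfl⟩ := h
  refine ⟨d, G, H, hG, hH, ?_, ha, ?_⟩
  · rw [aeval_map_pt]
    exact (map_ne_zero σ).2 h0
  · rw [aeval_map_pt, aeval_map_pt, map_div₀]

theorem loc_map (σ : F →ₐ[k] F') : Y.loc (fun i => σ (c i)) = Y.loc c := by
  unfold loc
  congr 1
  ext a
  constructor
  · rintro ⟨b, d, G, H, hG, hH, h0, ha, -⟩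
    rw [aeval_map_pt] at h0
    exact ⟨_, d, G, H, hG, hH, (map_ne_zero σ).1 h0, ha, rfl⟩
  · rintro ⟨b, hb⟩
    exact ⟨_, hb.map σ⟩

theorem ev_map (hc : Y.IsPt c) (σ : F →ₐ[k] F') {a : Y.K} (ha : a ∈ Y.loc c) :
    Y.ev (fun i => σ (c i)) a = σ (Y.ev c a) :=
  ((hasValue_ev hc ha).map σ).ev_eq (hc.map σ)

/-- `y` is a specialisation of `c` (lies in the closure of `c`): all forms vanishing at `c` vanish
at `y`. -/
def Spec (c : Y.ι → F) (y : Y.ι → F') : Prop :=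
  ∀ (d : ℕ) (H : MvPolynomial Y.ι k), H.IsHomogeneous d → aeval c H = 0 → aeval y H = 0

theorem Spec.loc_le {y : Y.ι → F'} (h : Spec c y) : Y.loc y ≤ Y.loc c := by
  refine Algebra.adjoin_mono ?_
  rintro a ⟨b, d, G, H, hG, hH, h0, ha, -⟩
  exact ⟨_, d, G, H, hG, hH, fun h1 => h0 (h d H hH h1), ha, rfl⟩

theorem spec_z (hc : Y.IsPt c) : Spec Y.z c := fun d H hH h => hc.2 d H hH h

theorem isPt_z : Y.IsPt Y.z := ⟨Y.exists_ne_zero, fun _ _ _ h => h⟩

private theorem hv_z (a : Y.K) : ∃ b, Y.HasValue Y.z a b := by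
  have ha : a ∈ IntermediateField.adjoin k {a : Y.K | ∃ i j, a = Y.z i / Y.z j} := by
    rw [Y.adjoin_eq_top]
    exact IntermediateField.mem_top
  refine IntermediateField.adjoin_induction k
    (p := fun a _ => ∃ b, Y.HasValue Y.z a b) ?_ ?_ ?_ ?_ ?_ ha
  · rintro x ⟨i, j, rfl⟩
    by_cases hj : Y.z j = 0
    · rw [hj, div_zero]
      have h0 := hasValue_algebraMap (Y := Y) (c := Y.z) (0 : k)
      rw [map_zero] at h0
      exact ⟨_, h0⟩
    · exact ⟨_, hasValue_coord i hj⟩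
  · exact fun r => ⟨_, hasValue_algebraMap r⟩
  · rintro x y - - ⟨b, hb⟩ ⟨b', hb'⟩
    exact ⟨_, hb.add isPt_z hb'⟩
  · rintro x - ⟨b, hb⟩
    by_cases hb0 : b = 0
    · have hx : x = 0 := by
        obtain ⟨d, G, H, hG, hH, h0, hx, h1⟩ := hb
        rw [hx, ← h1, hb0]
      rw [hx, inv_zero]
      have h0 := hasValue_algebraMap (Y := Y) (c := Y.z) (0 : k)
      rw [map_zero] at h0
      exact ⟨_, h0⟩
    · exact ⟨_, hb.inv isPt_z hb0⟩
  · rintro x y - - ⟨b, hb⟩ ⟨b', hb'⟩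
    exact ⟨_, hb.mul hb'⟩

/-- All rational functions are defined at the generic point: the quotients `G(z)/H(z)` form a
subfield of `K` which contains `k` and the `z_i / z_j`. -/
theorem loc_z : Y.loc Y.z = ⊤ := by
  refine eq_top_iff.2 fun a _ => ?_
  obtain ⟨b, hb⟩ := hv_z a
  exact hb.mem_loc

theorem ev_z (a : Y.K) : Y.ev Y.z a = a := by
  obtain ⟨b, hb⟩ := hv_z a
  have h1 := hb.ev_eq isPt_z
  obtain ⟨d, G, H, hG, hH, h0, ha, h2⟩ := hb
  rw [h1, h2, ← ha]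

/-- Every rational function is a quotient of two forms of the same degree. -/
theorem exists_forms (a : Y.K) : ∃ (d : ℕ) (G H : MvPolynomial Y.ι k), G.IsHomogeneous d ∧
    H.IsHomogeneous d ∧ aeval Y.z H ≠ 0 ∧ a = aeval Y.z G / aeval Y.z H := by
  obtain ⟨b, d, G, H, hG, hH, h0, ha, h2⟩ := hv_z a
  exact ⟨d, G, H, hG, hH, h0, ha⟩

/-- Every rational function is a quotient of two elements of the local ring at `c`. -/
theorem exists_loc_div (hc : Y.IsPt c) (a : Y.K) :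
    ∃ x ∈ Y.loc c, ∃ y ∈ Y.loc c, y ≠ 0 ∧ a = x / y := by
  obtain ⟨d, G, H, hG, hH, h0, ha⟩ := exists_forms a
  obtain ⟨j, hj⟩ := hc.1
  have hzj : Y.z j ≠ 0 := z_ne_zero hc hj
  have hX : (X j ^ d : MvPolynomial Y.ι k).IsHomogeneous d := isHomogeneous_X_pow j d
  have hXc : aeval c (X j ^ d : MvPolynomial Y.ι k) ≠ 0 := by
    rw [map_pow, aeval_X]
    exact pow_ne_zero d hj
  have hXz : aeval Y.z (X j ^ d : MvPolynomial Y.ι k) ≠ 0 := by
    rw [map_pow, aeval_X]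
    exact pow_ne_zero d hzj
  refine ⟨_, form_div_mem hG hX hXc, _, form_div_mem hH hX hXc, div_ne_zero h0 hXz, ?_⟩
  rw [div_div_div_cancel_right₀ hXz]
  exact ha

/-- A rational function that is defined at `c` is defined in a neighbourhood. -/
theorem exists_nhd (hc : Y.IsPt c) {a : Y.K} (ha : a ∈ Y.loc c) :
    ∃ (d : ℕ) (H : MvPolynomial Y.ι k), H.IsHomogeneous d ∧ aeval c H ≠ 0 ∧
      ∀ (F' : Type u) [Field F'] [Algebra k F'] (y : Y.ι → F'), aeval y H ≠ 0 → a ∈ Y.loc y := by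
  obtain ⟨d, G, H, hG, hH, h0, ha1, h2⟩ := hasValue_ev hc ha
  refine ⟨d, H, hH, h0, fun F' _ _ y hy => ?_⟩
  rw [ha1]
  exact form_div_mem hG hH hy

/-- Finitely many non-vanishing forms may be replaced by their product. -/
theorem exists_common {ι' : Type*} (s : Finset ι') (d : ι' → ℕ) (H : ι' → MvPolynomial Y.ι k)
    (hH : ∀ i ∈ s, (H i).IsHomogeneous (d i)) (h : ∀ i ∈ s, aeval c (H i) ≠ 0) :
    ∃ (e : ℕ) (P : MvPolynomial Y.ι k), P.IsHomogeneous e ∧ aeval c P ≠ 0 ∧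
      ∀ (F' : Type u) [Field F'] [Algebra k F'] (y : Y.ι → F'), aeval y P ≠ 0 →
        ∀ i ∈ s, aeval y (H i) ≠ 0 := by
  refine ⟨∑ i ∈ s, d i, ∏ i ∈ s, H i, IsHomogeneous.prod s H d hH, ?_, ?_⟩
  · rw [map_prod]
    exact Finset.prod_ne_zero_iff.2 h
  · intro F' _ _ y hy i hi
    rw [map_prod] at hy
    exact Finset.prod_ne_zero_iff.1 hy i hi

end ProjVar

end Pool.Agent.MP9a7843
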