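import Pool.Agent.Lib.MP_9a7843_ag.Tup

/-!
# Topology of the space of morphisms
-/

noncomputable section

open Polynomial

namespace Pool.Agent.MP9a7843

namespace ProjVar

universe u

variable {k : Type u} [Field k] {X Y : ProjVar k} {d : ℕ}

/-! ### The space of morphisms -/

/-- The morphism given by a tuple. -/
def Tuple.mor (a : X.Tuple d) : X.Mor := ⟨d, Quotient.mk _ a⟩

@[simp] theorem Tuple.mor_fst (a : X.Tuple d) : a.mor.1 = d := rfl

theorem mor_eq_iff {a b : X.Tuple d} : a.mor = b.mor ↔ ∃ r : k, r ≠ 0 ∧ b.1 = r • a.1 := by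
  constructor
  · intro h
    have h1 : (⟨d, Quotient.mk (X.tupleSetoid d) a⟩ : Σ d : ℕ, Quotient (X.tupleSetoid d)) =
      ⟨d, Quotient.mk (X.tupleSetoid d) b⟩ := h
    exact Quotient.exact (eq_of_heq (Sigma.mk.inj h1).2)
  · intro h
    have h1 : (X.tupleSetoid d).r a b := h
    have h2 : (⟨d, Quotient.mk (X.tupleSetoid d) a⟩ : Σ d : ℕ, Quotient (X.tupleSetoid d)) =
      ⟨d, Quotient.mk (X.tupleSetoid d) b⟩ := congrArg (Sigma.mk d) (Quotient.sound h1)
    exact h2

theorem Mor.exists_tuple (g : X.Mor) : ∃ a : X.Tuple g.1, g = a.mor := by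
  obtain ⟨d, q⟩ := g
  obtain ⟨a, rfl⟩ := Quotient.exists_rep q
  exact ⟨a, rfl⟩

/-- The chosen representative is proportional to every representative. -/
theorem Tuple.out_eq (a : X.Tuple d) : ∃ r : k, r ≠ 0 ∧ a.mor.2.out.1 = r • a.1 := by
  have h : (X.tupleSetoid d).r (a.mor.2.out) a := Quotient.exact (Quotient.out_eq a.mor.2)
  obtain ⟨r, hr, h1⟩ := h
  exact ⟨r⁻¹, inv_ne_zero hr, by rw [h1, smul_smul, inv_mul_cancel₀ hr, one_smul]⟩

theorem Tuple.continuous_mor : Continuous (Tuple.mor : X.Tuple d → X.Mor) := by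
  have h2 : Continuous (Quotient.mk (X.tupleSetoid d)) := continuous_quot_mk
  exact (continuous_sigmaMk (σ := fun d : ℕ => Quotient (X.tupleSetoid d)) (i := d)).comp h2

private theorem basis_zariski (σ : Type) :
    @TopologicalSpace.IsTopologicalBasis (σ → k) (zariski σ k)
      {U | ∃ F : MvPolynomial σ k, U = {p | MvPolynomial.aeval p F ≠ 0}} := by
  let _ : TopologicalSpace (σ → k) := zariski σ k
  refine ⟨?_, ?_, rfl⟩
  · rintro _ ⟨F, rfl⟩ _ ⟨G, rfl⟩ x ⟨hx, hx'⟩
    refine ⟨_, ⟨F * G, rfl⟩, ?_, ?_⟩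
    · show MvPolynomial.aeval x (F * G) ≠ 0
      rw [map_mul]
      exact mul_ne_zero hx hx'
    · intro y hy
      have hy' : MvPolynomial.aeval y (F * G) ≠ 0 := hy
      rw [map_mul] at hy'
      exact ⟨left_ne_zero_of_mul hy', right_ne_zero_of_mul hy'⟩
  · refine Set.eq_univ_of_forall fun x => ?_
    refine ⟨_, ⟨1, rfl⟩, ?_⟩
    show MvPolynomial.aeval x (1 : MvPolynomial σ k) ≠ 0
    rw [map_one]
    exact one_ne_zero

private theorem isOpen_ne (p : MvPolynomial (X.ι × Fin (d + 1)) k) :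
    IsOpen {a : X.Tuple d | MvPolynomial.aeval a.1 p ≠ 0} := by
  let _ : TopologicalSpace (X.ι × Fin (d + 1) → k) := zariski (X.ι × Fin (d + 1)) k
  refine isOpen_induced_iff.2 ⟨{x | MvPolynomial.aeval x p ≠ 0}, ?_, rfl⟩
  exact TopologicalSpace.isOpen_generateFrom_of_mem ⟨p, rfl⟩

private theorem isClosed_zero (p : MvPolynomial (X.ι × Fin (d + 1)) k) :
    IsClosed {a : X.Tuple d | MvPolynomial.aeval a.1 p = 0} := by
  rw [← isOpen_compl_iff]
  exact isOpen_ne p

/-- Closed sets of tuples: common zero sets of polynomials (the sets `aeval · F ≠ 0` form a basis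
of the topology, as `F F'` describes the intersection). -/
theorem isClosed_tuple_iff {S : Set (X.Tuple d)} : IsClosed S ↔
    ∃ I : Set (MvPolynomial (X.ι × Fin (d + 1)) k),
      S = {a | ∀ p ∈ I, MvPolynomial.aeval a.1 p = 0} := by
  constructor
  · intro hS
    rw [← isOpen_compl_iff] at hS
    let _ : TopologicalSpace (X.ι × Fin (d + 1) → k) := zariski (X.ι × Fin (d + 1)) k
    obtain ⟨t, ht, hts⟩ := isOpen_induced_iff.1 hS
    refine ⟨{p | {x | MvPolynomial.aeval x p ≠ 0} ⊆ t}, ?_⟩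
    ext a
    constructor
    · intro ha p hp
      by_contra hne
      have h1 : a.1 ∈ t := hp hne
      have h2 : a ∈ Sᶜ := by
        rw [← hts]
        exact h1
      exact h2 ha
    · intro h
      by_contra ha
      have h1 : a ∈ Sᶜ := ha
      rw [← hts] at h1
      obtain ⟨_, ⟨F, rfl⟩, hF1, hF2⟩ :=
        (@TopologicalSpace.IsTopologicalBasis.isOpen_iff _ (zariski _ k) _ _
          (basis_zariski _)).1 ht a.1 h1
      exact hF1 (h F hF2)
  · rintro ⟨I, rfl⟩
    have : {a : X.Tuple d | ∀ p ∈ I, MvPolynomial.aeval a.1 p = 0} =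
        ⋂ p ∈ I, {a : X.Tuple d | MvPolynomial.aeval a.1 p = 0} := by
      ext a
      simp
    rw [this]
    exact isClosed_biInter fun p _ => isClosed_zero p

theorem mem_closure_tuple_iff {S : Set (X.Tuple d)} {a : X.Tuple d} : a ∈ closure S ↔
    ∀ p : MvPolynomial (X.ι × Fin (d + 1)) k, (∀ b ∈ S, MvPolynomial.aeval b.1 p = 0) →
      MvPolynomial.aeval a.1 p = 0 := by
  constructor
  · intro ha p hp
    exact closure_minimal (t := {a : X.Tuple d | MvPolynomial.aeval a.1 p = 0}) hp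
      (isClosed_zero p) ha
  · intro h
    obtain ⟨I, hI⟩ := isClosed_tuple_iff.1 (isClosed_closure (s := S))
    rw [hI]
    intro p hp
    refine h p fun b hb => ?_
    have h1 : b ∈ closure S := subset_closure hb
    rw [hI] at h1
    exact h1 p hp

theorem isClosed_mor_iff {S : Set X.Mor} : IsClosed S ↔
    ∀ d : ℕ, IsClosed {a : X.Tuple d | a.mor ∈ S} := by
  constructor
  · intro h d
    exact h.preimage Tuple.continuous_mor
  · intro h
    refine (isClosed_sigma_iff (s := S)).2 fun d => ?_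
    have hq : Topology.IsQuotientMap (Quotient.mk (X.tupleSetoid d)) := isQuotientMap_quot_mk
    rw [← hq.isClosed_preimage]
    exact h d

private theorem isOpen_mor_iff {S : Set X.Mor} : IsOpen S ↔
    ∀ d : ℕ, IsOpen {a : X.Tuple d | a.mor ∈ S} := by
  rw [← isClosed_compl_iff, isClosed_mor_iff]
  refine forall_congr' fun d => ?_
  rw [← isClosed_compl_iff]
  rfl

/-- Scaling of a tuple. -/
private def sc (a : X.Tuple d) (r : k) (hr : r ≠ 0) : X.Tuple d :=
  ⟨r • a.1, fun s hs => by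
    rw [formVal_smul_left]
    exact (a.2 s hs).smul hr⟩

private theorem sc_mor (a : X.Tuple d) (r : k) (hr : r ≠ 0) : (sc a r hr).mor = a.mor :=
  (mor_eq_iff.2 ⟨r, hr, rfl⟩).symm

private theorem aeval_sc {σ : Type} (a : σ → k) (r : k) (p : MvPolynomial σ k) :
    MvPolynomial.aeval a (MvPolynomial.bind₁
      (fun i => MvPolynomial.C r * MvPolynomial.X i) p) = MvPolynomial.aeval (r • a) p := by
  rw [MvPolynomial.aeval_bind₁]
  congr 2
  funext i
  rw [map_mul, MvPolynomial.aeval_C, MvPolynomial.aeval_X]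
  rfl

private theorem continuous_sc (r : k) (hr : r ≠ 0) :
    Continuous (fun a : X.Tuple d => sc a r hr) := by
  refine continuous_induced_rng.2 ?_
  refine continuous_generateFrom_iff.2 ?_
  rintro _ ⟨F, rfl⟩
  have := isOpen_ne (X := X) (d := d) (MvPolynomial.bind₁
      (fun i => MvPolynomial.C r * MvPolynomial.X i) F)
  simp only [aeval_sc] at this
  exact this

/-- The quotient map is open: the saturation of an open set is the union of its translates under
`k^*`, and `a ↦ r • a` is a homeomorphism. -/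
theorem Tuple.isOpenMap_mor : IsOpenMap (Tuple.mor : X.Tuple d → X.Mor) := by
  intro U hU
  rw [isOpen_mor_iff]
  intro d'
  by_cases hd : d' = d
  · subst hd
    have : {a : X.Tuple d' | a.mor ∈ Tuple.mor '' U} =
        ⋃ (r : k) (hr : r ≠ 0), (fun a : X.Tuple d' => sc a r hr) ⁻¹' U := by
      ext a
      simp only [Set.mem_iUnion]
      constructor
      · rintro ⟨b, hb, hba⟩
        obtain ⟨r, hr, h1⟩ := mor_eq_iff.1 hba.symm
        refine ⟨r, hr, ?_⟩
        have : sc a r hr = b := Subtype.ext h1.symm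
        show sc a r hr ∈ U
        rw [this]
        exact hb
      · rintro ⟨r, hr, h1⟩
        exact ⟨sc a r hr, h1, sc_mor a r hr⟩
    rw [this]
    exact isOpen_iUnion fun r => isOpen_iUnion fun hr => hU.preimage (continuous_sc r hr)
  · have : {a : X.Tuple d' | a.mor ∈ Tuple.mor '' U} = ∅ := by
      ext a
      simp only [Set.mem_empty_iff_false, iff_false]
      rintro ⟨b, hb, hba⟩
      exact hd (congrArg Sigma.fst hba).symm
    rw [this]
    exact isOpen_empty

/-- Closure of a set of morphisms of degree `d`. -/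
theorem mem_closure_mor_iff {S : Set X.Mor} {a : X.Tuple d} : a.mor ∈ closure S ↔
    ∀ p : MvPolynomial (X.ι × Fin (d + 1)) k,
      (∀ b : X.Tuple d, b.mor ∈ S → MvPolynomial.aeval b.1 p = 0) →
        MvPolynomial.aeval a.1 p = 0 := by
  have h1 := Tuple.isOpenMap_mor.preimage_closure_eq_closure_preimage
    (Tuple.continuous_mor (X := X) (d := d)) S
  have h2 : a.mor ∈ closure S ↔ a ∈ closure (Tuple.mor ⁻¹' S) := by
    rw [← h1]
    rfl
  rw [h2, mem_closure_tuple_iff]
  rfl

/-- An irreducible set of morphisms has constant degree. -/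
theorem exists_deg {S : Set X.Mor} (hS : IsIrreducible S) : ∃ d : ℕ, ∀ g ∈ S, g.1 = d := by
  obtain ⟨⟨g, hg⟩, hS⟩ := hS
  refine ⟨g.1, fun g' hg' => ?_⟩
  by_contra hne
  have ho : ∀ A : Set ℕ, IsOpen {g : X.Mor | g.1 ∈ A} := by
    intro A
    rw [isOpen_mor_iff]
    intro d
    by_cases hd : d ∈ A
    · have : {a : X.Tuple d | a.mor ∈ {g : X.Mor | g.1 ∈ A}} = Set.univ :=
        Set.eq_univ_of_forall fun a => hd
      rw [this]
      exact isOpen_univ
    · have : {a : X.Tuple d | a.mor ∈ {g : X.Mor | g.1 ∈ A}} = ∅ :=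
        Set.eq_empty_of_forall_notMem fun a ha => hd ha
      rw [this]
      exact isOpen_empty
  obtain ⟨x, _, hx1, hx2⟩ := hS {h : X.Mor | h.1 ∈ ({g.1} : Set ℕ)}
    {h : X.Mor | h.1 ∈ ({g.1}ᶜ : Set ℕ)} (ho _) (ho _) ⟨g, hg, rfl⟩ ⟨g', hg', hne⟩
  exact hx2 hx1

/-- The closed set of the morphisms all of whose representatives are zeros of `p`. -/
private theorem isClosed_inv (p : MvPolynomial (X.ι × Fin (d + 1)) k) :
    IsClosed {g : X.Mor | ∃ b : X.Tuple d, b.mor = g ∧
      ∀ r : k, r ≠ 0 → MvPolynomial.aeval (r • b.1) p = 0} := by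
  rw [isClosed_mor_iff]
  intro d'
  by_cases hd : d' = d
  · subst hd
    have : {a : X.Tuple d' | a.mor ∈ {g : X.Mor | ∃ b : X.Tuple d', b.mor = g ∧
      ∀ r : k, r ≠ 0 → MvPolynomial.aeval (r • b.1) p = 0}} =
        ⋂ (r : k) (_ : r ≠ 0), {a : X.Tuple d' | MvPolynomial.aeval a.1 (MvPolynomial.bind₁
          (fun i => MvPolynomial.C r * MvPolynomial.X i) p) = 0} := by
      ext a
      simp only [Set.mem_iInter, aeval_sc]
      constructor
      · rintro ⟨b, hb, h⟩ r hr
        obtain ⟨t, ht, h1⟩ := mor_eq_iff.1 hb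
        show MvPolynomial.aeval (r • a.1) p = 0
        rw [h1, smul_smul]
        exact h (r * t) (mul_ne_zero hr ht)
      · intro h
        exact ⟨a, rfl, h⟩
    rw [this]
    exact isClosed_iInter fun r => isClosed_iInter fun _ => isClosed_zero _
  · have : {a : X.Tuple d' | a.mor ∈ {g : X.Mor | ∃ b : X.Tuple d, b.mor = g ∧
      ∀ r : k, r ≠ 0 → MvPolynomial.aeval (r • b.1) p = 0}} = ∅ := by
      ext a
      simp only [Set.mem_empty_iff_false, iff_false]
      rintro ⟨b, hb, -⟩
      exact hd (congrArg Sigma.fst hb).symm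
    rw [this]
    exact isClosed_empty

private theorem exists_line {σ : Type} (a : σ → k) (p : MvPolynomial σ k) :
    ∃ P : k[X], ∀ r : k, P.eval r = MvPolynomial.aeval (r • a) p := by
  refine ⟨MvPolynomial.aeval (fun i => Polynomial.C (a i) * Polynomial.X) p, fun r => ?_⟩
  have h := MvPolynomial.comp_aeval_apply (fun i => Polynomial.C (a i) * Polynomial.X)
    (Polynomial.aeval r : k[X] →ₐ[k] k) p
  rw [Polynomial.coe_aeval_eq_eval] at h
  rw [← Polynomial.coe_aeval_eq_eval] at h ⊢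
  rw [h]
  congr 2
  funext i
  rw [map_mul, Polynomial.aeval_C, Polynomial.aeval_X]
  show a i * r = r * a i
  exact mul_comm _ _

/-- Irreducibility in terms of polynomials.  For the direction from left to right: if `p q`
vanishes on all representatives `b` of elements of `S`, then for each `b` the product of the
one-variable polynomials `p(r b)`, `q(r b)` in `r` vanishes for all `r ≠ 0`, so one of them is
zero; hence the representatives are covered by the two closed and scaling invariant sets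
`{b | ∀ r ≠ 0, p(r b) = 0}` and `{b | ∀ r ≠ 0, q(r b) = 0}`, whose images in `Mor` are closed. -/
theorem isIrreducible_mor_iff [Infinite k] {S : Set X.Mor} (hS : ∀ g ∈ S, g.1 = d) :
    IsIrreducible S ↔ S.Nonempty ∧ ∀ p q : MvPolynomial (X.ι × Fin (d + 1)) k,
      (∀ b : X.Tuple d, b.mor ∈ S → MvPolynomial.aeval b.1 (p * q) = 0) →
        (∀ b : X.Tuple d, b.mor ∈ S → MvPolynomial.aeval b.1 p = 0) ∨
        (∀ b : X.Tuple d, b.mor ∈ S → MvPolynomial.aeval b.1 q = 0) := by
  constructor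
  · rintro ⟨hne, hirr⟩
    refine ⟨hne, fun p q hpq => ?_⟩
    have hcov : S ⊆ {g : X.Mor | ∃ b : X.Tuple d, b.mor = g ∧
        ∀ r : k, r ≠ 0 → MvPolynomial.aeval (r • b.1) p = 0} ∪
        {g : X.Mor | ∃ b : X.Tuple d, b.mor = g ∧
        ∀ r : k, r ≠ 0 → MvPolynomial.aeval (r • b.1) q = 0} := by
      intro g hg
      obtain ⟨a, ha⟩ := Mor.exists_tuple g
      have hgd := hS g hg
      subst hgd
      obtain ⟨P, hP⟩ := exists_line a.1 p
      obtain ⟨Q, hQ⟩ := exists_line a.1 q
      have hPQ : P * Q = 0 := by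
        refine Polynomial.eq_zero_of_infinite_isRoot _ ?_
        refine Set.Infinite.mono (s := {0}ᶜ) ?_ (Set.finite_singleton (0 : k)).infinite_compl
        intro r hr
        have hr' : r ≠ 0 := hr
        have h1 := hpq (sc a r hr') (by rw [sc_mor, ← ha]; exact hg)
        show (P * Q).IsRoot r
        rw [Polynomial.IsRoot, Polynomial.eval_mul, hP, hQ, ← map_mul]
        exact h1
      rcases mul_eq_zero.1 hPQ with h | h
      · refine Or.inl ⟨a, ha.symm, fun r _ => ?_⟩
        rw [← hP, h, Polynomial.eval_zero]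
      · refine Or.inr ⟨a, ha.symm, fun r _ => ?_⟩
        rw [← hQ, h, Polynomial.eval_zero]
    have huse : ∀ p : MvPolynomial (X.ι × Fin (d + 1)) k,
        S ⊆ {g : X.Mor | ∃ b : X.Tuple d, b.mor = g ∧
        ∀ r : k, r ≠ 0 → MvPolynomial.aeval (r • b.1) p = 0} →
        ∀ b : X.Tuple d, b.mor ∈ S → MvPolynomial.aeval b.1 p = 0 := by
      intro p hp b hb
      obtain ⟨a, ha, h⟩ := hp hb
      obtain ⟨r, hr, h1⟩ := mor_eq_iff.1 ha
      rw [h1]
      exact h r hr
    rcases isPreirreducible_iff_isClosed_union_isClosed.1 hirr _ _ (isClosed_inv p)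
      (isClosed_inv q) hcov with h | h
    · exact Or.inl (huse p h)
    · exact Or.inr (huse q h)
  · rintro ⟨hne, h⟩
    refine ⟨hne, isPreirreducible_iff_isClosed_union_isClosed.2 fun z₁ z₂ h1 h2 hcov => ?_⟩
    by_contra hcon
    push Not at hcon
    obtain ⟨hc1, hc2⟩ := hcon
    obtain ⟨g₁, hg₁, hz₁⟩ := Set.not_subset.1 hc1
    obtain ⟨g₂, hg₂, hz₂⟩ := Set.not_subset.1 hc2
    have hex : ∀ z : Set X.Mor, IsClosed z → ∀ g ∈ S, g ∉ z →
        ∃ p : MvPolynomial (X.ι × Fin (d + 1)) k,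
          (∀ b : X.Tuple d, b.mor ∈ z → MvPolynomial.aeval b.1 p = 0) ∧
          ∃ b : X.Tuple d, b.mor ∈ S ∧ MvPolynomial.aeval b.1 p ≠ 0 := by
      intro z hz g hg hgz
      obtain ⟨a, ha⟩ := Mor.exists_tuple g
      have hgd := hS g hg
      subst hgd
      obtain ⟨I, hI⟩ := isClosed_tuple_iff.1 (isClosed_mor_iff.1 hz g.1)
      have h3 : a ∉ {a : X.Tuple g.1 | a.mor ∈ z} := by
        intro h4
        have h5 : a.mor ∈ z := h4
        rw [← ha] at h5
        exact hgz h5
      rw [hI] at h3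
      have h4 : ¬ ∀ p ∈ I, MvPolynomial.aeval a.1 p = 0 := h3
      push Not at h4
      obtain ⟨p, hp, hpa⟩ := h4
      refine ⟨p, fun b hb => ?_, a, by rw [← ha]; exact hg, hpa⟩
      have h5 : b ∈ {a : X.Tuple g.1 | a.mor ∈ z} := hb
      rw [hI] at h5
      exact h5 p hp
    obtain ⟨p, hp, b₁, hb₁, hpb⟩ := hex z₁ h1 g₁ hg₁ hz₁
    obtain ⟨q, hq, b₂, hb₂, hqb⟩ := hex z₂ h2 g₂ hg₂ hz₂
    have hpq : ∀ b : X.Tuple d, b.mor ∈ S → MvPolynomial.aeval b.1 (p * q) = 0 := by
      intro b hb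
      rw [map_mul]
      rcases hcov hb with h3 | h3
      · rw [hp b h3, zero_mul]
      · rw [hq b h3, mul_zero]
    rcases h p q hpq with h3 | h3
    · exact hpb (h3 b₁ hb₁)
    · exact hqb (h3 b₂ hb₂)

/-- The class is computed with any representative. -/
theorem Tuple.cls_mor (a : X.Tuple d) (D : X.CaDiv) :
    a.mor.cls D = (X.deg (X.tupleGen d a.1) D : ℝ) := by
  obtain ⟨r, hr, h⟩ := a.out_eq
  have h1 : a.mor.cls D = (X.deg (X.tupleGen d a.mor.2.out.1) D : ℝ) := rfl
  have hr' : algebraMap k (RatFunc k) r ≠ 0 := by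
    rw [Ne, FaithfulSMul.algebraMap_eq_zero_iff]
    exact hr
  have h2 : X.tupleGen d (r • a.1) = algebraMap k (RatFunc k) r • X.tupleGen d a.1 := by
    funext i
    rw [Pi.smul_apply, smul_eq_mul]
    unfold tupleGen
    rw [Finset.mul_sum]
    refine Finset.sum_congr rfl fun j _ => ?_
    rw [Pi.smul_apply, smul_eq_mul, map_mul, mul_assoc]
  rw [h1, h, h2, deg_smul hr']

/-- Compositions in terms of representatives. -/
theorem isComp_mor_iff [IsAlgClosed k] (f : Hom Y X) {e : ℕ} (b : Y.Tuple e) (a : X.Tuple d) :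
    f.IsComp b.mor a.mor ↔ ∀ s : k × k, s ≠ 0 → ∃ r : k, r ≠ 0 ∧
      f.app (Y.formVal e b.1 s) = r • X.formVal d a.1 s := by
  obtain ⟨r₁, hr₁, h₁⟩ := b.out_eq
  obtain ⟨r₂, hr₂, h₂⟩ := a.out_eq
  have h0 : f.IsComp b.mor a.mor ↔ ∀ s : k × k, s ≠ 0 → ∃ r : k, r ≠ 0 ∧
      f.app (Y.formVal e b.mor.2.out.1 s) = r • X.formVal d a.mor.2.out.1 s := Iff.rfl
  rw [h0, h₁, h₂]
  refine forall_congr' fun s => forall_congr' fun hs => ?_
  rw [formVal_smul_left, formVal_smul_left]
  obtain ⟨t, ht, h3⟩ := f.app_smul (b.2 s hs) hr₁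
  rw [h3]
  constructor
  · rintro ⟨r, hr, h⟩
    refine ⟨t⁻¹ * (r * r₂), mul_ne_zero (inv_ne_zero ht) (mul_ne_zero hr hr₂), ?_⟩
    rw [mul_smul, mul_smul, ← h, smul_smul, inv_mul_cancel₀ ht, one_smul]
  · rintro ⟨r, hr, h⟩
    refine ⟨t * r * r₂⁻¹, mul_ne_zero (mul_ne_zero ht hr) (inv_ne_zero hr₂), ?_⟩
    rw [h, smul_smul, smul_smul, mul_assoc (t * r), inv_mul_cancel₀ hr₂, mul_one]

/-- A maximal irreducible subset of the morphisms of class `α` is closed in this set. -/
theorem IsComponent.mem_of_closure {α : X.CaDiv → ℝ} {M : Set X.Mor} (hM : X.IsComponent α M)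
    {g : X.Mor} (hg : g ∈ closure M) (h : g.cls = α) : g ∈ M := by
  have hcl : closure (insert g M) = closure M := by
    refine subset_antisymm ?_ (closure_mono (Set.subset_insert g M))
    exact closure_minimal (Set.insert_subset hg subset_closure) isClosed_closure
  have hirr : IsIrreducible (insert g M) := by
    rw [← isIrreducible_iff_closure, hcl, isIrreducible_iff_closure]
    exact hM.1.1
  have h2 : insert g M ≤ M := by
    refine hM.2 ⟨hirr, ?_⟩ (Set.subset_insert g M)
    rintro x (rfl | hx)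
    · exact h
    · exact hM.1.2 x hx
  exact h2 (Set.mem_insert g M)

end ProjVar

end Pool.Agent.MP9a7843
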