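import Pool.Agent.Lib.MP_9a7843_ag.Loc

/-!
# Affine charts, centres of valuation rings, compactness (blocks C1, C2, C3, C4)
-/

noncomputable section

open MvPolynomial

namespace Pool.Agent.MP9a7843

namespace ProjVar

universe u

variable {k : Type u} [Field k] {Y : ProjVar k} {F : Type u} [Field F] [Algebra k F]
  {c : Y.ι → F}

/-- The affine coordinate ring `k[z_i / z_j]` of the chart `y_j ≠ 0`. -/
def affRing (Y : ProjVar k) (j : Y.ι) : Subalgebra k Y.K :=
  Algebra.adjoin k (Set.range fun i => Y.z i / Y.z j)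

/-- The generators lie in the local ring (`coord_div_mem`). -/
theorem affRing_le_loc {j : Y.ι} (hj : c j ≠ 0) : Y.affRing j ≤ Y.loc c := by
  exact Algebra.adjoin_le (by rintro _ ⟨i, rfl⟩; exact coord_div_mem i hj)

/-- The elements of the affine ring are the `G(z) / z_j^d`, `G` a form of degree `d`
(dehomogenise; sums: multiply by powers of `X_j`). -/
theorem mem_affRing_iff {j : Y.ι} (hj : Y.z j ≠ 0) {a : Y.K} : a ∈ Y.affRing j ↔
    ∃ (d : ℕ) (G : MvPolynomial Y.ι k), G.IsHomogeneous d ∧ a = aeval Y.z G / Y.z j ^ d := by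
  constructor
  · intro h
    refine Algebra.adjoin_induction (p := fun a _ => ∃ (d : ℕ) (G : MvPolynomial Y.ι k),
      G.IsHomogeneous d ∧ a = aeval Y.z G / Y.z j ^ d) ?_ ?_ ?_ ?_ h
    · rintro _ ⟨i, rfl⟩
      exact ⟨1, X i, isHomogeneous_X _ _, by simp⟩
    · exact fun r => ⟨0, C r, isHomogeneous_C _ _, by simp⟩
    · rintro x y - - ⟨d, G, hG, rfl⟩ ⟨d', G', hG', rfl⟩
      have h1 : (G * X j ^ d' + X j ^ d * G').IsHomogeneous (d + d') := by
        have h2 := (isHomogeneous_X (R := k) j).pow d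
        have h3 := (isHomogeneous_X (R := k) j).pow d'
        rw [one_mul] at h2 h3
        exact (hG.mul h3).add (h2.mul hG')
      refine ⟨d + d', _, h1, ?_⟩
      rw [div_add_div _ _ (pow_ne_zero _ hj) (pow_ne_zero _ hj), pow_add]
      simp
    · rintro x y - - ⟨d, G, hG, rfl⟩ ⟨d', G', hG', rfl⟩
      refine ⟨d + d', G * G', hG.mul hG', ?_⟩
      rw [div_mul_div_comm, pow_add, map_mul]
  · rintro ⟨d, G, hG, rfl⟩
    have h1 : aeval Y.z G / Y.z j ^ d = aeval ((Y.z j)⁻¹ • Y.z) G := by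
      rw [aeval_smul (c := Y.z) hG, inv_pow]
      exact div_eq_inv_mul _ _
    have h2 : ((Y.z j)⁻¹ • Y.z) = fun i => Y.z i / Y.z j := by
      funext i
      rw [Pi.smul_apply, smul_eq_mul, div_eq_inv_mul]
    rw [h1, h2, affRing, Algebra.adjoin_range_eq_range_aeval]
    exact ⟨G, rfl⟩

/-- `loc c` consists of the quotients `x / y`, `x, y` in the affine ring, `y(c) ≠ 0`
(`G/H = (G/z_j^d)/(H/z_j^d)`). -/
theorem mem_loc_iff_affRing (hc : Y.IsPt c) {j : Y.ι} (hj : c j ≠ 0) {a : Y.K} :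
    a ∈ Y.loc c ↔ ∃ x ∈ Y.affRing j, ∃ y ∈ Y.affRing j, Y.ev c y ≠ 0 ∧ a = x / y := by
  have hz := z_ne_zero hc hj
  constructor
  · intro ha
    obtain ⟨b, d, G, H, hG, hH, h0, rfl, -⟩ := (mem_loc_iff hc).1 ha
    have hX : (X j ^ d : MvPolynomial Y.ι k).IsHomogeneous d := by
      simpa using (isHomogeneous_X (R := k) j).pow d
    have hX0 : aeval c (X j ^ d : MvPolynomial Y.ι k) ≠ 0 := by simpa using fun h => (hj h).elim
    refine ⟨aeval Y.z G / Y.z j ^ d, (mem_affRing_iff hz).2 ⟨d, G, hG, rfl⟩,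
      aeval Y.z H / Y.z j ^ d, (mem_affRing_iff hz).2 ⟨d, H, hH, rfl⟩, ?_, ?_⟩
    · have h1 := ev_form_div hc hH hX hX0
      simp only [map_pow, aeval_X] at h1 hX0
      rw [h1]
      exact div_ne_zero h0 hX0
    · rw [div_div_div_cancel_right₀ (pow_ne_zero _ hz)]
  · rintro ⟨x, hx, y, hy, h, rfl⟩
    rw [div_eq_mul_inv]
    exact mul_mem (affRing_le_loc hj hx) (inv_mem_loc hc (affRing_le_loc hj hy) h)

/-- The affine ring is a finitely generated algebra. -/
theorem finiteType_affRing (j : Y.ι) : Algebra.FiniteType k (Y.affRing j) := by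
  exact Algebra.FiniteType.adjoin_of_finite (Set.finite_range _)

/-- The field of fractions of the affine ring is `K` (for `z_j ≠ 0`). -/
theorem isFractionRing_affRing {j : Y.ι} (hj : Y.z j ≠ 0) : IsFractionRing (Y.affRing j) Y.K := by
  refine IsFractionRing.of_field _ _ fun a => ?_
  obtain ⟨d, G, H, hG, hH, h0, rfl⟩ := exists_forms a
  refine ⟨⟨aeval Y.z G / Y.z j ^ d, (mem_affRing_iff hj).2 ⟨d, G, hG, rfl⟩⟩,
    ⟨aeval Y.z H / Y.z j ^ d, (mem_affRing_iff hj).2 ⟨d, H, hH, rfl⟩⟩, ?_⟩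
  change _ = (aeval Y.z G / Y.z j ^ d) / (aeval Y.z H / Y.z j ^ d)
  rw [div_div_div_cancel_right₀ (pow_ne_zero _ hj)]

/-- The field of fractions of the local ring is `K` (`exists_loc_div`). -/
theorem isFractionRing_loc (hc : Y.IsPt c) : IsFractionRing (Y.loc c) Y.K := by
  refine IsFractionRing.of_field _ _ fun a => ?_
  obtain ⟨x, hx, y, hy, -, h⟩ := exists_loc_div hc a
  exact ⟨⟨x, hx⟩, ⟨y, hy⟩, h⟩

/-- The prime ideal of the point `c` in the affine ring. -/
def primeAt (hc : Y.IsPt c) {j : Y.ι} (hj : c j ≠ 0) : Ideal (Y.affRing j) where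
  carrier := {a | Y.ev c a = 0}
  add_mem' := by
    intro a b ha hb
    change Y.ev c ((a : Y.K) + b) = 0
    rw [ev_add hc (affRing_le_loc hj a.2) (affRing_le_loc hj b.2), ha, hb, add_zero]
  zero_mem' := ev_zero hc
  smul_mem' := by
    intro a b hb
    change Y.ev c ((a : Y.K) * b) = 0
    rw [ev_mul hc (affRing_le_loc hj a.2) (affRing_le_loc hj b.2), hb, mul_zero]

theorem mem_primeAt (hc : Y.IsPt c) {j : Y.ι} (hj : c j ≠ 0) (a : Y.affRing j) :
    a ∈ primeAt hc hj ↔ Y.ev c a = 0 := by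
  exact Iff.rfl

/-- It is a prime ideal (kernel of a homomorphism to a field). -/
instance isPrime_primeAt (hc : Y.IsPt c) {j : Y.ι} (hj : c j ≠ 0) : (primeAt hc hj).IsPrime := by
  refine Ideal.isPrime_iff.2 ⟨fun h => ?_, fun {x y} h => ?_⟩
  · have h1 : (1 : Y.affRing j) ∈ primeAt hc hj := h ▸ Submodule.mem_top
    rw [mem_primeAt] at h1
    exact one_ne_zero ((ev_one hc).symm.trans h1)
  · rw [mem_primeAt] at h
    have h1 : Y.ev c ((x : Y.K) * (y : Y.K)) = 0 := h
    rw [ev_mul hc (affRing_le_loc hj x.2) (affRing_le_loc hj y.2)] at h1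
    rcases mul_eq_zero.1 h1 with h2 | h2
    · exact Or.inl ((mem_primeAt hc hj x).2 h2)
    · exact Or.inr ((mem_primeAt hc hj y).2 h2)

private theorem coe_incl {j : Y.ι} (hj : c j ≠ 0) (x : Y.affRing j) :
    (((Subalgebra.inclusion (affRing_le_loc (Y := Y) hj)).toRingHom x : Y.loc c) : Y.K) = x := by
  rw [AlgHom.toRingHom_eq_coe, RingHom.coe_coe, Subalgebra.coe_inclusion]

/-- `loc c` is the localisation of the affine ring at the prime ideal of `c`
(`mem_loc_iff_affRing`). -/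
theorem isLocalization_loc (hc : Y.IsPt c) {j : Y.ι} (hj : c j ≠ 0) :
    letI := (Subalgebra.inclusion (affRing_le_loc (Y := Y) hj)).toRingHom.toAlgebra
    IsLocalization.AtPrime (Y.loc c) (primeAt hc hj) := by
  let := (Subalgebra.inclusion (affRing_le_loc (Y := Y) hj)).toRingHom.toAlgebra
  have key : ∀ x : Y.affRing j,
      ((algebraMap (Y.affRing j) (Y.loc c) x : Y.loc c) : Y.K) = x := by
    intro x
    rw [RingHom.algebraMap_toAlgebra]
    exact coe_incl hj x
  refine ⟨?_, ?_, ?_⟩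
  · rintro ⟨x, hx⟩
    rw [isUnit_loc_iff hc, key]
    exact fun h => hx ((mem_primeAt hc hj x).2 h)
  · rintro ⟨a, ha⟩
    obtain ⟨x, hx, y, hy, h, h1⟩ := (mem_loc_iff_affRing hc hj).1 ha
    have hy1 : (⟨y, hy⟩ : Y.affRing j) ∈ (primeAt hc hj).primeCompl :=
      fun h2 => h ((mem_primeAt hc hj ⟨y, hy⟩).1 h2)
    refine ⟨⟨⟨x, hx⟩, ⟨⟨y, hy⟩, hy1⟩⟩, ?_⟩
    have hy0 : y ≠ 0 := by
      rintro rfl
      exact h (ev_zero hc)
    apply Subtype.ext
    rw [Subalgebra.coe_mul, key, key]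
    change a * y = x
    rw [h1, div_mul_cancel₀ _ hy0]
  · intro x y hxy
    refine ⟨1, ?_⟩
    have : (x : Y.K) = y := by
      rw [← key x, ← key y, hxy]
    rw [Subtype.ext this]

/-- Localisations of Noetherian rings are Noetherian. -/
theorem isNoetherianRing_loc (hc : Y.IsPt c) : IsNoetherianRing (Y.loc c) := by
  obtain ⟨j, hj⟩ := hc.1
  let := (Subalgebra.inclusion (affRing_le_loc (Y := Y) hj)).toRingHom.toAlgebra
  have := isLocalization_loc hc hj
  have := finiteType_affRing (Y := Y) j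
  have : IsNoetherianRing (Y.affRing j) := Algebra.FiniteType.isNoetherianRing k _
  exact IsLocalization.isNoetherianRing (primeAt hc hj).primeCompl _ inferInstance

/-- Localisations of finitely generated algebras are essentially of finite type. -/
theorem essFiniteType_loc (hc : Y.IsPt c) : Algebra.EssFiniteType k (Y.loc c) := by
  obtain ⟨j, hj⟩ := hc.1
  let := (Subalgebra.inclusion (affRing_le_loc (Y := Y) hj)).toRingHom.toAlgebra
  have := isLocalization_loc hc hj
  have := finiteType_affRing (Y := Y) j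
  have : IsScalarTower k (Y.affRing j) (Y.loc c) := by
    refine IsScalarTower.of_algebraMap_eq fun r => ?_
    apply Subtype.ext
    rw [RingHom.algebraMap_toAlgebra, coe_incl hj, Subalgebra.coe_algebraMap,
      Subalgebra.coe_algebraMap]
  have := Algebra.EssFiniteType.of_isLocalization (Y.loc c) (primeAt hc hj).primeCompl
  exact Algebra.EssFiniteType.comp k (Y.affRing j) (Y.loc c)

/-- `K` is a finitely generated field extension of `k`. -/
theorem essFiniteType_K : Algebra.EssFiniteType k Y.K := by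
  rw [← IntermediateField.fg_top_iff, ← Y.adjoin_eq_top]
  refine IntermediateField.fg_adjoin_of_finite ?_
  refine (Set.finite_range fun p : Y.ι × Y.ι => Y.z p.1 / Y.z p.2).subset ?_
  rintro _ ⟨i, j, rfl⟩
  exact ⟨(i, j), rfl⟩

/-- The transcendence degree of `K` is finite, so `Y.dim` is the transcendence degree. -/
theorem trdeg_eq_dim : Algebra.trdeg k Y.K = (Y.dim : Cardinal) := by
  have := essFiniteType_K (Y := Y)
  exact (Cardinal.cast_toNat_of_lt_aleph0 (trdeg_lt_aleph0 k Y.K)).symm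

/-! ### Centres -/

/-- For a valuation ring `A` of `F` some coordinate of `c` has maximal value
(finitely many coordinates; `c_i / c_j` or `c_j / c_i` lies in `A`). -/
theorem exists_index (hc : Y.IsPt c) (A : ValuationSubring F) :
    ∃ j, c j ≠ 0 ∧ ∀ i, c i / c j ∈ A := by
  obtain ⟨j, hj⟩ := Finite.exists_max fun i => A.valuation (c i)
  obtain ⟨i, hi⟩ := hc.1
  have hj0 : c j ≠ 0 := by
    intro h
    have h1 := hj i
    rw [h, map_zero, le_zero_iff, map_eq_zero] at h1
    exact hi h1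
  have hv : A.valuation (c j) ≠ 0 := by
    rw [Ne, map_eq_zero]
    exact hj0
  refine ⟨j, hj0, fun i => ?_⟩
  rw [← A.valuation_le_one_iff, map_div₀]
  exact div_le_one_of_le₀ (hj i) zero_le'

private theorem poly_mem {σ : Type} {x : σ → F} {A : ValuationSubring F}
    (hA : ∀ r : k, algebraMap k F r ∈ A) (hx : ∀ i, x i ∈ A) (P : MvPolynomial σ k) :
    aeval x P ∈ A := by
  induction P using MvPolynomial.induction_on with
  | C r =>
    rw [aeval_C]
    exact hA r
  | add P R hP hR =>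
    rw [map_add]
    exact add_mem hP hR
  | mul_X P i hP =>
    rw [map_mul, aeval_X]
    exact mul_mem hP (hx i)

/-- The polynomials with value in the maximal ideal. -/
private def qIdeal {σ : Type} (x : σ → F) (A : ValuationSubring F)
    (hA : ∀ r : k, algebraMap k F r ∈ A) (hx : ∀ i, x i ∈ A) : Ideal (MvPolynomial σ k) where
  carrier := {P | A.valuation (aeval x P) < 1}
  add_mem' := by
    intro P R hP hR
    show A.valuation (aeval x (P + R)) < 1
    rw [map_add]
    exact (A.valuation.map_add _ _).trans_lt (max_lt hP hR)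
  zero_mem' := by
    show A.valuation (aeval x 0) < 1
    rw [map_zero, map_zero]
    exact zero_lt_one
  smul_mem' := by
    intro P R hR
    show A.valuation (aeval x (P • R)) < 1
    rw [smul_eq_mul, map_mul, map_mul]
    exact mul_lt_one_of_nonneg_of_lt_one_right
      ((A.valuation_le_one_iff _).2 (poly_mem hA hx P)) zero_le' hR

private theorem qIdeal_prime {σ : Type} (x : σ → F) (A : ValuationSubring F)
    (hA : ∀ r : k, algebraMap k F r ∈ A) (hx : ∀ i, x i ∈ A) : (qIdeal x A hA hx).IsPrime := by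
  refine ⟨?_, ?_⟩
  · rw [Ideal.ne_top_iff_one]
    intro h
    have h1 : A.valuation (aeval x (1 : MvPolynomial σ k)) < 1 := h
    rw [map_one, map_one] at h1
    exact lt_irrefl _ h1
  · intro P R h
    have h1 : A.valuation (aeval x (P * R)) < 1 := h
    by_contra hc
    rw [not_or] at hc
    have h2 : ¬ A.valuation (aeval x P) < 1 := hc.1
    have h3 : ¬ A.valuation (aeval x R) < 1 := hc.2
    rw [map_mul, map_mul] at h1
    exact absurd h1 (not_lt.2 (one_le_mul (not_lt.1 h2) (not_lt.1 h3)))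

private theorem null_aux [IsAlgClosed k] {σ : Type} [Finite σ] (x : σ → F)
    (A : ValuationSubring F) (hA : ∀ r : k, algebraMap k F r ∈ A) (hx : ∀ i, x i ∈ A)
    (P : MvPolynomial σ k) (hP : ¬ A.valuation (aeval x P) < 1) :
    ∃ y : σ → k, aeval y P ≠ 0 ∧ ∀ R : MvPolynomial σ k, A.valuation (aeval x R) < 1 →
      aeval y R = 0 := by
  have := qIdeal_prime x A hA hx
  have h := MvPolynomial.IsPrime.vanishingIdeal_zeroLocus (K := k) (qIdeal x A hA hx)
  have h2 : P ∉ qIdeal x A hA hx := hP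
  rw [← h, mem_vanishingIdeal_iff] at h2
  push Not at h2
  obtain ⟨y, hy, hP0⟩ := h2
  exact ⟨y, hP0, fun R hR => hy R hR⟩

private theorem aeval_div {c : Y.ι → F} {j : Y.ι} {d : ℕ} {H : MvPolynomial Y.ι k}
    (hH : H.IsHomogeneous d) : aeval (fun i => c i / c j) H = aeval c H / c j ^ d := by
  have h := aeval_smul (Y := Y) (c := c) hH (c j)⁻¹
  have e : (fun i => c i / c j) = (c j)⁻¹ • c := by
    funext i
    rw [Pi.smul_apply, smul_eq_mul, div_eq_inv_mul]
  rw [e, h, inv_pow, div_eq_inv_mul]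

/-- C2, existence of centres.  The ring `B = k[c_i/c_j] ⊂ A` is a finitely generated
`k`-algebra, `q = m_A ∩ B` a prime ideal which does not contain the units `H_t(c)/c_j^d` of `A`.
By the Nullstellensatz (`B` is a Jacobson ring, residue fields of `B` are `k`) there is a maximal
ideal `n ⊃ q` which does not contain any of the finitely many `H_t(c)/c_j^d`.  Put
`y_i = c_i/c_j mod n`.  Then for a form `H` of degree `d`: `H(y) = (H(c)/c_j^d mod n)`; if
`H(y) ≠ 0` then `H(c)/c_j^d` is in `B \ n ⊂ B \ q`, so it is a unit of `A`. -/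
theorem exists_centre [IsAlgClosed k] (hc : Y.IsPt c) (A : ValuationSubring F)
    (hA : ∀ r : k, algebraMap k F r ∈ A) {j : Y.ι} (hj : c j ≠ 0) (hjA : ∀ i, c i / c j ∈ A)
    {τ : Type*} (s : Finset τ) (d : τ → ℕ) (H : τ → MvPolynomial Y.ι k)
    (hH : ∀ t ∈ s, (H t).IsHomogeneous (d t))
    (hH' : ∀ t ∈ s, aeval c (H t) ≠ 0 ∧ (aeval c (H t) / c j ^ d t)⁻¹ ∈ A) :
    ∃ y : Y.ι → k, Y.IsPt y ∧ y j ≠ 0 ∧ (∀ t ∈ s, aeval y (H t) ≠ 0) ∧ Spec c y ∧
      ∀ a ∈ Y.loc y, Y.ev c a ∈ A := by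
  classical
  have hval : ∀ t ∈ s, ¬ A.valuation (aeval (fun i => c i / c j) (H t)) < 1 := by
    intro t ht h
    obtain ⟨h0, h1⟩ := hH' t ht
    rw [aeval_div (hH t ht)] at h
    rw [← A.valuation_le_one_iff, map_inv₀] at h1
    have hne : A.valuation (aeval c (H t) / c j ^ d t) ≠ 0 := by
      rw [Ne, map_eq_zero]
      exact div_ne_zero h0 (pow_ne_zero _ hj)
    have h2 : 1 ≤ A.valuation (aeval c (H t) / c j ^ d t) := by
      rwa [inv_le_one₀ (zero_lt_iff.2 hne)] at h1
    exact absurd h (not_lt.2 h2)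
  have hprod : ¬ A.valuation (aeval (fun i => c i / c j) (∏ t ∈ s, H t)) < 1 := by
    rw [map_prod, map_prod, not_lt]
    exact Finset.one_le_prod' fun t ht => not_lt.1 (hval t ht)
  obtain ⟨y, hy0, hy⟩ := null_aux (fun i => c i / c j) A hA hjA _ hprod
  have hker : ∀ R : MvPolynomial Y.ι k, aeval (fun i => c i / c j) R = 0 → aeval y R = 0 := by
    intro R hR
    refine hy R ?_
    rw [hR, map_zero]
    exact zero_lt_one
  have hspec : Spec c y := by
    intro e G hG h0
    refine hker G ?_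
    rw [aeval_div hG, h0, zero_div]
  have hyj : y j ≠ 0 := by
    have h1 := hker (X j - 1) (by simp [hj])
    have h2 : y j = 1 := by
      simpa [sub_eq_zero] using h1
    rw [h2]
    exact one_ne_zero
  refine ⟨y, ⟨⟨j, hyj⟩, fun e G hG h0 => hspec e G hG (hc.2 e G hG h0)⟩, hyj, ?_, hspec, ?_⟩
  · intro t ht h0
    apply hy0
    rw [map_prod]
    exact Finset.prod_eq_zero ht h0
  · have hyp : Y.IsPt y := ⟨⟨j, hyj⟩, fun e G hG h0 => hspec e G hG (hc.2 e G hG h0)⟩
    intro a ha
    obtain ⟨b, e, G, R, hG, hR, hR0, rfl, -⟩ := (mem_loc_iff hyp).1 ha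
    have hRc : aeval c R ≠ 0 := fun h0 => hR0 (hspec e R hR h0)
    rw [ev_form_div hc hG hR hRc]
    have h1 : ¬ A.valuation (aeval (fun i => c i / c j) R) < 1 := fun h => hR0 (hy R h)
    have h2 : A.valuation (aeval (fun i => c i / c j) G) ≤ 1 :=
      (A.valuation_le_one_iff _).2 (poly_mem hA hjA G)
    have e1 : aeval c G / aeval c R =
        aeval (fun i => c i / c j) G / aeval (fun i => c i / c j) R := by
      rw [aeval_div hG, aeval_div hR]
      have := pow_ne_zero e hj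
      field_simp
    rw [e1, ← A.valuation_le_one_iff, map_div₀]
    exact div_le_one_of_le₀ (h2.trans (not_lt.1 h1)) zero_le'

/-- The closure of `c` contains a closed point at which finitely many given forms, non-vanishing
at `c`, do not vanish (`exists_centre` with `A = ⊤`). -/
theorem exists_spec [IsAlgClosed k] (hc : Y.IsPt c) {τ : Type*} (s : Finset τ) (d : τ → ℕ)
    (H : τ → MvPolynomial Y.ι k) (hH : ∀ t ∈ s, (H t).IsHomogeneous (d t))
    (hH' : ∀ t ∈ s, aeval c (H t) ≠ 0) :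
    ∃ y : Y.ι → k, Y.IsPt y ∧ Spec c y ∧ ∀ t ∈ s, aeval y (H t) ≠ 0 := by
  obtain ⟨j, hj, hjA⟩ := exists_index hc (⊤ : ValuationSubring F)
  obtain ⟨y, h1, -, h2, h3, -⟩ := exists_centre hc (⊤ : ValuationSubring F)
    (fun _ => ValuationSubring.mem_top _) hj hjA s d H hH
    (fun t ht => ⟨hH' t ht, ValuationSubring.mem_top _⟩)
  exact ⟨y, h1, h3, h2⟩

/-- Nullstellensatz: a form which vanishes at all closed points vanishes at the generic point. -/
theorem aeval_z_eq_zero [IsAlgClosed k] {d : ℕ} {G : MvPolynomial Y.ι k}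
    (hG : G.IsHomogeneous d) (h : ∀ y : Y.ι → k, Y.IsPt y → aeval y G = 0) :
    aeval Y.z G = 0 := by
  by_contra h0
  obtain ⟨y, h1, -, h2⟩ := exists_spec (Y := Y) (c := Y.z) isPt_z (τ := Unit) {()} (fun _ => d)
    (fun _ => G) (fun _ _ => hG) (fun _ _ => h0)
  exact h2 () (Finset.mem_singleton_self _) (h y h1)

/-- Centre at the generic point: for a valuation ring `A ⊃ k` of `K` there is a closed point `y`
with `loc y ⊂ A`. -/
theorem exists_centre_z [IsAlgClosed k] (A : ValuationSubring Y.K)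
    (hA : ∀ r : k, algebraMap k Y.K r ∈ A) :
    ∃ y : Y.ι → k, Y.IsPt y ∧ ∀ a ∈ Y.loc y, a ∈ A := by
  obtain ⟨j, hj, hjA⟩ := exists_index (Y := Y) (c := Y.z) isPt_z A
  obtain ⟨y, h1, -, -, -, h2⟩ := exists_centre (Y := Y) (c := Y.z) isPt_z A hA hj hjA
    (τ := Empty) ∅ (fun _ => 0) (fun _ => 0) (fun t _ => t.elim) (fun t _ => t.elim)
  refine ⟨y, h1, fun a ha => ?_⟩
  have := h2 a ha
  rwa [ev_z] at this

/-- A form that does not vanish at a point `y` with `loc y → A` is a unit of `A` after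
dehomogenisation: `z_j^d / H ∈ loc y` for the first, `c_i / c_j ∈ A` for the second inclusion. -/
theorem unit_of_ne_zero (hc : Y.IsPt c) (A : ValuationSubring F)
    (hA : ∀ r : k, algebraMap k F r ∈ A) {j : Y.ι} (hj : c j ≠ 0) (hjA : ∀ i, c i / c j ∈ A)
    {y : Y.ι → k} (hy : Y.IsPt y) (hs : Spec c y) (h : ∀ a ∈ Y.loc y, Y.ev c a ∈ A)
    {d : ℕ} {H : MvPolynomial Y.ι k} (hH : H.IsHomogeneous d) (h0 : aeval y H ≠ 0) :
    aeval c H ≠ 0 ∧ aeval c H / c j ^ d ∈ A ∧ (aeval c H / c j ^ d)⁻¹ ∈ A := by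
  have hc0 : aeval c H ≠ 0 := fun h1 => h0 (hs d H hH h1)
  refine ⟨hc0, ?_, ?_⟩
  · rw [← aeval_div hH]
    exact poly_mem hA hjA H
  · have hX : (X j ^ d : MvPolynomial Y.ι k).IsHomogeneous d := by
      simpa using (isHomogeneous_X k j).pow d
    have h1 := h _ (form_div_mem hX hH h0)
    rw [ev_form_div hc hX hH hc0, map_pow, aeval_X] at h1
    rw [inv_div]
    exact h1

/-! ### Compactness -/

/-- C3: the ideal generated by the forms `H y` is generated by finitely many of them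
(`MvPolynomial Y.ι k` is Noetherian); `H y'` lies in it and does not vanish at `y'`. -/
theorem exists_finite_cover (H : (Y.ι → k) → MvPolynomial Y.ι k)
    (hH : ∀ y : Y.ι → k, Y.IsPt y → aeval y (H y) ≠ 0) :
    ∃ s : Finset (Y.ι → k), (∀ y ∈ s, Y.IsPt y) ∧
      ∀ y' : Y.ι → k, Y.IsPt y' → ∃ y ∈ s, aeval y' (H y) ≠ 0 := by
  classical
  obtain ⟨s', hs', hspan⟩ := (Submodule.fg_span_iff_fg_span_finset_subset
    (R := MvPolynomial Y.ι k) (H '' {y | Y.IsPt y})).1 (IsNoetherian.noetherian _)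
  have hch : ∀ P ∈ s', ∃ y, Y.IsPt y ∧ H y = P := fun P hP => hs' hP
  choose! g hg1 hg2 using hch
  refine ⟨s'.image g, ?_, ?_⟩
  · intro y hy
    obtain ⟨P, hP, rfl⟩ := Finset.mem_image.1 hy
    exact hg1 P hP
  · intro y' hy'
    by_contra hcon
    push Not at hcon
    have h1 : H y' ∈ Submodule.span (MvPolynomial Y.ι k) (H '' {y | Y.IsPt y}) :=
      Submodule.subset_span ⟨y', hy', rfl⟩
    rw [hspan] at h1
    have h2 : Submodule.span (MvPolynomial Y.ι k) (s' : Set (MvPolynomial Y.ι k)) ≤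
        (RingHom.ker (aeval y' : MvPolynomial Y.ι k →ₐ[k] k) :
          Ideal (MvPolynomial Y.ι k)) := by
      rw [Submodule.span_le]
      intro P hP
      have h3 := hcon (g P) (Finset.mem_image_of_mem g hP)
      rw [hg2 P hP] at h3
      exact h3
    exact hH y' hy' (h2 h1)

/-- A Cartier divisor has finitely many local equations `D.eq y`, `y ∈ s`, up to units. -/
theorem CaDiv.exists_finite (D : Y.CaDiv) :
    ∃ s : Finset (Y.ι → k), (∀ y ∈ s, Y.IsPt y) ∧
      ∀ y' : Y.ι → k, Y.IsPt y' → ∃ y ∈ s, D.eq y' / D.eq y ∈ Y.loc y' ∧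
        D.eq y / D.eq y' ∈ Y.loc y' := by
  choose! d H _ h2 h3 using D.locally
  obtain ⟨s, hs1, hs2⟩ := exists_finite_cover H h2
  refine ⟨s, hs1, fun y' hy' => ?_⟩
  obtain ⟨y, hy, hne⟩ := hs2 y' hy'
  exact ⟨y, hy, h3 y (hs1 y hy) y' hy' hne⟩

/-! ### Cartier divisors along a point -/

/-- C4: two local equations at points `y`, `y'` in the centre of `A` along `c` differ by a unit of
`A`.  Choose `j` by `exists_index` and neighbourhoods `H`, `H'` of `y`, `y'` as in the definition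
of a Cartier divisor; by `unit_of_ne_zero` and `exists_centre` there is `y''` with
`loc y'' → A` in both neighbourhoods; both `D.eq y'' / D.eq y` and `D.eq y'' / D.eq y'` are units
of `loc y''`. -/
theorem CaDiv.ratio_mem [IsAlgClosed k] (D : Y.CaDiv) (hc : Y.IsPt c) (A : ValuationSubring F)
    (hA : ∀ r : k, algebraMap k F r ∈ A) {y y' : Y.ι → k} (hy : Y.IsPt y) (hy' : Y.IsPt y')
    (hs : Spec c y) (hs' : Spec c y') (h : ∀ a ∈ Y.loc y, Y.ev c a ∈ A)
    (h' : ∀ a ∈ Y.loc y', Y.ev c a ∈ A) :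
    D.eq y / D.eq y' ∈ Y.loc c ∧ Y.ev c (D.eq y / D.eq y') ∈ A := by
  obtain ⟨j, hj, hjA⟩ := exists_index hc A
  obtain ⟨d, H, hH, hHy, hHn⟩ := D.locally y hy
  obtain ⟨d', H', hH', hHy', hHn'⟩ := D.locally y' hy'
  have hu := unit_of_ne_zero hc A hA hj hjA hy hs h hH hHy
  have hu' := unit_of_ne_zero hc A hA hj hjA hy' hs' h' hH' hHy'
  obtain ⟨y₀, hp, -, hn, hsp, hA0⟩ := exists_centre hc A hA hj hjA (τ := Bool) Finset.univ
    (fun b => if b then d else d') (fun b => if b then H else H')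
    (by
      intro b _
      cases b
      · exact hH'
      · exact hH)
    (by
      intro b _
      cases b
      · exact ⟨hu'.1, hu'.2.2⟩
      · exact ⟨hu.1, hu.2.2⟩)
  have hn1 : aeval y₀ H ≠ 0 := by
    simpa using hn true (Finset.mem_univ _)
  have hn2 : aeval y₀ H' ≠ 0 := by
    simpa using hn false (Finset.mem_univ _)
  have h1 := hHn y₀ hp hn1
  have h2 := hHn' y₀ hp hn2
  have hne := D.eq_ne_zero y₀ hp
  have e : D.eq y / D.eq y' = (D.eq y / D.eq y₀) * (D.eq y₀ / D.eq y') := by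
    rw [div_mul_div_cancel₀ hne]
  have hmem : D.eq y / D.eq y' ∈ Y.loc y₀ := by
    rw [e]
    exact mul_mem h1.2 h2.1
  exact ⟨hsp.loc_le hmem, hA0 _ hmem⟩

/-- Same with `A = ⊤`: two local equations at points of the closure of `c` differ by a unit of
`loc c` (exchange `y` and `y'` for the inverse). -/
theorem CaDiv.ratio_mem_loc [IsAlgClosed k] (D : Y.CaDiv) (hc : Y.IsPt c) {y y' : Y.ι → k}
    (hy : Y.IsPt y) (hy' : Y.IsPt y') (hs : Spec c y) (hs' : Spec c y') :
    D.eq y / D.eq y' ∈ Y.loc c :=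
  (D.ratio_mem hc (⊤ : ValuationSubring F) (fun _ => ValuationSubring.mem_top _) hy hy' hs hs'
    (fun _ _ => ValuationSubring.mem_top _) (fun _ _ => ValuationSubring.mem_top _)).1

/-- A vector proportional to `y` has the same local equation up to a unit (it lies in every
neighbourhood of `y`). -/
theorem CaDiv.eq_smul (D : Y.CaDiv) {y : Y.ι → k} (hy : Y.IsPt y) {r : k} (hr : r ≠ 0) :
    D.eq (r • y) / D.eq y ∈ Y.loc y ∧ D.eq y / D.eq (r • y) ∈ Y.loc y := by
  obtain ⟨d, H, hH, h0, h1⟩ := D.locally y hy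
  have h2 : aeval (r • y) H ≠ 0 := by
    rw [aeval_smul hH]
    exact mul_ne_zero (pow_ne_zero _ hr) h0
  have h3 := h1 (r • y) (hy.smul hr) h2
  rwa [loc_smul hr] at h3

end ProjVar

end Pool.Agent.MP9a7843
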