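import Pool.Agent.Lib.MP_9a7843_ag.ProdForm

/-!
# Places of `k(t)`
-/

noncomputable section

open Polynomial

namespace Pool.Agent.MP9a7843

universe u

variable {k : Type u} [Field k]

namespace ProjVar

/-- `k(t)` is finitely generated of transcendence degree `1` (`RatFunc.X` is transcendental and
generates the field). -/
theorem isCurveField_ratFunc : IsCurveField k (RatFunc k) := by
  refine ⟨?_, ?_⟩
  · have : Algebra.EssFiniteType k[X] (RatFunc k) :=
      Algebra.EssFiniteType.of_isLocalization _ (nonZeroDivisors k[X])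
    exact Algebra.EssFiniteType.comp k k[X] (RatFunc k)
  · have : Algebra.IsAlgebraic k[X] (RatFunc k) :=
      IsLocalization.isAlgebraic _ (nonZeroDivisors k[X])
    have h1 := trdeg_add_eq k k[X] (A := RatFunc k)
    rw [Polynomial.trdeg_of_isDomain, trdeg_eq_zero, add_zero] at h1
    exact h1.symm

namespace Place

private theorem al_inj : Function.Injective (algebraMap k[X] (RatFunc k)) :=
  RatFunc.algebraMap_injective k

private theorem al_ne {p : k[X]} (hp : p ≠ 0) : algebraMap k[X] (RatFunc k) p ≠ 0 :=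
  RatFunc.algebraMap_ne_zero hp

private theorem ex_div (φ : RatFunc k) (hφ : φ ≠ 0) : ∃ p q : k[X], p ≠ 0 ∧ q ≠ 0 ∧
    φ = algebraMap k[X] (RatFunc k) p / algebraMap k[X] (RatFunc k) q :=
  ⟨φ.num, φ.denom, RatFunc.num_ne_zero hφ, RatFunc.denom_ne_zero φ, (RatFunc.num_div_denom φ).symm⟩

private theorem fin_aux (r : k) {p q : k[X]} (hp : p ≠ 0) (hq : q ≠ 0) {φ : RatFunc k}
    (h : φ = algebraMap k[X] (RatFunc k) p / algebraMap k[X] (RatFunc k) q) :
    (φ.num.rootMultiplicity r : ℤ) - (φ.denom.rootMultiplicity r : ℤ) =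
      (p.rootMultiplicity r : ℤ) - (q.rootMultiplicity r : ℤ) := by
  have h1 := (RatFunc.num_mul_eq_mul_denom_iff hq).2 h
  have hφ : φ ≠ 0 := by
    rw [h]
    exact div_ne_zero (al_ne hp) (al_ne hq)
  have hn := RatFunc.num_ne_zero hφ
  have hd := RatFunc.denom_ne_zero φ
  have h2 := congrArg (rootMultiplicity r) h1
  rw [rootMultiplicity_mul (mul_ne_zero hn hq), rootMultiplicity_mul (mul_ne_zero hp hd)] at h2
  omega

/-- The order at `t = r`: for a quotient of polynomials the difference of the root
multiplicities. -/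
def fin (r : k) : Place k (RatFunc k) where
  ord φ := (φ.num.rootMultiplicity r : ℤ) - (φ.denom.rootMultiplicity r : ℤ)
  ord_zero := by
    have h1 : rootMultiplicity r (1 : k[X]) = 0 := by
      rw [← C_1, rootMultiplicity_C]
    rw [RatFunc.num_zero, RatFunc.denom_zero, rootMultiplicity_zero, h1, sub_self]
  ord_mul := by
    intro a b ha hb
    obtain ⟨p, q, hp, hq, hpq⟩ := ex_div a ha
    obtain ⟨p', q', hp', hq', hpq'⟩ := ex_div b hb
    have h : a * b = algebraMap k[X] (RatFunc k) (p * p') /
        algebraMap k[X] (RatFunc k) (q * q') := by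
      rw [hpq, hpq', map_mul, map_mul, div_mul_div_comm]
    rw [fin_aux r hp hq hpq, fin_aux r hp' hq' hpq',
      fin_aux r (mul_ne_zero hp hp') (mul_ne_zero hq hq') h,
      rootMultiplicity_mul (mul_ne_zero hp hp'), rootMultiplicity_mul (mul_ne_zero hq hq')]
    push_cast
    ring
  ord_add := by
    intro a b ha hb hab
    obtain ⟨p, q, hp, hq, hpq⟩ := ex_div a ha
    obtain ⟨p', q', hp', hq', hpq'⟩ := ex_div b hb
    have h : a + b = algebraMap k[X] (RatFunc k) (p * q' + q * p') /
        algebraMap k[X] (RatFunc k) (q * q') := by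
      rw [hpq, hpq', map_add, map_mul, map_mul, map_mul, div_add_div _ _ (al_ne hq) (al_ne hq')]
    have h0 : p * q' + q * p' ≠ 0 := by
      intro h0
      rw [h0, map_zero, zero_div] at h
      exact hab h
    have h1 := rootMultiplicity_add r h0
    rw [rootMultiplicity_mul (mul_ne_zero hp hq'), rootMultiplicity_mul (mul_ne_zero hq hp')] at h1
    rw [fin_aux r hp hq hpq, fin_aux r hp' hq' hpq', fin_aux r h0 (mul_ne_zero hq hq') h,
      rootMultiplicity_mul (mul_ne_zero hq hq')]
    omega
  ord_const := by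
    intro c hc
    have h : algebraMap k (RatFunc k) c = algebraMap k[X] (RatFunc k) (C c) /
        algebraMap k[X] (RatFunc k) (C 1) := by
      rw [C_1, map_one, div_one, IsScalarTower.algebraMap_apply k k[X] (RatFunc k)]
      rfl
    rw [fin_aux r (C_ne_zero.2 hc) (C_ne_zero.2 one_ne_zero) h, rootMultiplicity_C,
      rootMultiplicity_C, sub_self]
  ord_surj := by
    have h : algebraMap k[X] (RatFunc k) (X - C r) = algebraMap k[X] (RatFunc k) (X - C r) /
        algebraMap k[X] (RatFunc k) (C 1) := by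
      rw [C_1, map_one, div_one]
    refine ⟨algebraMap k[X] (RatFunc k) (X - C r), al_ne (X_sub_C_ne_zero r), ?_⟩
    rw [fin_aux r (X_sub_C_ne_zero r) (C_ne_zero.2 one_ne_zero) h, rootMultiplicity_C,
      rootMultiplicity_X_sub_C_self]
    simp

/-- The order at infinity: minus the degree. -/
def inf : Place k (RatFunc k) where
  ord φ := -φ.intDegree
  ord_zero := by
    rw [RatFunc.intDegree_zero, neg_zero]
  ord_mul := by
    intro a b ha hb
    rw [RatFunc.intDegree_mul ha hb, neg_add]
  ord_add := by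
    intro a b ha hb hab
    have h1 := RatFunc.intDegree_add_le hb hab
    omega
  ord_const := by
    intro c hc
    have h : algebraMap k (RatFunc k) c = RatFunc.C c := rfl
    rw [h, RatFunc.intDegree_C, neg_zero]
  ord_surj := by
    refine ⟨RatFunc.X⁻¹, inv_ne_zero RatFunc.X_ne_zero, ?_⟩
    rw [RatFunc.intDegree_inv, RatFunc.intDegree_X, neg_neg]

theorem fin_ord (r : k) {p : k[X]} (hp : p ≠ 0) :
    (fin r).ord (algebraMap k[X] (RatFunc k) p) = p.rootMultiplicity r := by
  have h : algebraMap k[X] (RatFunc k) p = algebraMap k[X] (RatFunc k) p /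
      algebraMap k[X] (RatFunc k) (C 1) := by
    rw [C_1, map_one, div_one]
  have h1 := fin_aux r hp (C_ne_zero.2 one_ne_zero) h
  rw [rootMultiplicity_C, Nat.cast_zero, sub_zero] at h1
  exact h1

theorem inf_ord {p : k[X]} (hp : p ≠ 0) :
    (inf : Place k (RatFunc k)).ord (algebraMap k[X] (RatFunc k) p) = -(p.natDegree : ℤ) := by
  have h1 : (inf : Place k (RatFunc k)).ord (algebraMap k[X] (RatFunc k) p) =
    -(algebraMap k[X] (RatFunc k) p).intDegree := rfl
  rw [h1, RatFunc.intDegree_polynomial]

private theorem al_C (c : k) :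
    algebraMap k[X] (RatFunc k) (C c) = algebraMap k (RatFunc k) c := by
  rw [IsScalarTower.algebraMap_apply k k[X] (RatFunc k)]
  rfl

private theorem poly_mem (v : Place k (RatFunc k))
    (h : algebraMap k[X] (RatFunc k) X ∈ v.valSubring) (p : k[X]) :
    algebraMap k[X] (RatFunc k) p ∈ v.valSubring := by
  induction p using Polynomial.induction_on' with
  | add p q hp hq =>
    rw [map_add]
    exact add_mem hp hq
  | monomial n a =>
    rw [← C_mul_X_pow_eq_monomial, map_mul, map_pow, al_C]
    exact mul_mem (v.algebraMap_mem a) (pow_mem h n)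

private theorem fin_case (v : Place k (RatFunc k))
    (h : algebraMap k[X] (RatFunc k) X ∈ v.valSubring) {r : k}
    (hr : v.Small (algebraMap k[X] (RatFunc k) X - algebraMap k (RatFunc k) r)) :
    v = fin r := by
  symm
  apply ext_valSubring
  intro φ hφ
  rw [mem_valSubring] at hφ
  rcases hφ with hφ | hφ
  · exact Or.inl hφ
  by_cases h0 : φ = 0
  · exact Or.inl h0
  have h1 : (fin r).ord φ = (φ.num.rootMultiplicity r : ℤ) - (φ.denom.rootMultiplicity r : ℤ) :=
    rfl
  rw [h1] at hφ
  have hn := RatFunc.num_ne_zero h0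
  have hd := RatFunc.denom_ne_zero φ
  have h2 : ¬ IsRoot φ.denom r := by
    intro h2
    have h3 := (rootMultiplicity_pos hd).2 h2
    have h4 : 0 < rootMultiplicity r φ.num := by omega
    have h5 := (rootMultiplicity_pos hn).1 h4
    obtain ⟨a, b, hab⟩ := RatFunc.isCoprime_num_denom φ
    have h6 := congrArg (eval r) hab
    rw [eval_add, eval_mul, eval_mul, h5.eq_zero, h2.eq_zero] at h6
    simp at h6
  have h3 : v.ord (algebraMap k[X] (RatFunc k) φ.denom) = 0 := by
    obtain ⟨s, hs⟩ := X_sub_C_dvd_sub_C_eval (p := φ.denom) (a := r)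
    have h4 : algebraMap k[X] (RatFunc k) φ.denom - algebraMap k (RatFunc k) (φ.denom.eval r) =
        (algebraMap k[X] (RatFunc k) X - algebraMap k (RatFunc k) r) *
          algebraMap k[X] (RatFunc k) s := by
      rw [← al_C, ← al_C, ← map_sub, ← map_sub, hs, map_mul]
    have h5 : v.Small (algebraMap k[X] (RatFunc k) φ.denom -
        algebraMap k (RatFunc k) (φ.denom.eval r)) := by
      rw [h4]
      exact hr.mul v (poly_mem v h s)
    by_contra h6
    have h7 : v.Small (algebraMap k[X] (RatFunc k) φ.denom) := by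
      rcases poly_mem v h φ.denom with h8 | h8
      · exact Or.inl h8
      · exact Or.inr (lt_of_le_of_ne h8 (Ne.symm h6))
    have h8 := h7.sub v h5
    rw [sub_sub_cancel, small_algebraMap] at h8
    exact h2 h8
  refine Or.inr ?_
  rw [← RatFunc.num_div_denom φ, v.ord_div (al_ne hn) (al_ne hd), h3, sub_zero]
  rcases poly_mem v h φ.num with h8 | h8
  · exact absurd h8 (al_ne hn)
  · exact h8

private theorem ord_poly (v : Place k (RatFunc k))
    (h : v.ord (algebraMap k[X] (RatFunc k) X) < 0) (n : ℕ) :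
    ∀ p : k[X], p ≠ 0 → p.natDegree ≤ n → v.ord (algebraMap k[X] (RatFunc k) p) =
      p.natDegree * v.ord (algebraMap k[X] (RatFunc k) X) := by
  induction n with
  | zero =>
    intro p hp hn
    have h1 : p = C (p.coeff 0) := eq_C_of_natDegree_le_zero hn
    have h2 : p.coeff 0 ≠ 0 := fun h2 => hp (by rw [h1, h2, C_0])
    have h3 : p.natDegree = 0 := by omega
    rw [h3, h1, al_C, v.ord_const _ h2]
    simp
  | succ n ih =>
    intro p hp hn
    have hl : v.ord (algebraMap k[X] (RatFunc k) (C p.leadingCoeff * X ^ p.natDegree)) =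
        p.natDegree * v.ord (algebraMap k[X] (RatFunc k) X) := by
      rw [map_mul, map_pow, al_C, v.ord_mul _ _ _ (pow_ne_zero _ (al_ne X_ne_zero)), v.ord_pow,
        v.ord_const _ (leadingCoeff_ne_zero.2 hp), zero_add]
      rw [← al_C]
      exact al_ne (C_ne_zero.2 (leadingCoeff_ne_zero.2 hp))
    by_cases he : p.eraseLead = 0
    · have h1 := p.eraseLead_add_C_mul_X_pow
      rw [he, zero_add] at h1
      rw [h1] at hl
      exact hl
    · have h1 := p.eraseLead_add_C_mul_X_pow
      have h2 : p.eraseLead.natDegree < p.natDegree := by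
        rcases p.eraseLead_natDegree_lt_or_eraseLead_eq_zero with h2 | h2
        · exact h2
        · exact absurd h2 he
      have h3 := ih _ he (by omega)
      have h4 : v.ord (algebraMap k[X] (RatFunc k) (C p.leadingCoeff * X ^ p.natDegree)) <
          v.ord (algebraMap k[X] (RatFunc k) p.eraseLead) := by
        rw [hl, h3]
        have h5 : (p.eraseLead.natDegree : ℤ) < p.natDegree := by exact_mod_cast h2
        nlinarith
      have h5 := v.ord_add_eq (al_ne (mul_ne_zero (C_ne_zero.2 (leadingCoeff_ne_zero.2 hp))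
        (pow_ne_zero _ X_ne_zero))) (al_ne he) h4
      rw [← map_add, add_comm, h1, hl] at h5
      exact h5.2

private theorem inf_case (v : Place k (RatFunc k))
    (h : v.ord (algebraMap k[X] (RatFunc k) X) < 0) : v = inf := by
  symm
  apply ext_valSubring
  intro φ hφ
  rw [mem_valSubring] at hφ
  rcases hφ with hφ | hφ
  · exact Or.inl hφ
  by_cases h0 : φ = 0
  · exact Or.inl h0
  have hn := RatFunc.num_ne_zero h0
  have hd := RatFunc.denom_ne_zero φ
  refine Or.inr ?_
  rw [← RatFunc.num_div_denom φ, v.ord_div (al_ne hn) (al_ne hd),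
    ord_poly v h _ _ hn le_rfl, ord_poly v h _ _ hd le_rfl]
  rw [← RatFunc.num_div_denom φ, inf.ord_div (al_ne hn) (al_ne hd), inf_ord hn, inf_ord hd] at hφ
  nlinarith

/-- All places: if `ord t ≥ 0` (or the place is non-negative on `k[t]`), the maximal ideal meets
`k[t]` in the ideal generated by some `t - r` (`k` algebraically closed), every polynomial prime to
`t - r` is a unit, so the place is `fin r`.  If `ord t < 0`, then `ord` of a polynomial of degree
`n` is `n * ord t`, and `ord t = -1` by `ord_surj`. -/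
theorem eq_fin_or_inf [IsAlgClosed k] (v : Place k (RatFunc k)) :
    (∃ r : k, v = fin r) ∨ v = inf := by
  by_cases h : algebraMap k[X] (RatFunc k) X ∈ v.valSubring
  · obtain ⟨r, hr⟩ := v.exists_residue isCurveField_ratFunc.trdeg h
    exact Or.inl ⟨r, fin_case v h hr⟩
  · refine Or.inr (inf_case v ?_)
    by_contra h1
    exact h (Or.inr (not_lt.1 h1))

theorem fin_injective : Function.Injective (fin : k → Place k (RatFunc k)) := by
  intro r s h
  by_contra hrs
  have h1 := fin_ord r (X_sub_C_ne_zero r)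
  rw [h, fin_ord s (X_sub_C_ne_zero r), rootMultiplicity_X_sub_C_self,
    rootMultiplicity_eq_zero (mt root_X_sub_C.1 hrs)] at h1
  simp at h1

theorem fin_ne_inf (r : k) : fin r ≠ inf := by
  intro h
  have h1 := fin_ord r (X_sub_C_ne_zero r)
  rw [h, inf_ord (X_sub_C_ne_zero r), rootMultiplicity_X_sub_C_self, natDegree_X_sub_C] at h1
  simp at h1

/-- Sums over all places. -/
theorem finsum_place [IsAlgClosed k] (f : Place k (RatFunc k) → ℤ)
    (hf : {v | f v ≠ 0}.Finite) :
    ∑ᶠ v, f v = f inf + ∑ᶠ r : k, f (fin r) := by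
  have h1 : (Set.univ : Set (Place k (RatFunc k))) = insert inf (Set.range fin) := by
    symm
    rw [Set.eq_univ_iff_forall]
    intro v
    rcases eq_fin_or_inf v with ⟨r, rfl⟩ | rfl
    · exact Set.mem_insert_of_mem _ (Set.mem_range_self r)
    · exact Set.mem_insert _ _
  have h2 : (inf : Place k (RatFunc k)) ∉ Set.range (fin : k → Place k (RatFunc k)) := by
    rintro ⟨r, hr⟩
    exact fin_ne_inf r hr
  rw [← finsum_mem_univ, h1, finsum_mem_insert' f h2, finsum_mem_range fin_injective]
  exact hf.subset fun v hv => hv.2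

private theorem min_fin {κ : Type*} [Fintype κ] (p : κ → k[X]) (r : k)
    (h3 : ∃ i, (p i).eval r ≠ 0) :
    (fin r).minOrd (fun i => algebraMap k[X] (RatFunc k) (p i)) = 0 := by
  obtain ⟨j, hj⟩ := h3
  have hj0 : p j ≠ 0 := by
    intro h0
    rw [h0, eval_zero] at hj
    exact hj rfl
  have h4 : (fin r).ord (algebraMap k[X] (RatFunc k) (p j)) = 0 := by
    rw [fin_ord r hj0, rootMultiplicity_eq_zero hj, Nat.cast_zero]
  rw [(fin r).minOrd_eq (fun i => algebraMap k[X] (RatFunc k) (p i)) (al_ne hj0) fun i => ?_]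
  · exact h4
  by_cases hi : p i = 0
  · refine Or.inl ?_
    change algebraMap k[X] (RatFunc k) (p i) / algebraMap k[X] (RatFunc k) (p j) = 0
    rw [hi, map_zero, zero_div]
  · refine Or.inr ?_
    change 0 ≤ (fin r).ord (algebraMap k[X] (RatFunc k) (p i) / algebraMap k[X] (RatFunc k) (p j))
    rw [(fin r).ord_div (al_ne hi) (al_ne hj0), h4, fin_ord r hi]
    omega

private theorem min_inf {κ : Type*} [Fintype κ] (p : κ → k[X]) (d : ℕ)
    (h1 : ∀ i, (p i).natDegree ≤ d) (h2 : ∃ i, (p i).coeff d ≠ 0) :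
    (inf : Place k (RatFunc k)).minOrd (fun i => algebraMap k[X] (RatFunc k) (p i)) =
      -(d : ℤ) := by
  obtain ⟨j, hj⟩ := h2
  have hj0 : p j ≠ 0 := by
    intro h0
    rw [h0, coeff_zero] at hj
    exact hj rfl
  have hjd : (p j).natDegree = d := le_antisymm (h1 j) (le_natDegree_of_ne_zero hj)
  rw [inf.minOrd_eq (fun i => algebraMap k[X] (RatFunc k) (p i)) (al_ne hj0) fun i => ?_]
  · rw [inf_ord hj0, hjd]
  by_cases hi : p i = 0
  · refine Or.inl ?_
    change algebraMap k[X] (RatFunc k) (p i) / algebraMap k[X] (RatFunc k) (p j) = 0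
    rw [hi, map_zero, zero_div]
  · refine Or.inr ?_
    change 0 ≤ inf.ord (algebraMap k[X] (RatFunc k) (p i) / algebraMap k[X] (RatFunc k) (p j))
    rw [inf.ord_div (al_ne hi) (al_ne hj0), inf_ord hi, inf_ord hj0, hjd]
    have := h1 i
    omega

private theorem min_finite [IsAlgClosed k] {κ : Type*} [Fintype κ] (p : κ → k[X])
    (h3 : ∀ r : k, ∃ i, (p i).eval r ≠ 0) :
    {v : Place k (RatFunc k) |
      -v.minOrd (fun i => algebraMap k[X] (RatFunc k) (p i)) ≠ 0}.Finite := by
  refine (Set.finite_singleton (inf : Place k (RatFunc k))).subset ?_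
  intro v hv
  rcases eq_fin_or_inf v with ⟨r, rfl⟩ | rfl
  · exact absurd (by rw [min_fin p r (h3 r), neg_zero]) hv
  · exact Set.mem_singleton _

/-- The height of a primitive tuple of polynomials is the maximal degree. -/
theorem finsum_minOrd [IsAlgClosed k] {κ : Type*} [Fintype κ] (p : κ → k[X]) (d : ℕ)
    (h1 : ∀ i, (p i).natDegree ≤ d) (h2 : ∃ i, (p i).coeff d ≠ 0)
    (h3 : ∀ r : k, ∃ i, (p i).eval r ≠ 0) :
    ∑ᶠ v : Place k (RatFunc k), -v.minOrd (fun i => algebraMap k[X] (RatFunc k) (p i)) = d := by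
  rw [finsum_place _ (min_finite p h3)]
  simp only [min_fin p _ (h3 _), min_inf p d h1 h2, neg_neg, neg_zero, finsum_zero, add_zero]

/-- The same up to a common factor. -/
theorem finsum_minOrd_smul [IsAlgClosed k] [CharZero k] {κ : Type*} [Fintype κ] (p : κ → k[X])
    (d : ℕ) (h1 : ∀ i, (p i).natDegree ≤ d) (h2 : ∃ i, (p i).coeff d ≠ 0)
    (h3 : ∀ r : k, ∃ i, (p i).eval r ≠ 0) {φ : RatFunc k} (hφ : φ ≠ 0) :
    ∑ᶠ v : Place k (RatFunc k),
      -v.minOrd (φ • fun i => algebraMap k[X] (RatFunc k) (p i)) = d := by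
  have h0 : ∃ i, (fun i => algebraMap k[X] (RatFunc k) (p i)) i ≠ 0 := by
    obtain ⟨j, hj⟩ := h2
    refine ⟨j, al_ne ?_⟩
    rintro h0
    rw [h0, coeff_zero] at hj
    exact hj rfl
  have h4 : ∀ v : Place k (RatFunc k),
      -v.minOrd (φ • fun i => algebraMap k[X] (RatFunc k) (p i)) =
        -v.ord φ + -v.minOrd (fun i => algebraMap k[X] (RatFunc k) (p i)) := by
    intro v
    rw [v.minOrd_smul _ h0 hφ, neg_add]
  have h5 := finite_ord_ne_zero (k := k) isCurveField_ratFunc φ
  have h6 : (Function.support fun v : Place k (RatFunc k) => -v.ord φ).Finite := by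
    refine h5.subset fun v hv => ?_
    exact fun h7 => hv (by
      change -v.ord φ = 0
      rw [h7, neg_zero])
  have h7 : (Function.support fun v : Place k (RatFunc k) =>
      -v.minOrd (fun i => algebraMap k[X] (RatFunc k) (p i))).Finite := min_finite p h3
  simp only [h4]
  rw [finsum_add_distrib h6 h7, finsum_neg_distrib, finsum_ord isCurveField_ratFunc φ,
    finsum_minOrd p d h1 h2 h3, neg_zero, zero_add]

end Place

end ProjVar

end Pool.Agent.MP9a7843
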