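import Pool.Agent.Lib.MP_9a7843_ag.P1
import Pool.Agent.Lib.MP_9a7843_ag.Deg2

/-!
# Tuples of binary forms and polynomials
-/

noncomputable section

open Polynomial

namespace Pool.Agent.MP9a7843

namespace ProjVar

universe u

variable {k : Type u} [Field k] {X Y : ProjVar k} {d : ℕ}

/-! ### Polynomials -/

/-- The polynomial with coefficients `a (i, ·)`. -/
def tuplePoly (X : ProjVar k) (d : ℕ) (a : X.ι × Fin (d + 1) → k) (i : X.ι) : k[X] :=
  ∑ j : Fin (d + 1), C (a (i, j)) * Polynomial.X ^ (j : ℕ)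

theorem tupleGen_eq (a : X.ι × Fin (d + 1) → k) (i : X.ι) :
    X.tupleGen d a i = algebraMap k[X] (RatFunc k) (X.tuplePoly d a i) := by
  unfold tupleGen tuplePoly
  rw [map_sum]
  refine Finset.sum_congr rfl fun j _ => ?_
  rw [map_mul, map_pow, RatFunc.algebraMap_C, RatFunc.algebraMap_X, RatFunc.algebraMap_eq_C]

theorem coeff_tuplePoly (a : X.ι × Fin (d + 1) → k) (i : X.ι) (j : Fin (d + 1)) :
    (X.tuplePoly d a i).coeff j = a (i, j) := by
  unfold tuplePoly
  rw [Polynomial.finsetSum_coeff, Finset.sum_eq_single j]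
  · rw [Polynomial.coeff_C_mul_X_pow, if_pos rfl]
  · intro b _ hb
    rw [Polynomial.coeff_C_mul_X_pow, if_neg fun h => hb (Fin.ext h.symm)]
  · intro h
    exact absurd (Finset.mem_univ _) h

theorem natDegree_tuplePoly_le (a : X.ι × Fin (d + 1) → k) (i : X.ι) :
    (X.tuplePoly d a i).natDegree ≤ d := by
  unfold tuplePoly
  refine Polynomial.natDegree_sum_le_of_forall_le _ _ fun j _ => ?_
  exact (Polynomial.natDegree_C_mul_X_pow_le _ _).trans (Nat.lt_succ_iff.1 j.2)

/-- A family of polynomials of degree at most `d` comes from a coefficient vector. -/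
theorem exists_tuplePoly (p : X.ι → k[X]) (hp : ∀ i, (p i).natDegree ≤ d) :
    ∃ a : X.ι × Fin (d + 1) → k, ∀ i, X.tuplePoly d a i = p i := by
  refine ⟨fun x => (p x.1).coeff x.2, fun i => ?_⟩
  refine Polynomial.ext fun n => ?_
  by_cases hn : n < d + 1
  · exact coeff_tuplePoly (fun x => (p x.1).coeff x.2) i ⟨n, hn⟩
  · rw [Polynomial.coeff_eq_zero_of_natDegree_lt
      (lt_of_le_of_lt (natDegree_tuplePoly_le _ i) (by omega)),
      Polynomial.coeff_eq_zero_of_natDegree_lt (lt_of_le_of_lt (hp i) (by omega))]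

theorem formVal_eq (a : X.ι × Fin (d + 1) → k) (s : k) (i : X.ι) :
    X.formVal d a (s, 1) i = (X.tuplePoly d a i).eval s := by
  unfold tuplePoly formVal
  rw [Polynomial.eval_finsetSum]
  refine Finset.sum_congr rfl fun j _ => ?_
  rw [one_pow, mul_one, Polynomial.eval_mul, Polynomial.eval_C, Polynomial.eval_pow,
    Polynomial.eval_X]

theorem formVal_infty (a : X.ι × Fin (d + 1) → k) (i : X.ι) :
    X.formVal d a (1, 0) i = a (i, Fin.last d) := by
  unfold formVal
  rw [Finset.sum_eq_single (Fin.last d)]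
  · simp
  · intro j _ hj
    have h1 : (j : ℕ) < d := by
      have h2 := Nat.lt_succ_iff.1 j.2
      rcases Nat.lt_or_ge (j : ℕ) d with h3 | h3
      · exact h3
      · exact absurd (Fin.ext (le_antisymm h2 h3)) hj
    have h4 : d - (j : ℕ) ≠ 0 := by omega
    change _ * (0 : k) ^ (d - (j : ℕ)) = 0
    rw [zero_pow h4, mul_zero]
  · intro h
    exact absurd (Finset.mem_univ _) h

theorem formVal_smul (a : X.ι × Fin (d + 1) → k) (s : k × k) (r : k) :
    X.formVal d a (r • s) = r ^ d • X.formVal d a s := by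
  funext i
  rw [Pi.smul_apply, smul_eq_mul]
  unfold formVal
  rw [Finset.mul_sum]
  refine Finset.sum_congr rfl fun j _ => ?_
  have h1 : r ^ d = r ^ (j : ℕ) * r ^ (d - (j : ℕ)) := by
    rw [← pow_add, Nat.add_sub_cancel' (Nat.lt_succ_iff.1 j.2)]
  rw [Prod.smul_fst, Prod.smul_snd, smul_eq_mul, smul_eq_mul, mul_pow, mul_pow, h1]
  ring

theorem formVal_smul_left (a : X.ι × Fin (d + 1) → k) (s : k × k) (r : k) :
    X.formVal d (r • a) s = r • X.formVal d a s := by
  funext i
  rw [Pi.smul_apply, smul_eq_mul]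
  unfold formVal
  rw [Finset.mul_sum]
  refine Finset.sum_congr rfl fun j _ => ?_
  rw [Pi.smul_apply, smul_eq_mul]
  ring

private theorem tup_aeval_eval (p : X.ι → k[X]) (G : MvPolynomial X.ι k) (t : k) :
    (MvPolynomial.aeval p G).eval t = MvPolynomial.aeval (fun i => (p i).eval t) G := by
  have h : (Polynomial.aeval t).comp (MvPolynomial.aeval p) =
      MvPolynomial.aeval (fun i => (p i).eval t) := by
    refine MvPolynomial.algHom_ext fun i => ?_
    rw [AlgHom.comp_apply, MvPolynomial.aeval_X, MvPolynomial.aeval_X,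
      Polynomial.coe_aeval_eq_eval]
  rw [← h, AlgHom.comp_apply, Polynomial.coe_aeval_eq_eval]

private theorem tup_aeval_gen (a : X.ι × Fin (d + 1) → k) (G : MvPolynomial X.ι k) :
    MvPolynomial.aeval (X.tupleGen d a) G =
      algebraMap k[X] (RatFunc k) (MvPolynomial.aeval (X.tuplePoly d a) G) := by
  have h : (IsScalarTower.toAlgHom k k[X] (RatFunc k)).comp
      (MvPolynomial.aeval (X.tuplePoly d a)) = MvPolynomial.aeval (X.tupleGen d a) := by
    refine MvPolynomial.algHom_ext fun i => ?_
    rw [AlgHom.comp_apply, MvPolynomial.aeval_X, MvPolynomial.aeval_X, tupleGen_eq]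
    rfl
  rw [← h, AlgHom.comp_apply]
  rfl

private theorem tup_formVal_fun (a : X.ι × Fin (d + 1) → k) (r : k) :
    X.formVal d a (r, 1) = fun i => (X.tuplePoly d a i).eval r :=
  funext fun i => formVal_eq a r i

/-- A tuple of binary forms without common zero and with values in `X` is the same as a family of
polynomials of degree at most `d`, one of them of degree exactly `d`, without common root, and
which is a `k(t)`-valued point of `X`.  (A form `G` in the `tuplePoly` is a polynomial in `t`,
it is zero iff it vanishes at all `t ∈ k`; at `(1, 0)`: `G` of the leading coefficients is the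
coefficient of `t^(d * deg G)` of `G(tuplePoly)`.  Every `s ≠ 0` is proportional to `(r, 1)` or
`(1, 0)`.) -/
theorem isTuple_iff [IsAlgClosed k] (a : X.ι × Fin (d + 1) → k) :
    (∀ s : k × k, s ≠ 0 → X.IsPt (X.formVal d a s)) ↔
      X.IsPt (X.tupleGen d a) ∧ (∃ i, a (i, Fin.last d) ≠ 0) ∧
        ∀ r : k, ∃ i, (X.tuplePoly d a i).eval r ≠ 0 := by
  have hinf : Infinite k := IsAlgClosed.instInfinite
  have hinj : Function.Injective (algebraMap k[X] (RatFunc k)) :=
    IsFractionRing.injective k[X] (RatFunc k)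
  constructor
  · intro h
    refine ⟨⟨?_, ?_⟩, ?_, ?_⟩
    · obtain ⟨i, hi⟩ := (h (0, 1) (by simp)).1
      refine ⟨i, fun h0 => hi ?_⟩
      rw [tupleGen_eq] at h0
      have h1 : X.tuplePoly d a i = 0 := hinj (h0.trans (map_zero _).symm)
      rw [formVal_eq, h1, Polynomial.eval_zero]
    · intro e G hG hz
      have h1 : MvPolynomial.aeval (X.tuplePoly d a) G = 0 := by
        refine Polynomial.funext fun t => ?_
        rw [tup_aeval_eval, Polynomial.eval_zero, ← tup_formVal_fun]
        exact (h (t, 1) (by simp)).2 e G hG hz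
      rw [tup_aeval_gen, h1, map_zero]
    · obtain ⟨i, hi⟩ := (h (1, 0) (by simp)).1
      exact ⟨i, by rwa [formVal_infty] at hi⟩
    · intro r
      obtain ⟨i, hi⟩ := (h (r, 1) (by simp)).1
      exact ⟨i, by rwa [formVal_eq] at hi⟩
  · rintro ⟨hp, hl, hr⟩
    have h1 : ∀ r : k, X.IsPt (X.formVal d a (r, 1)) := by
      intro r
      obtain ⟨i, hi⟩ := hr r
      refine ⟨⟨i, by rwa [formVal_eq]⟩, fun e G hG hz => ?_⟩
      have h2 := hp.2 e G hG hz
      rw [tup_aeval_gen] at h2
      have h3 : MvPolynomial.aeval (X.tuplePoly d a) G = 0 := hinj (h2.trans (map_zero _).symm)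
      rw [tup_formVal_fun, ← tup_aeval_eval, h3, Polynomial.eval_zero]
    have h2 : ∀ s : k × k, s.2 ≠ 0 → X.IsPt (X.formVal d a s) := by
      intro s hs
      have e1 : s = s.2 • ((s.1 / s.2, 1) : k × k) := by
        refine Prod.ext ?_ ?_
        · rw [Prod.smul_fst, smul_eq_mul, mul_div_cancel₀ _ hs]
        · rw [Prod.smul_snd, smul_eq_mul, mul_one]
      rw [e1, formVal_smul]
      exact (h1 _).smul (pow_ne_zero _ hs)
    have h3 : X.IsPt (X.formVal d a (1, 0)) := by
      obtain ⟨i, hi⟩ := hl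
      refine ⟨⟨i, by rwa [formVal_infty]⟩, fun e G hG hz => ?_⟩
      obtain ⟨q, hq⟩ : ∃ q : X.ι → k[X], ∀ t, (fun i => (q i).eval t) =
          X.formVal d a (1, t) := by
        refine ⟨fun i => ∑ j : Fin (d + 1), C (a (i, j)) * Polynomial.X ^ (d - (j : ℕ)),
          fun t => funext fun i => ?_⟩
        unfold formVal
        rw [Polynomial.eval_finsetSum]
        refine Finset.sum_congr rfl fun j _ => ?_
        rw [one_pow, mul_one, Polynomial.eval_mul, Polynomial.eval_C, Polynomial.eval_pow,
          Polynomial.eval_X]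
      have h4 : MvPolynomial.aeval q G = 0 := by
        refine Polynomial.eq_zero_of_infinite_isRoot _ ?_
        refine Set.Infinite.mono (s := ({0} : Set k)ᶜ) ?_ (Set.finite_singleton _).infinite_compl
        intro t ht
        show (MvPolynomial.aeval q G).eval t = 0
        rw [tup_aeval_eval, hq]
        exact (h2 (1, t) ht).2 e G hG hz
      rw [← hq, ← tup_aeval_eval, h4, Polynomial.eval_zero]
    intro s hs
    by_cases h4 : s.2 = 0
    · have h5 : s.1 ≠ 0 := fun h0 => hs (Prod.ext h0 h4)
      have e1 : s = s.1 • ((1, 0) : k × k) := by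
        refine Prod.ext ?_ ?_
        · rw [Prod.smul_fst, smul_eq_mul, mul_one]
        · rw [Prod.smul_snd, smul_eq_mul, mul_zero, h4]
      rw [e1, formVal_smul]
      exact h3.smul (pow_ne_zero _ h5)
    · exact h2 s h4

theorem Tuple.isPt_gen [IsAlgClosed k] (a : X.Tuple d) : X.IsPt (X.tupleGen d a.1) :=
  ((isTuple_iff a.1).1 a.2).1

/-- The curve given by a tuple. -/
def Tuple.curve [IsAlgClosed k] (a : X.Tuple d) : X.Curve where
  F := RatFunc k
  fg := isCurveField_ratFunc.fg
  trdeg := isCurveField_ratFunc.trdeg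
  c := X.tupleGen d a.1
  isPt := a.isPt_gen

end ProjVar

end Pool.Agent.MP9a7843
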